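import Pool.Agent.Lib_helper27.HSC.Rot

/-!
# Positivity of the holomorphic sectional curvature at every point of the chart
-/

namespace Pool.Agent.LibH27.HSC

open scoped Manifold ContDiff ComplexConjugate Topology ComplexOrder
open Complex Finset

/-- The curvature of the metric `GG` is positive at `z`. -/
def PosAt (z : C2) : Prop := ∀ v : C2, v ≠ 0 → 0 < (curvSum GG z v).re

theorem Change.posAt {U : Set C2} {T : C2 → C2} {J : C2 → Fin 2 → Fin 2 → ℂ}
    {J2 : C2 → Fin 2 → Fin 2 → Fin 2 → ℂ} (h : Change U T J J2) {z : C2} (hz : z ∈ U)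
    (hp : PosAt (T z)) : PosAt z := by
  intro v hv
  refine lt_of_lt_of_le (hp _ ?_) (h.curvSum_le hz v)
  intro h0
  apply hv
  have e0 := congrFun h0 0
  have e1 := congrFun h0 1
  simp only [Fin.sum_univ_two, Pi.zero_apply] at e0 e1
  have hd := h.hdet z hz
  have a0 : v 0 * (J z 0 0 * J z 1 1 - J z 0 1 * J z 1 0) = 0 := by
    linear_combination J z 1 1 * e0 - J z 1 0 * e1
  have a1 : v 1 * (J z 0 0 * J z 1 1 - J z 0 1 * J z 1 0) = 0 := by
    linear_combination J z 0 0 * e1 - J z 0 1 * e0
  ext i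
  fin_cases i
  · exact (mul_eq_zero.1 a0).resolve_right hd
  · exact (mul_eq_zero.1 a1).resolve_right hd

theorem posAt_box {z : C2} (hX : normSq (z 0) < 3 / 2) (hY : normSq (z 1) < 3 / 2) : PosAt z :=
  fun v hv => curvSum_pos z v hX hY hv

theorem T5_zero (z : C2) : normSq (T5 z 0) = normSq (z 0) * normSq (z 1) := by
  simp [T5, normSq_mul]

theorem T5_one (z : C2) : normSq (T5 z 1) = (normSq (z 0))⁻¹ := by
  simp [T5]

theorem mem_of_normSq {z : C2} (h : 1 < normSq (z 0)) : z ∈ {w : C2 | w 0 ≠ 0} := by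
  intro h0
  rw [h0, normSq_zero] at h
  linarith

theorem posAt_big {z : C2} (hX : 1 < normSq (z 0)) : PosAt z := by
  have hX0 : normSq (z 0) ≠ 0 := by linarith
  refine change5.posAt (mem_of_normSq hX) ?_
  have hinv : (normSq (z 0))⁻¹ < 1 := inv_lt_one_of_one_lt₀ hX
  rcases lt_or_ge (normSq (z 0) * normSq (z 1)) (3 / 2) with h1 | h1
  · exact posAt_box (by rw [T5_zero]; exact h1) (by rw [T5_one]; linarith)
  · have h1' : 1 < normSq (T5 z 0) := by rw [T5_zero]; linarith
    refine change5.posAt (mem_of_normSq h1') ?_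
    have e0 : normSq (T5 (T5 z) 0) = normSq (z 1) := by
      rw [T5_zero, T5_zero, T5_one]; field_simp
    have e1 : normSq (T5 (T5 z) 1) = (normSq (z 0) * normSq (z 1))⁻¹ := by
      rw [T5_one, T5_zero]
    have hinv2 : (normSq (z 0) * normSq (z 1))⁻¹ < 1 := inv_lt_one_of_one_lt₀ (by linarith)
    rcases lt_or_ge (normSq (z 1)) (3 / 2) with h2 | h2
    · exact posAt_box (by rw [e0]; exact h2) (by rw [e1]; linarith)
    · have h2' : 1 < normSq (T5 (T5 z) 0) := by rw [e0]; linarith
      have hY0 : normSq (z 1) ≠ 0 := by linarith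
      refine change5.posAt (mem_of_normSq h2') ?_
      have f0 : normSq (T5 (T5 (T5 z)) 0) = (normSq (z 0))⁻¹ := by
        rw [T5_zero, e0, e1]; field_simp
      have f1 : normSq (T5 (T5 (T5 z)) 1) = (normSq (z 1))⁻¹ := by
        rw [T5_one, e0]
      have hinv3 : (normSq (z 1))⁻¹ < 1 := inv_lt_one_of_one_lt₀ (by linarith)
      exact posAt_box (by rw [f0]; linarith) (by rw [f1]; linarith)

/-- The holomorphic sectional curvature of `GG` is positive everywhere on `ℂ²`. -/
theorem posAt_all (z : C2) : PosAt z := by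
  rcases lt_or_ge 1 (normSq (z 0)) with h | h
  · exact posAt_big h
  · rcases lt_or_ge 1 (normSq (z 1)) with h' | h'
    · refine change_swp.posAt (Set.mem_univ z) (posAt_big ?_)
      simpa [swp] using h'
    · exact posAt_box (by linarith) (by linarith)

theorem hsc_pos (z v : C2) (hv : v ≠ 0) : 0 < hsc GG z v := by
  have h1 := posAt_all z v hv
  have h2 : 0 < (∑ i, ∑ j, GG z i j * v i * conj (v j)).re := by
    have hne : (fun i => conj (v i)) ≠ (0 : C2) := by
      intro h
      apply hv
      ext i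
      have := congrFun h i
      simpa using this
    have h3 := (posDef_GG z).dotProduct_mulVec_pos hne
    have e : star (fun i => conj (v i)) ⬝ᵥ ((GG z).mulVec fun i => conj (v i)) =
        ∑ i, ∑ j, GG z i j * v i * conj (v j) := by
      simp only [Matrix.mulVec, dotProduct, Fin.sum_univ_two, Pi.star_apply, RCLike.star_def,
        Complex.conj_conj]
      ring
    rw [e] at h3
    exact (Complex.lt_def.1 h3).1
  exact div_pos h1 (pow_pos h2 2)

end Pool.Agent.LibH27.HSC
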