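import Pool.Agent.Lib_helper27.HSC.Charts
import Pool.Agent.Lib_helper27.HSC.AllPos

/-!
# The complex structure and the Kähler metric on the surface `x y z = 1`
-/

namespace Pool.Agent.LibH27.HSC

open scoped Topology Manifold ContDiff ComplexConjugate ComplexOrder
open Filter Set

theorem contDiffOn_trn {n : ℕ} (hn : n < 6) : ContDiffOn ℂ ω (trn n) (dom n) := by
  have c0 : ∀ s, ContDiffOn ℂ ω (fun w : C2 => w 0) s := fun s =>
    (contDiff_apply ℂ ℂ (0 : Fin 2)).contDiffOn
  have c1 : ∀ s, ContDiffOn ℂ ω (fun w : C2 => w 1) s := fun s =>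
    (contDiff_apply ℂ ℂ (1 : Fin 2)).contDiffOn
  interval_cases n
  · exact contDiffOn_id
  · refine contDiffOn_pi.2 fun i => ?_
    fin_cases i
    · exact (c1 _).inv fun x hx => hx
    · exact (c0 _).mul (c1 _)
  · refine contDiffOn_pi.2 fun i => ?_
    fin_cases i
    · exact ((c0 _).mul (c1 _)).inv fun x hx => hx
    · exact c0 _
  · refine contDiffOn_pi.2 fun i => ?_
    fin_cases i
    · exact (c0 _).inv fun x hx => hx.1
    · exact (c1 _).inv fun x hx => hx.2
  · refine contDiffOn_pi.2 fun i => ?_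
    fin_cases i
    · exact c1 _
    · exact ((c0 _).mul (c1 _)).inv fun x hx => hx
  · refine contDiffOn_pi.2 fun i => ?_
    fin_cases i
    · exact (c0 _).mul (c1 _)
    · exact (c0 _).inv fun x hx => hx

instance : IsManifold 𝓘(ℂ, C2) ω DP6 := by
  refine isManifold_of_contDiffOn 𝓘(ℂ, C2) ω DP6 ?_
  rintro e e' ⟨j, rfl⟩ ⟨k, rfl⟩
  obtain ⟨n, hn, h1, h2, -⟩ := transition j k
  have h3 := contDiffOn_trn hn
  rw [← h2] at h3
  refine (h3.congr fun w _ => h1 w).mono ?_
  intro w hw
  exact hw.1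

end Pool.Agent.LibH27.HSC
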