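import Pool.Agent.Lib_helper27.HSC.P1Mfd
import Pool.Agent.Lib_helper27.HSC.Mfd

/-!
# The surface `x y z = 1` is the blow-up of `ℙ¹ × ℙ¹` at `(0, ∞)` and `(∞, 0)`
-/

namespace Pool.Agent.LibH27.HSC

open scoped Topology Manifold ContDiff
open Filter Set

attribute [-instance] TopCat.of.chartedSpace

/-- The chart `(x, y) ↦ (c y, c' x)` of `ℙ¹ × ℙ¹`. -/
noncomputable def pswap (c c' : OpenPartialHomeomorph P1 ℂ) :
    OpenPartialHomeomorph (P1 × P1) C2 :=
  (Homeomorph.prodComm P1 P1).toOpenPartialHomeomorph ≫ₕ pchart c c'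

theorem pswap_apply (c c' : OpenPartialHomeomorph P1 ℂ) (p : P1 × P1) :
    pswap c c' p = ![c p.2, c' p.1] := rfl

theorem pswap_symm_apply (c c' : OpenPartialHomeomorph P1 ℂ) (w : C2) :
    (pswap c c').symm w = (c'.symm (w 1), c.symm (w 0)) := rfl

theorem mem_pswap_source (c c' : OpenPartialHomeomorph P1 ℂ) (p : P1 × P1) :
    p ∈ (pswap c c').source ↔ p.2 ∈ c.source ∧ p.1 ∈ c'.source := by
  simp [pswap, mem_pchart_source]

theorem pswap_target {c c' : OpenPartialHomeomorph P1 ℂ} (h : c.target = univ)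
    (h' : c'.target = univ) : (pswap c c').target = univ := by
  ext w
  simp [pswap, pchart_target h h']

theorem isHolChart_pswap {c c' : OpenPartialHomeomorph P1 ℂ}
    (h : c ∈ IsManifold.maximalAtlas 𝓘(ℂ) ω P1) (h' : c' ∈ IsManifold.maximalAtlas 𝓘(ℂ) ω P1) :
    IsHolChart (𝓘(ℂ).prod 𝓘(ℂ)) (pswap c c') := by
  obtain ⟨h1, h2⟩ := isHolChart_pchart h h'
  constructor
  · refine ContMDiffOn.comp (f := (Prod.swap : P1 × P1 → P1 × P1)) h1 ?_ ?_
    · exact (contMDiff_snd.prodMk contMDiff_fst).contMDiffOn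
    · intro p hp
      exact (mem_pchart_source c c' _).2 ((mem_pswap_source c c' p).1 hp)
  · have h3 : ContMDiffOn (𝓘(ℂ).prod 𝓘(ℂ)) (𝓘(ℂ).prod 𝓘(ℂ)) ω
        (Prod.swap : P1 × P1 → P1 × P1) univ :=
      (contMDiff_snd.prodMk contMDiff_fst).contMDiffOn
    refine ContMDiffOn.comp (g := (Prod.swap : P1 × P1 → P1 × P1)) h3 (h2.mono ?_) ?_
    · intro w hw
      simpa [pswap] using hw
    · exact fun _ _ => mem_univ _

theorem isHolChart_chartk (k : ℤ) : IsHolChart 𝓘(ℂ, C2) (chartk k) := by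
  have h : chartk k ∈ IsManifold.maximalAtlas 𝓘(ℂ, C2) ω DP6 :=
    IsManifold.subset_maximalAtlas (mem_range_self k)
  exact ⟨contMDiffOn_of_mem_maximalAtlas h, contMDiffOn_symm_of_mem_maximalAtlas h⟩

/-- The projection `(x, y, z) ↦ (x, y)` of the surface `x y z = 1` to `ℙ¹ × ℙ¹`. -/
def proj (q : DP6) : P1 × P1 := (q.1.1, q.1.2.1)

theorem num_eq_zero {x : P1} (h : num x = 0) : x = ((0 : ℂ) : P1) := by
  induction x using OnePoint.rec with
  | infty => exact absurd h one_ne_zero
  | coe z => rw [num_coe] at h; rw [h]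

theorem den_eq_zero {x : P1} (h : den x = 0) : x = OnePoint.infty := by
  induction x using OnePoint.rec with
  | infty => rfl
  | coe z => exact absurd h one_ne_zero

theorem rel_infty {x y z : P1} (h : num x * num y * num z = den x * den y * den z)
    (hx : x = OnePoint.infty) : y = ((0 : ℂ) : P1) ∨ z = ((0 : ℂ) : P1) := by
  subst hx
  simp only [num_infty, den_infty, one_mul, zero_mul, mul_eq_zero] at h
  exact h.imp num_eq_zero num_eq_zero

theorem rel_zero {x y z : P1} (h : num x * num y * num z = den x * den y * den z)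
    (hx : x = ((0 : ℂ) : P1)) : y = OnePoint.infty ∨ z = OnePoint.infty := by
  subst hx
  simp only [num_coe, den_coe, one_mul, zero_mul] at h
  exact (mul_eq_zero.1 h.symm).imp den_eq_zero den_eq_zero

theorem rot_zpow_neg {k m : ℕ} (h : k + m = 6) : rot ^ (-(k : ℤ)) = rot ^ m := by
  have h6 : rot ^ k * rot ^ m = 1 := by rw [← pow_add, h, rot_pow_six]
  rw [zpow_neg, zpow_natCast]
  exact inv_eq_of_mul_eq_one_right h6

theorem source0 (q : DP6) : q ∈ (chartk 0).source ↔ q.1.1 ≠ OnePoint.infty ∧ q.1.2.1 ≠ OnePoint.infty := by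
  rw [mem_chartk_source, mem_chart0_source]
  rfl

theorem source1 (q : DP6) : q ∈ (chartk 1).source ↔
    q.1.2.2 ≠ ((0 : ℂ) : P1) ∧ q.1.1 ≠ ((0 : ℂ) : P1) := by
  rw [mem_chartk_source, show (1 : ℤ) = ((1 : ℕ) : ℤ) from rfl,
    rot_zpow_neg (show 1 + 5 = 6 from rfl), mem_chart0_source, rot5_apply]
  simp only [inv1_ne_infty]

theorem source2 (q : DP6) : q ∈ (chartk 2).source ↔ q.1.2.1 ≠ OnePoint.infty ∧ q.1.2.2 ≠ OnePoint.infty := by
  rw [mem_chartk_source, show (2 : ℤ) = ((2 : ℕ) : ℤ) from rfl,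
    rot_zpow_neg (show 2 + 4 = 6 from rfl), mem_chart0_source, rot4_apply]

theorem source3 (q : DP6) : q ∈ (chartk 3).source ↔
    q.1.1 ≠ ((0 : ℂ) : P1) ∧ q.1.2.1 ≠ ((0 : ℂ) : P1) := by
  rw [mem_chartk_source, show (3 : ℤ) = ((3 : ℕ) : ℤ) from rfl,
    rot_zpow_neg (show 3 + 3 = 6 from rfl), mem_chart0_source, rot3_apply]
  simp only [inv1_ne_infty]

theorem source4 (q : DP6) : q ∈ (chartk 4).source ↔ q.1.2.2 ≠ OnePoint.infty ∧ q.1.1 ≠ OnePoint.infty := by
  rw [mem_chartk_source, show (4 : ℤ) = ((4 : ℕ) : ℤ) from rfl,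
    rot_zpow_neg (show 4 + 2 = 6 from rfl), mem_chart0_source, rot2_apply]

theorem source5 (q : DP6) : q ∈ (chartk 5).source ↔
    q.1.2.1 ≠ ((0 : ℂ) : P1) ∧ q.1.2.2 ≠ ((0 : ℂ) : P1) := by
  rw [mem_chartk_source, show (5 : ℤ) = ((5 : ℕ) : ℤ) from rfl,
    rot_zpow_neg (show 5 + 1 = 6 from rfl), mem_chart0_source, pow_one, rot_apply]
  simp only [inv1_ne_infty]

theorem symm0 (w : C2) : proj ((chartk 0).symm w) = ((w 0 : P1), (w 1 : P1)) := by
  rw [chartk_symm_apply]
  rfl

theorem symm1 (w : C2) :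
    proj ((chartk 1).symm w) = (inv1 (w 1 : P1), ((w 0 * w 1 : ℂ) : P1)) := by
  rw [chartk_symm_apply, zpow_one, proj, rot_apply, par0_coord, inv1_inv1]

theorem symm2 (w : C2) :
    proj ((chartk 2).symm w) = (inv1 ((w 0 * w 1 : ℂ) : P1), (w 0 : P1)) := by
  rw [chartk_symm_apply, show (2 : ℤ) = ((2 : ℕ) : ℤ) from rfl, zpow_natCast, proj, rot2_apply,
    par0_coord]

theorem symm3 (w : C2) :
    proj ((chartk 3).symm w) = (inv1 (w 0 : P1), inv1 (w 1 : P1)) := by
  rw [chartk_symm_apply, show (3 : ℤ) = ((3 : ℕ) : ℤ) from rfl, zpow_natCast, proj, rot3_apply,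
    par0_coord]

theorem symm4 (w : C2) :
    proj ((chartk 4).symm w) = ((w 1 : P1), inv1 ((w 0 * w 1 : ℂ) : P1)) := by
  rw [chartk_symm_apply, show (4 : ℤ) = ((4 : ℕ) : ℤ) from rfl, zpow_natCast, proj, rot4_apply,
    par0_coord]

theorem symm5 (w : C2) :
    proj ((chartk 5).symm w) = (((w 0 * w 1 : ℂ) : P1), inv1 (w 0 : P1)) := by
  rw [chartk_symm_apply, show (5 : ℤ) = ((5 : ℕ) : ℤ) from rfl, zpow_natCast, proj, rot5_apply,
    par0_coord, inv1_inv1]

theorem cfin_target : cfin.target = univ := rfl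

theorem cfin_apply (x : P1) : cfin x = fin x := rfl

/-- The change of charts from `chartk (k + 1)` to `chartk k`. -/
theorem overlap {j k : ℤ} (h : j = k + 1) (w : C2) :
    ((chartk j).symm w ∈ (chartk k).source ↔ w 1 ≠ 0) ∧
      chartk k ((chartk j).symm w) = ![(w 1)⁻¹, w 0 * w 1] := by
  have hjk : (rot ^ (-k)) ((rot ^ j) (par0 w)) = (rot ^ 1) (par0 w) := by
    have h1 : rot ^ (1 : ℕ) = rot ^ (-k) * rot ^ j := by
      rw [← zpow_add, h, show -k + (k + 1) = ((1 : ℕ) : ℤ) by push_cast; ring, zpow_natCast]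
    rw [h1]
    rfl
  constructor
  · rw [mem_chartk_source, chartk_symm_apply, hjk, mem_dom (by norm_num)]
    exact Iff.rfl
  · rw [chartk_apply, chartk_symm_apply, hjk, chart0_rot_par0 (by norm_num)]
    rfl

/-- The surface `x y z = 1` is the blow-up of `ℙ¹ × ℙ¹` at `(0, ∞)` and `(∞, 0)`. -/
theorem isBlowUp_proj : IsBlowUp (𝓘(ℂ).prod 𝓘(ℂ)) proj
    {(((0 : ℂ) : P1), (OnePoint.infty : P1)), ((OnePoint.infty : P1), ((0 : ℂ) : P1))} := by
  constructor
  · intro p hp
    rcases hp with rfl | rfl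
    · refine ⟨pswap cinf cfin, chartk 5, chartk 4, isHolChart_pswap cinf_mem cfin_mem,
        isHolChart_chartk 5, isHolChart_chartk 4, ?_, ?_, ?_, ?_, ?_, ?_, ?_, ?_, ?_⟩
      · rw [mem_pswap_source, mem_cinf_source, mem_cfin_source]
        exact ⟨OnePoint.infty_ne_coe _, OnePoint.coe_ne_infty _⟩
      · rw [pswap_apply, cinf_apply, cfin_apply, inv1_infty, fin_coe]
        ext i; fin_cases i <;> rfl
      · ext q
        rw [mem_union, source5, source4, mem_preimage, mem_pswap_source, mem_cinf_source,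
          mem_cfin_source]
        change _ ↔ q.1.2.1 ≠ _ ∧ q.1.1 ≠ _
        have r1 := rel_infty q.2
        have r2 := rel_zero (x := q.1.2.1) (y := q.1.1) (z := q.1.2.2)
          (by linear_combination q.2)
        have r3 : q.1.2.2 = ((0 : ℂ) : P1) → q.1.2.2 ≠ OnePoint.infty := fun h => by
          rw [h]; exact OnePoint.coe_ne_infty _
        tauto
      · rw [chartk_target, pswap_target cinf_target cfin_target]
        ext w; simp
      · rw [chartk_target, pswap_target cinf_target cfin_target]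
        ext w; simp
      · intro w _
        rw [symm5, pswap_apply, cinf_apply, cfin_apply, inv1_inv1, fin_coe, fin_coe]
      · intro w _
        rw [symm4, pswap_apply, cinf_apply, cfin_apply, inv1_inv1, fin_coe, fin_coe]
      · exact fun w _ => (overlap (by norm_num) w).1
      · exact fun w _ _ => (overlap (by norm_num) w).2
    · refine ⟨pswap cfin cinf, chartk 2, chartk 1, isHolChart_pswap cfin_mem cinf_mem,
        isHolChart_chartk 2, isHolChart_chartk 1, ?_, ?_, ?_, ?_, ?_, ?_, ?_, ?_, ?_⟩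
      · rw [mem_pswap_source, mem_cinf_source, mem_cfin_source]
        exact ⟨OnePoint.coe_ne_infty _, OnePoint.infty_ne_coe _⟩
      · rw [pswap_apply, cinf_apply, cfin_apply, inv1_infty, fin_coe]
        ext i; fin_cases i <;> rfl
      · ext q
        rw [mem_union, source2, source1, mem_preimage, mem_pswap_source, mem_cinf_source,
          mem_cfin_source]
        change _ ↔ q.1.2.1 ≠ _ ∧ q.1.1 ≠ _
        have r1 := rel_zero q.2
        have r2 := rel_infty (x := q.1.2.1) (y := q.1.1) (z := q.1.2.2)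
          (by linear_combination q.2)
        have r3 : q.1.2.2 = OnePoint.infty → q.1.2.2 ≠ ((0 : ℂ) : P1) := fun h => by
          rw [h]; exact OnePoint.infty_ne_coe _
        tauto
      · rw [chartk_target, pswap_target cfin_target cinf_target]
        ext w; simp
      · rw [chartk_target, pswap_target cfin_target cinf_target]
        ext w; simp
      · intro w _
        rw [symm2, pswap_apply, cinf_apply, cfin_apply, inv1_inv1, fin_coe, fin_coe]
      · intro w _
        rw [symm1, pswap_apply, cinf_apply, cfin_apply, inv1_inv1, fin_coe, fin_coe]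
      · exact fun w _ => (overlap (by norm_num) w).1
      · exact fun w _ _ => (overlap (by norm_num) w).2
  · rintro ⟨x, y⟩ hy
    by_cases h : x ≠ OnePoint.infty ∧ y ≠ OnePoint.infty
    · refine ⟨pchart cfin cfin, chartk 0, isHolChart_pchart cfin_mem cfin_mem,
        isHolChart_chartk 0, ?_, ?_, ?_, ?_⟩
      · rw [mem_pchart_source]; exact h
      · ext q
        rw [source0, mem_preimage, mem_pchart_source]
        rfl
      · rw [chartk_target, pchart_target cfin_target cfin_target]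
      · intro w _
        rw [symm0, pchart_apply, cfin_apply, cfin_apply, fin_coe, fin_coe]
        ext i; fin_cases i <;> rfl
    · refine ⟨pchart cinf cinf, chartk 3, isHolChart_pchart cinf_mem cinf_mem,
        isHolChart_chartk 3, ?_, ?_, ?_, ?_⟩
      · rw [mem_pchart_source, mem_cinf_source, mem_cinf_source]
        have h1 : x = OnePoint.infty ∨ y = OnePoint.infty := by tauto
        rcases h1 with rfl | rfl
        · refine ⟨OnePoint.infty_ne_coe _, ?_⟩
          rintro h2
          exact hy (Or.inr (Prod.ext rfl h2))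
        · refine ⟨?_, OnePoint.infty_ne_coe _⟩
          rintro h2
          exact hy (Or.inl (Prod.ext h2 rfl))
      · ext q
        rw [source3, mem_preimage, mem_pchart_source, mem_cinf_source, mem_cinf_source]
        rfl
      · rw [chartk_target, pchart_target cinf_target cinf_target]
      · intro w _
        rw [symm3, pchart_apply, cinf_apply, cinf_apply, inv1_inv1, inv1_inv1, fin_coe, fin_coe]
        ext i; fin_cases i <;> rfl

end Pool.Agent.LibH27.HSC
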