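import Pool.Agent.Lib_helper27.HSC.Cert

/-!
# Positivity of the curvature form on the box `[0, 3/2)²`
-/

namespace Pool.Agent.LibH27.HSC

theorem isZero1_ev {l : List ℤ} (h : isZero1 l = true) (y : ℝ) : ev1 y l = 0 := by
  induction l with
  | nil => rfl
  | cons a l ih =>
    simp only [isZero1, Bool.and_eq_true, beq_iff_eq] at h
    rw [ev1, ih h.2, h.1]; simp

theorem isZero2_ev {l : List (List ℤ)} (h : isZero2 l = true) (x y : ℝ) : ev2 x y l = 0 := by
  induction l with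
  | nil => rfl
  | cons a l ih =>
    simp only [isZero2, Bool.and_eq_true] at h
    rw [ev2, ih h.2, isZero1_ev h.1]; simp

theorem ev2_pX (x y : ℝ) : ev2 x y pX = x := by simp [pX, ev2, ev1]

theorem ev2_pY (x y : ℝ) : ev2 x y pY = y := by simp [pY, ev2, ev1]

theorem ev_of_chk {A B : List (List ℤ)} (h : isZero2 (add2 A (smul2 (-1) B)) = true) (x y : ℝ) :
    ev2 x y B = ev2 x y A := by
  have := isZero2_ev h x y
  rw [ev2_add2, ev2_smul2] at this
  push_cast at this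
  linarith

/-- The multiplier is nonnegative. -/
theorem pmu_nonneg {x y : ℝ} (hx : 0 ≤ x) (hy : 0 ≤ y) : 0 ≤ ev2 x y pmu := by
  simp only [pmu, ev2, ev1]
  push_cast
  positivity

theorem E_pos {x y : ℝ} (hx : 0 ≤ x) (hx' : x < 3 / 2) (hy : 0 ≤ y) (hy' : y < 3 / 2) {p q m : ℝ}
    (h0 : ¬(p = 0 ∧ q = 0 ∧ m = 0)) :
    0 < qf (ev2 x y E11) (ev2 x y E12) (ev2 x y E13) (ev2 x y E22) (ev2 x y E23)
      (ev2 x y E33) p q m := by
  have key : ∀ {a b d a' b' d' : ℤ}, 0 < d → 0 < d' →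
      boxChk a b d a' b' d' E11 E12 E13 E22 E23 E33 = true →
      (TT a b d a' b' d' E11).isEmpty = false → ∀ {s t : ℝ}, 0 ≤ s → 0 ≤ t →
      x * (d * (1 + s)) = a + b * s → y * (d' * (1 + t)) = a' + b' * t →
      0 < qf (ev2 x y E11) (ev2 x y E12) (ev2 x y E13) (ev2 x y E22) (ev2 x y E23)
      (ev2 x y E33) p q m := by
    intro a b d a' b' d' hd hd' hb hne s t hs ht hx hy
    exact boxChk_pos hd hd' hb E11_shape E12_shape E13_shape E22_shape E23_shape E33_shape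
      (by intro h; rw [h] at hne; exact absurd hne (by decide)) hs ht hx hy h0
  -- the two possible parametrisations
  have low : ∀ u : ℝ, 0 ≤ u → u < 1 / 2 → ∃ s : ℝ, 0 ≤ s ∧ u * (((2 : ℤ) : ℝ) * (1 + s)) =
      ((0 : ℤ) : ℝ) + ((1 : ℤ) : ℝ) * s := by
    intro u h1 h2
    have h3 : (1 - 2 * u) ≠ 0 := by linarith
    refine ⟨2 * u / (1 - 2 * u), div_nonneg (by linarith) (by linarith), ?_⟩
    have e := div_mul_cancel₀ (2 * u) h3
    push_cast
    linear_combination -e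
  have high : ∀ u : ℝ, 1 / 2 ≤ u → u < 3 / 2 → ∃ s : ℝ, 0 ≤ s ∧ u * (((2 : ℤ) : ℝ) * (1 + s)) =
      ((1 : ℤ) : ℝ) + ((3 : ℤ) : ℝ) * s := by
    intro u h1 h2
    have h3 : (3 - 2 * u) ≠ 0 := by linarith
    refine ⟨(2 * u - 1) / (3 - 2 * u), div_nonneg (by linarith) (by linarith), ?_⟩
    have e := div_mul_cancel₀ (2 * u - 1) h3
    push_cast
    linear_combination -e
  rcases lt_or_ge x (1 / 2) with hx2 | hx2
  · obtain ⟨s, hs, hs'⟩ := low x hx hx2
    rcases lt_or_ge y (1 / 2) with hy2 | hy2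
    · obtain ⟨t, ht, ht'⟩ := low y hy hy2
      exact key (by norm_num) (by norm_num) boxA boxA_ne hs ht hs' ht'
    · obtain ⟨t, ht, ht'⟩ := high y hy2 hy'
      exact key (by norm_num) (by norm_num) boxC boxC_ne hs ht hs' ht'
  · obtain ⟨s, hs, hs'⟩ := high x hx2 hx'
    rcases lt_or_ge y (1 / 2) with hy2 | hy2
    · obtain ⟨t, ht, ht'⟩ := low y hy hy2
      exact key (by norm_num) (by norm_num) boxB boxB_ne hs ht hs' ht'
    · obtain ⟨t, ht, ht'⟩ := high y hy2 hy'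
      exact key (by norm_num) (by norm_num) boxD boxD_ne hs ht hs' ht'

/-- The curvature form. -/
noncomputable def Fform (x y p q m : ℝ) : ℝ :=
  ev2 x y Na * p ^ 2 + (ev2 x y Nb - 2 * x * y * ev2 x y Nf) * (p * q) + ev2 x y Nc * q ^ 2 +
    2 * m * (ev2 x y Nd * p + ev2 x y Ne * q) + 4 * ev2 x y Nf * m ^ 2

theorem Fform_pos {x y : ℝ} (hx : 0 ≤ x) (hx' : x < 3 / 2) (hy : 0 ≤ y) (hy' : y < 3 / 2)
    {p q m : ℝ} (hm : m ^ 2 ≤ x * y * (p * q))
    (h0 : ¬(p = 0 ∧ q = 0)) : 0 < Fform x y p q m := by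
  have h := E_pos hx hx' hy hy' (p := p) (q := q) (m := m) (by tauto)
  have e11 := ev_of_chk E11_chk x y
  have e12 := ev_of_chk E12_chk x y
  have e13 := ev_of_chk E13_chk x y
  have e22 := ev_of_chk E22_chk x y
  have e23 := ev_of_chk E23_chk x y
  have e33 := ev_of_chk E33_chk x y
  simp only [ev2_add2, ev2_smul2, ev2_mul2, ev2_pX, ev2_pY, ev_of_chk Na_chk x y,
    ev_of_chk Nb_chk x y, ev_of_chk Nc_chk x y, ev_of_chk Nd_chk x y, ev_of_chk Ne_chk x y,
    ev_of_chk Nf_chk x y] at e11 e12 e13 e22 e23 e33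
  have hmu := mul_nonneg (pmu_nonneg hx hy) (sub_nonneg.2 hm)
  have e : 2 * Fform x y p q m = qf (ev2 x y E11) (ev2 x y E12) (ev2 x y E13) (ev2 x y E22)
      (ev2 x y E23) (ev2 x y E33) p q m +
      2 * (ev2 x y pmu * (x * y * (p * q) - m ^ 2)) := by
    rw [e11, e12, e13, e22, e23, e33]
    simp only [Fform, qf]
    push_cast
    ring
  linarith

end Pool.Agent.LibH27.HSC
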