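import Pool.Agent.Lib_helper27.HSC.Surface

/-!
# The surface `x y z = 1` is a compact complex surface
-/

namespace Pool.Agent.LibH27.HSC

open scoped Topology Manifold
open OnePoint Filter Set

theorem rot_apply (p : DP6) : (rot p).1 = (inv1 p.1.2.1, inv1 p.1.2.2, inv1 p.1.1) := rfl

theorem rot2_apply (p : DP6) : ((rot ^ 2) p).1 = (p.1.2.2, p.1.1, p.1.2.1) := by
  change (rot (rot p)).1 = _
  rw [rot_apply, rot_apply]
  simp only [inv1_inv1]

theorem rot3_apply (p : DP6) : ((rot ^ 3) p).1 = (inv1 p.1.1, inv1 p.1.2.1, inv1 p.1.2.2) := by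
  change ((rot ^ 2) (rot p)).1 = _
  rw [rot2_apply, rot_apply]

theorem rot4_apply (p : DP6) : ((rot ^ 4) p).1 = (p.1.2.1, p.1.2.2, p.1.1) := by
  change ((rot ^ 2) ((rot ^ 2) p)).1 = _
  rw [rot2_apply, rot2_apply]

theorem rot5_apply (p : DP6) : ((rot ^ 5) p).1 = (inv1 p.1.2.2, inv1 p.1.1, inv1 p.1.2.1) := by
  change ((rot ^ 2) ((rot ^ 3) p)).1 = _
  rw [rot2_apply, rot3_apply]

theorem rot6_apply (p : DP6) : ((rot ^ 6) p).1 = p.1 := by
  have h : (rot ^ 6) p = (rot ^ 2) ((rot ^ 4) p) := by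
    rw [show (6 : ℕ) = 2 + 4 from rfl, pow_add]; rfl
  rw [h, rot2_apply, rot4_apply]

theorem rot_pow_six : rot ^ 6 = 1 := by
  ext p
  exact Subtype.ext (rot6_apply p)

theorem rot_zpow (m : ℤ) : ∃ n : ℕ, n < 6 ∧ rot ^ m = rot ^ n := by
  refine ⟨(m % 6).toNat, by omega, ?_⟩
  have h1 : m = 6 * (m / 6) + ((m % 6).toNat : ℤ) := by omega
  conv_lhs => rw [h1, zpow_add, zpow_mul]
  have h6 : rot ^ (6 : ℤ) = 1 := rot_pow_six
  rw [h6, one_zpow, one_mul, zpow_natCast]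

/-- The changes of charts. -/
noncomputable def trn : ℕ → C2 → C2
  | 0, w => w
  | 1, w => ![(w 1)⁻¹, w 0 * w 1]
  | 2, w => ![(w 0 * w 1)⁻¹, w 0]
  | 3, w => ![(w 0)⁻¹, (w 1)⁻¹]
  | 4, w => ![w 1, (w 0 * w 1)⁻¹]
  | _, w => ![w 0 * w 1, (w 0)⁻¹]

/-- The domains of the changes of charts. -/
def dom : ℕ → Set C2
  | 0 => univ
  | 1 => {w | w 1 ≠ 0}
  | 2 => {w | w 0 * w 1 ≠ 0}
  | 3 => {w | w 0 ≠ 0 ∧ w 1 ≠ 0}
  | 4 => {w | w 0 * w 1 ≠ 0}
  | _ => {w | w 0 ≠ 0}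

theorem chart0_apply (p : DP6) : chart0 p = ![fin p.1.1, fin p.1.2.1] := rfl

theorem mem_chart0_source (p : DP6) : p ∈ chart0.source ↔ p.1.1 ≠ ∞ ∧ p.1.2.1 ≠ ∞ := Iff.rfl

theorem par0_coord (w : C2) :
    (par0 w).1 = ((w 0 : P1), (w 1 : P1), inv1 ((w 0 * w 1 : ℂ) : P1)) := rfl

theorem chart0_rot_par0 {n : ℕ} (hn : n < 6) (w : C2) :
    chart0 ((rot ^ n) (par0 w)) = trn n w := by
  rw [chart0_apply]
  interval_cases n
  · change ![fin (par0 w).1.1, fin (par0 w).1.2.1] = w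
    ext i; fin_cases i <;> simp [par0_coord]
  · rw [pow_one, rot_apply, par0_coord]
    simp only [fin_inv1, fin_coe, inv_inv, trn]
  · rw [rot2_apply, par0_coord]
    simp only [fin_inv1, fin_coe, trn]
  · rw [rot3_apply, par0_coord]
    simp only [fin_inv1, fin_coe, trn]
  · rw [rot4_apply, par0_coord]
    simp only [fin_inv1, fin_coe, trn]
  · rw [rot5_apply, par0_coord]
    simp only [fin_inv1, fin_coe, inv_inv, trn]

theorem mem_dom {n : ℕ} (hn : n < 6) (w : C2) :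
    (rot ^ n) (par0 w) ∈ chart0.source ↔ w ∈ dom n := by
  rw [mem_chart0_source]
  have hc : ∀ z : ℂ, ((z : P1) ≠ ∞) := OnePoint.coe_ne_infty
  interval_cases n
  · change ((par0 w).1.1 ≠ ∞ ∧ (par0 w).1.2.1 ≠ ∞) ↔ w ∈ univ
    simp [par0_coord]
  · rw [pow_one, rot_apply, par0_coord]
    simp only [inv1_ne_infty, inv1_inv1, coe_ne_zero_iff, dom, mem_ofPred_eq]
    simp
  · rw [rot2_apply, par0_coord]
    simp only [inv1_ne_infty, hc, coe_ne_zero_iff, dom, mem_ofPred_eq, ne_eq, not_false_eq_true,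
      and_true]
  · rw [rot3_apply, par0_coord]
    simp only [inv1_ne_infty, coe_ne_zero_iff, dom, mem_ofPred_eq]
  · rw [rot4_apply, par0_coord]
    simp only [inv1_ne_infty, coe_ne_zero_iff, dom, mem_ofPred_eq]
    simp
  · rw [rot5_apply, par0_coord]
    simp only [inv1_inv1, inv1_ne_infty, coe_ne_zero_iff, dom, mem_ofPred_eq]
    simp

theorem transition (j k : ℤ) : ∃ n : ℕ, n < 6 ∧
    (∀ w, ((chartk j).symm ≫ₕ chartk k) w = trn n w) ∧
    ((chartk j).symm ≫ₕ chartk k).source = dom n ∧ rot ^ (j - k) = rot ^ n := by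
  obtain ⟨n, hn, h⟩ := rot_zpow (j - k)
  have hjk : ∀ w, (rot ^ (-k)) ((rot ^ j) (par0 w)) = (rot ^ n) (par0 w) := by
    intro w
    rw [← h, sub_eq_add_neg, add_comm, zpow_add]
    rfl
  refine ⟨n, hn, fun w => ?_, ?_, h⟩
  · rw [OpenPartialHomeomorph.coe_trans, Function.comp_apply, chartk_symm_apply, chartk_apply,
      hjk, chart0_rot_par0 hn]
  · ext w
    rw [OpenPartialHomeomorph.trans_source, OpenPartialHomeomorph.symm_source, chartk_target,
      univ_inter, mem_preimage, mem_chartk_source, chartk_symm_apply, hjk, mem_dom hn]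

/-- A point of `ℙ¹` or its inverse is in the closed unit disc. -/
theorem disc_or (x : P1) : (∃ z : ℂ, ‖z‖ ≤ 1 ∧ x = z) ∨ ∃ z : ℂ, ‖z‖ ≤ 1 ∧ inv1 x = z := by
  induction x using OnePoint.rec with
  | infty => exact Or.inr ⟨0, by simp, rfl⟩
  | coe z =>
    by_cases h : ‖z‖ ≤ 1
    · exact Or.inl ⟨z, h, rfl⟩
    · push Not at h
      have hz : z ≠ 0 := by rintro rfl; simp at h; linarith
      refine Or.inr ⟨z⁻¹, ?_, inv1_coe hz⟩
      rw [norm_inv]
      exact inv_le_one_of_one_le₀ h.le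

theorem of_disc {q : DP6} (h1 : ∃ z : ℂ, ‖z‖ ≤ 1 ∧ q.1.1 = z)
    (h2 : ∃ z : ℂ, ‖z‖ ≤ 1 ∧ q.1.2.1 = z) :
    ∃ w : C2, w ∈ Metric.closedBall (0 : C2) 1 ∧ par0 w = q := by
  obtain ⟨x, hx, h1⟩ := h1
  obtain ⟨y, hy, h2⟩ := h2
  refine ⟨![fin q.1.1, fin q.1.2.1], ?_, par0_fin ?_ ?_⟩
  · rw [mem_closedBall_zero_iff, pi_norm_le_iff_of_nonneg zero_le_one]
    intro i
    fin_cases i
    · simpa [h1] using hx
    · simpa [h2] using hy
  · rw [h1]; exact OnePoint.coe_ne_infty _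
  · rw [h2]; exact OnePoint.coe_ne_infty _

theorem cover (p : DP6) : ∃ n : ℕ, n < 6 ∧ ∃ w : C2, w ∈ Metric.closedBall (0 : C2) 1 ∧
    par0 w = (rot ^ n) p := by
  rcases disc_or p.1.1 with hx | hx <;> rcases disc_or p.1.2.1 with hy | hy <;>
    rcases disc_or p.1.2.2 with hz | hz
  · exact ⟨0, by norm_num, of_disc hx hy⟩
  · exact ⟨0, by norm_num, of_disc hx hy⟩
  · exact ⟨2, by norm_num, of_disc (by rw [rot2_apply]; exact hz) (by rw [rot2_apply]; exact hx)⟩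
  · exact ⟨1, by norm_num, of_disc (by rw [pow_one, rot_apply]; exact hy)
      (by rw [pow_one, rot_apply]; exact hz)⟩
  · exact ⟨4, by norm_num, of_disc (by rw [rot4_apply]; exact hy) (by rw [rot4_apply]; exact hz)⟩
  · exact ⟨5, by norm_num, of_disc (by rw [rot5_apply]; exact hz) (by rw [rot5_apply]; exact hx)⟩
  · exact ⟨3, by norm_num, of_disc (by rw [rot3_apply]; exact hx) (by rw [rot3_apply]; exact hy)⟩
  · exact ⟨3, by norm_num, of_disc (by rw [rot3_apply]; exact hx) (by rw [rot3_apply]; exact hy)⟩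

theorem exists_chart (p : DP6) : ∃ k : ℤ, p ∈ (chartk k).source := by
  obtain ⟨n, -, w, -, hw⟩ := cover p
  refine ⟨-(n : ℤ), ?_⟩
  rw [mem_chartk_source, neg_neg, zpow_natCast, ← hw]
  exact ⟨OnePoint.coe_ne_infty _, OnePoint.coe_ne_infty _⟩

noncomputable instance : ChartedSpace C2 DP6 where
  atlas := range chartk
  chartAt p := chartk (exists_chart p).choose
  mem_chart_source p := (exists_chart p).choose_spec
  chart_mem_atlas _ := mem_range_self _

theorem atlas_eq : atlas C2 DP6 = range chartk := rfl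

instance : CompactSpace DP6 := by
  constructor
  have h : (univ : Set DP6) = ⋃ n ∈ Finset.range 6,
      (fun w => (rot ^ (-(n : ℤ))) (par0 w)) '' Metric.closedBall (0 : C2) 1 := by
    ext p
    simp only [mem_univ, Finset.mem_range, mem_iUnion, mem_image, true_iff, exists_prop]
    obtain ⟨n, hn, w, hw, hp⟩ := cover p
    refine ⟨n, hn, w, hw, ?_⟩
    rw [hp, zpow_neg, zpow_natCast]
    exact (rot ^ n).symm_apply_apply p
  rw [h]
  refine (Finset.range 6).isCompact_biUnion fun n _ => ?_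
  exact (isCompact_closedBall 0 1).image ((Homeomorph.continuous _).comp continuous_par0)

end Pool.Agent.LibH27.HSC
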