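import Mathlib

/-!
# Kähler metrics on complex surfaces and their holomorphic sectional curvature

Everything is expressed in the holomorphic charts of a complex surface, with values in
`C2 = ℂ²`.
-/

namespace Pool.Agent.LibH27.HSC

open scoped Manifold ContDiff ComplexConjugate Topology ComplexOrder
open Complex

attribute [-instance] TopCat.of.chartedSpace

/-- The model space `ℂ²` of complex surfaces. -/
abbrev C2 : Type := Fin 2 → ℂ

/-- The Wirtinger derivative `∂f/∂z_k` of a (real differentiable) function on `ℂ²`. -/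
noncomputable def dz (k : Fin 2) (f : C2 → ℂ) (z : C2) : ℂ :=
  (fderiv ℝ f z (Pi.single k 1) - I * fderiv ℝ f z (Pi.single k I)) / 2

/-- The Wirtinger derivative `∂f/∂z̄_k` of a (real differentiable) function on `ℂ²`. -/
noncomputable def dzbar (k : Fin 2) (f : C2 → ℂ) (z : C2) : ℂ :=
  (fderiv ℝ f z (Pi.single k 1) + I * fderiv ℝ f z (Pi.single k I)) / 2

/-- The components `R_{i j̄ k l̄} = - ∂_k ∂_l̄ g_{i j̄} + ∑ g^{q̄ p} ∂_k g_{i q̄} ∂_l̄ g_{p j̄}` of the
Chern curvature tensor of the Hermitian metric with matrix `g = (g_{i j̄})` on (an open subset of)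
`ℂ²`; here `(g^{q̄ p})` is the inverse matrix of `g`. -/
noncomputable def curv (g : C2 → Matrix (Fin 2) (Fin 2) ℂ) (z : C2) (i j k l : Fin 2) : ℂ :=
  -dz k (dzbar l fun w => g w i j) z
    + ∑ p, ∑ q, dz k (fun w => g w i q) z * (g z)⁻¹ q p * dzbar l (fun w => g w p j) z

/-- The holomorphic sectional curvature `H(v) = R(v, v̄, v, v̄) / |v|⁴` at the point `z` in the
direction `v` of the Hermitian metric with matrix `g = (g_{i j̄})`. -/
noncomputable def hsc (g : C2 → Matrix (Fin 2) (Fin 2) ℂ) (z v : C2) : ℝ :=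
  (∑ i, ∑ j, ∑ k, ∑ l, curv g z i j k l * v i * conj (v j) * v k * conj (v l)).re /
    (∑ i, ∑ j, g z i j * v i * conj (v j)).re ^ 2

/-- A Kähler metric on a complex surface `X`, given in the charts of `X`: in each chart `e` a smooth
positive definite Hermitian matrix `(g_{i j̄})`, such that these matrices transform under the
holomorphic changes of charts as a Hermitian metric on the tangent bundle does, and such that the
form `i ∑ g_{i j̄} dz_i ∧ dz̄_j` is closed, i.e. `∂_k g_{i j̄} = ∂_i g_{k j̄}`. -/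
structure KahlerMetric (X : Type*) [TopologicalSpace X] [ChartedSpace C2 X] where
  /-- the matrix `(g_{i j̄})` in a chart, as a function of the coordinates -/
  mat : OpenPartialHomeomorph X C2 → C2 → Matrix (Fin 2) (Fin 2) ℂ
  posDef : ∀ e ∈ atlas C2 X, ∀ z ∈ e.target, (mat e z).PosDef
  smooth : ∀ e ∈ atlas C2 X, ∀ i j, ContDiffOn ℝ ∞ (fun z => mat e z i j) e.target
  compat : ∀ e ∈ atlas C2 X, ∀ e' ∈ atlas C2 X, ∀ z ∈ (e.symm ≫ₕ e').source, ∀ i j,
    mat e z i j = ∑ a, ∑ b, fderiv ℂ (e.symm ≫ₕ e') z (Pi.single i 1) a *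
      mat e' ((e.symm ≫ₕ e') z) a b * conj (fderiv ℂ (e.symm ≫ₕ e') z (Pi.single j 1) b)
  closed : ∀ e ∈ atlas C2 X, ∀ z ∈ e.target, ∀ i j k,
    dz k (fun w => mat e w i j) z = dz i (fun w => mat e w k j) z

/-- The holomorphic sectional curvature of the Kähler metric is positive: at every point (in every
chart of the atlas) and in every direction. -/
def KahlerMetric.HSCPositive {X : Type*} [TopologicalSpace X] [ChartedSpace C2 X]
    (g : KahlerMetric X) : Prop :=
  ∀ e ∈ atlas C2 X, ∀ z ∈ e.target, ∀ v : C2, v ≠ 0 → 0 < hsc (g.mat e) z v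

section BlowUp

/-- `φ` is a holomorphic chart of the complex surface `M`: holomorphic, with holomorphic inverse. -/
def IsHolChart {M H E : Type*} [NormedAddCommGroup E] [NormedSpace ℂ E] [TopologicalSpace H]
    (I : ModelWithCorners ℂ E H) [TopologicalSpace M] [ChartedSpace H M]
    (φ : OpenPartialHomeomorph M C2) : Prop :=
  ContMDiffOn I 𝓘(ℂ, C2) ω φ φ.source ∧ ContMDiffOn 𝓘(ℂ, C2) I ω φ.symm φ.target

variable {X Y H E : Type*} [TopologicalSpace X] [ChartedSpace C2 X] [NormedAddCommGroup E]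
  [NormedSpace ℂ E] [TopologicalSpace H] (I : ModelWithCorners ℂ E H) [TopologicalSpace Y]
  [ChartedSpace H Y]

/-- `π : X → Y` is an isomorphism of complex surfaces over a neighbourhood of `y`: in suitable
holomorphic charts, one of them defined on the whole preimage of the other, it is the identity. -/
def IsIsoOver (π : X → Y) (y : Y) : Prop :=
  ∃ (φ : OpenPartialHomeomorph Y C2) (ψ : OpenPartialHomeomorph X C2),
    IsHolChart I φ ∧ IsHolChart 𝓘(ℂ, C2) ψ ∧
    y ∈ φ.source ∧ ψ.source = π ⁻¹' φ.source ∧ ψ.target = φ.target ∧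
    ∀ w ∈ ψ.target, φ (π (ψ.symm w)) = w

/-- Over a neighbourhood of `p`, the map `π : X → Y` is the blow-up of the complex surface `Y` at
the point `p`: there are holomorphic coordinates `φ = (u, v)` of `Y` centred at `p`, and the
preimage of their domain is covered by two holomorphic charts `ψ₁ = (s, t)` and `ψ₂ = (s', t')` of
`X`, in which `π` is `(s, t) ↦ (u, v) = (s, s t)` and `(s', t') ↦ (u, v) = (s' t', t')`; both
charts have the largest possible images, they overlap exactly where `t ≠ 0`, and there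
`(s', t') = (1 / t, s t)`. -/
def IsBlowUpOver (π : X → Y) (p : Y) : Prop :=
  ∃ (φ : OpenPartialHomeomorph Y C2) (ψ₁ ψ₂ : OpenPartialHomeomorph X C2),
    IsHolChart I φ ∧ IsHolChart 𝓘(ℂ, C2) ψ₁ ∧ IsHolChart 𝓘(ℂ, C2) ψ₂ ∧
    p ∈ φ.source ∧ φ p = 0 ∧ ψ₁.source ∪ ψ₂.source = π ⁻¹' φ.source ∧
    ψ₁.target = {w | ![w 0, w 0 * w 1] ∈ φ.target} ∧
    ψ₂.target = {w | ![w 0 * w 1, w 1] ∈ φ.target} ∧
    (∀ w ∈ ψ₁.target, φ (π (ψ₁.symm w)) = ![w 0, w 0 * w 1]) ∧
    (∀ w ∈ ψ₂.target, φ (π (ψ₂.symm w)) = ![w 0 * w 1, w 1]) ∧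
    (∀ w ∈ ψ₁.target, (ψ₁.symm w ∈ ψ₂.source ↔ w 1 ≠ 0)) ∧
    (∀ w ∈ ψ₁.target, w 1 ≠ 0 → ψ₂ (ψ₁.symm w) = ![(w 1)⁻¹, w 0 * w 1])

/-- `π : X → Y` is the blow-up of the complex surface `Y` at the (distinct) points of the set `S`:
it is the blow-up of a point over a neighbourhood of each point of `S`, and an isomorphism over a
neighbourhood of every other point of `Y`. -/
def IsBlowUp (π : X → Y) (S : Set Y) : Prop :=
  (∀ p ∈ S, IsBlowUpOver I π p) ∧ ∀ y, y ∉ S → IsIsoOver I π y

end BlowUp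

end Pool.Agent.LibH27.HSC
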