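import Pool.Agent.Lib_helper27.HSC.Pds

/-!
# The lower bound for the curvature is the quadratic form `Fform`
-/

namespace Pool.Agent.LibH27.HSC

open scoped Manifold ContDiff ComplexConjugate Topology ComplexOrder
open Complex Finset

/-- `P` times the approximate Christoffel symbols, contracted with `v, v`. -/
noncomputable def Qv (z v : C2) : Fin 2 → ℂ :=
  ![conj (z 0) * v 0 ^ 2 * ez z qa1 + conj (z 1) * (v 0 * v 1) * ez z qa2 +
      z 0 * conj (z 1) ^ 2 * v 1 ^ 2 * ez z qa3,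
    conj (z 1) * v 1 ^ 2 * ez z qb1 + conj (z 0) * (v 0 * v 1) * ez z qb2 +
      z 1 * conj (z 0) ^ 2 * v 0 ^ 2 * ez z qb3]

/-- `P² g_{i j̄}`. -/
noncomputable def A11 (i j : Fin 2) (z : C2) : ℂ :=
  pd 0 0 z * pd (ee i) (ee j) z - pd (ee i) 0 z * pd 0 (ee j) z

/-- `P³ ∂_k g_{i j̄}`. -/
noncomputable def A21 (i k j : Fin 2) (z : C2) : ℂ :=
  pd 0 0 z ^ 2 * pd (ee i + ee k) (ee j) z
    - pd 0 0 z * (pd (ee i + ee k) 0 z * pd 0 (ee j) z + pd (ee i) (ee j) z * pd (ee k) 0 z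
      + pd (ee k) (ee j) z * pd (ee i) 0 z)
    + 2 * (pd (ee i) 0 z * pd (ee k) 0 z * pd 0 (ee j) z)

/-- `P⁴ ∂_k ∂_l̄ g_{i j̄}`. -/
noncomputable def A22 (i k j l : Fin 2) (z : C2) : ℂ :=
  pd 0 0 z ^ 3 * pd (ee i + ee k) (ee j + ee l) z
    - pd 0 0 z ^ 2 * (pd (ee i + ee k) (ee j) z * pd 0 (ee l) z
      + pd (ee i + ee k) (ee l) z * pd 0 (ee j) z
      + pd (ee i) (ee j + ee l) z * pd (ee k) 0 z + pd (ee k) (ee j + ee l) z * pd (ee i) 0 z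
      + pd (ee i + ee k) 0 z * pd 0 (ee j + ee l) z + pd (ee i) (ee j) z * pd (ee k) (ee l) z
      + pd (ee i) (ee l) z * pd (ee k) (ee j) z)
    + 2 * pd 0 0 z * (pd (ee i + ee k) 0 z * pd 0 (ee j) z * pd 0 (ee l) z
      + pd 0 (ee j + ee l) z * pd (ee i) 0 z * pd (ee k) 0 z
      + pd (ee i) (ee j) z * pd (ee k) 0 z * pd 0 (ee l) z
      + pd (ee i) (ee l) z * pd (ee k) 0 z * pd 0 (ee j) z
      + pd (ee k) (ee j) z * pd (ee i) 0 z * pd 0 (ee l) z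
      + pd (ee k) (ee l) z * pd (ee i) 0 z * pd 0 (ee j) z)
    - 6 * (pd (ee i) 0 z * pd (ee k) 0 z * pd 0 (ee j) z * pd 0 (ee l) z)

theorem P_mul_rr (z : C2) : pd 0 0 z * rr z = 1 := mul_inv_cancel₀ (pd_zero_ne z)

theorem P2_GG (i j : Fin 2) (z : C2) : pd 0 0 z ^ 2 * GG z i j = A11 i j z := by
  have h := P_mul_rr z
  have h2 : pd 0 0 z ^ 2 * rr z ^ 2 = 1 := by rw [← mul_pow, h, one_pow]
  simp only [GG, Matrix.of_apply, A11]
  linear_combination pd 0 0 z * pd (ee i) (ee j) z * h - pd (ee i) 0 z * pd 0 (ee j) z * h2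

theorem P3_L21 (i k j : Fin 2) (z : C2) : pd 0 0 z ^ 3 * L21 i k j z = A21 i k j z := by
  have h := P_mul_rr z
  have h2 : pd 0 0 z ^ 2 * rr z ^ 2 = 1 := by rw [← mul_pow, h, one_pow]
  have h3 : pd 0 0 z ^ 3 * rr z ^ 3 = 1 := by rw [← mul_pow, h, one_pow]
  simp only [L21, A21]
  linear_combination pd 0 0 z ^ 2 * pd (ee i + ee k) (ee j) z * h
    - pd 0 0 z * (pd (ee i + ee k) 0 z * pd 0 (ee j) z + pd (ee i) (ee j) z * pd (ee k) 0 z
      + pd (ee k) (ee j) z * pd (ee i) 0 z) * h2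
    + 2 * (pd (ee i) 0 z * pd (ee k) 0 z * pd 0 (ee j) z) * h3

theorem P4_L22 (i k j l : Fin 2) (z : C2) : pd 0 0 z ^ 4 * L22 i k j l z = A22 i k j l z := by
  have h := P_mul_rr z
  have h2 : pd 0 0 z ^ 2 * rr z ^ 2 = 1 := by rw [← mul_pow, h, one_pow]
  have h3 : pd 0 0 z ^ 3 * rr z ^ 3 = 1 := by rw [← mul_pow, h, one_pow]
  have h4 : pd 0 0 z ^ 4 * rr z ^ 4 = 1 := by rw [← mul_pow, h, one_pow]
  simp only [L22, A22]
  linear_combination pd 0 0 z ^ 3 * pd (ee i + ee k) (ee j + ee l) z * h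
    - pd 0 0 z ^ 2 * (pd (ee i + ee k) (ee j) z * pd 0 (ee l) z
      + pd (ee i + ee k) (ee l) z * pd 0 (ee j) z
      + pd (ee i) (ee j + ee l) z * pd (ee k) 0 z + pd (ee k) (ee j + ee l) z * pd (ee i) 0 z
      + pd (ee i + ee k) 0 z * pd 0 (ee j + ee l) z + pd (ee i) (ee j) z * pd (ee k) (ee l) z
      + pd (ee i) (ee l) z * pd (ee k) (ee j) z) * h2
    + 2 * pd 0 0 z * (pd (ee i + ee k) 0 z * pd 0 (ee j) z * pd 0 (ee l) z
      + pd 0 (ee j + ee l) z * pd (ee i) 0 z * pd (ee k) 0 z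
      + pd (ee i) (ee j) z * pd (ee k) 0 z * pd 0 (ee l) z
      + pd (ee i) (ee l) z * pd (ee k) 0 z * pd 0 (ee j) z
      + pd (ee k) (ee j) z * pd (ee i) 0 z * pd 0 (ee l) z
      + pd (ee k) (ee l) z * pd (ee i) 0 z * pd 0 (ee j) z) * h3
    - 6 * (pd (ee i) 0 z * pd (ee k) 0 z * pd 0 (ee j) z * pd 0 (ee l) z) * h4

theorem conj_ez (z : C2) (L : List (List ℤ)) : conj (ez z L) = ez z L := Complex.conj_ofReal _

/-- The quantity bounding `P⁴` times the curvature from below, in polynomial form. -/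
theorem poly_form (z v : C2) :
    -(∑ i, ∑ j, ∑ k, ∑ l, A22 i k j l z * v i * conj (v j) * v k * conj (v l)) +
      (∑ q, (∑ i, ∑ k, A21 i k q z * v i * v k) * conj (Qv z v q)) +
      (∑ q, conj (∑ i, ∑ k, A21 i k q z * v i * v k) * Qv z v q) -
      (∑ p, ∑ q, Qv z v p * A11 p q z * conj (Qv z v q)) =
      ((Fform (normSq (z 0)) (normSq (z 1)) (normSq (v 0)) (normSq (v 1))
        (v 0 * conj (v 1) * (conj (z 0) * z 1)).re : ℝ) : ℂ) := by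
  have hre : (((v 0 * conj (v 1) * (conj (z 0) * z 1)).re : ℝ) : ℂ) =
      (v 0 * conj (v 1) * (conj (z 0) * z 1) + conj (v 0) * v 1 * (z 0 * conj (z 1))) / 2 := by
    rw [Complex.re_eq_add_conj]
    simp only [map_mul, Complex.conj_conj]
  have hN : ∀ L : List (List ℤ), ((ev2 (normSq (z 0)) (normSq (z 1)) L : ℝ) : ℂ) = ez z L :=
    fun _ => rfl
  simp only [Fform,
    Na0, Na1, Na2, Na3, Na, Nb0, Nb1, Nb2, Nb3, Nb, Nc0, Nc1, Nc2, Nc3, Nc, Nd0, Nd1, Nd2, Nd3,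
    Nd, Ne0, Ne1, Ne2, Ne3, Ne, Nf0, Nf1, Nf2, Nf3, Nf,
    ev2_add2, ev2_smul2, ev2_mul2, ev2_pX, ev2_pY]
  push_cast
  simp only [hN, hre]
  simp only [A22, A21, A11, Qv, Fin.sum_univ_two, Matrix.cons_val_zero, Matrix.cons_val_one,
    Matrix.cons_val_fin_one, map_add, map_mul, map_sub, map_pow, conj_pd, conj_ez,
    Complex.conj_conj, map_ofNat,
    pds_0_0, pds_0_1, pds_0_2, pds_0_3, pds_0_4, pds_0_5, pds_0_6, pds_1_0, pds_1_1, pds_1_2,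
    pds_1_3, pds_1_4, pds_1_5, pds_1_6, pds_2_0, pds_2_1, pds_2_2, pds_2_3, pds_2_4, pds_2_5,
    pds_2_6, pds_3_0, pds_3_1, pds_3_2, pds_3_3, pds_3_4, pds_3_5, pds_3_6, pds_4_0, pds_4_1,
    pds_4_2, pds_4_3, pds_4_4, pds_4_5, pds_4_6, pds_5_0, pds_5_1, pds_5_2, pds_5_3, pds_5_4,
    pds_5_5, pds_5_6, pds_6_0, pds_6_1, pds_6_2, pds_6_3, pds_6_4, pds_6_5, pds_6_6,
    normSq_eq_conj_mul_self]
  ring

end Pool.Agent.LibH27.HSC
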