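import Pool.Agent.Lib_helper27.HSC.Wirt

/-!
# The polynomial `P(|z₀|², |z₁|²)` and its Wirtinger derivatives
-/

namespace Pool.Agent.LibH27.HSC

open scoped Manifold ContDiff ComplexConjugate Topology ComplexOrder
open Complex Finset

/-- The coefficients of the polynomial `P(X, Y) = ∑ c_{ab} X^a Y^b`. -/
def tab : List (List ℤ) :=
  [[5, 13, 5, 0, 0], [13, 57, 57, 13, 0], [5, 57, 57, 57, 5], [0, 13, 57, 57, 13],
    [0, 0, 5, 13, 5]]

/-- The coefficient `c_{ab}`. -/
def cf (a b : ℕ) : ℤ := (tab.getD a []).getD b 0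

/-- Unit multi-indices. -/
def ee (k : Fin 2) : ℕ × ℕ := if k = 0 then (1, 0) else (0, 1)

@[simp] theorem ee_zero : ee 0 = (1, 0) := rfl
@[simp] theorem ee_one : ee 1 = (0, 1) := rfl

/-- The monomial `z₀^p z̄₀^q z₁^r z̄₁^s`. -/
noncomputable def mono (p q r s : ℕ) (z : C2) : ℂ :=
  z 0 ^ p * conj (z 0) ^ q * z 1 ^ r * conj (z 1) ^ s

theorem hasW_mono (p q r s : ℕ) (z : C2) :
    HasW (mono p q r s)
      ![p * mono (p - 1) q r s z, r * mono p q (r - 1) s z]
      ![q * mono p (q - 1) r s z, s * mono p q r (s - 1) z] z := by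
  have h := ((((HasW.coord 0 z).pow p).mul ((HasW.conjCoord 0 z).pow q)).mul
    ((HasW.coord 1 z).pow r)).mul ((HasW.conjCoord 1 z).pow s)
  refine h.congr_ab ?_ ?_
  · ext k; fin_cases k
    · simp [mono]; ring
    · simp [mono]; ring
  · ext k; fin_cases k
    · simp [mono]; ring
    · simp [mono]; ring

/-- The derivative `∂^I ∂̄^J P` of `P(|z₀|², |z₁|²)`. -/
noncomputable def pd (I J : ℕ × ℕ) (z : C2) : ℂ :=
  ∑ a ∈ range 5, ∑ b ∈ range 5, ((cf a b : ℂ) *
    ((a.descFactorial I.1 * a.descFactorial J.1 * b.descFactorial I.2 * b.descFactorial J.2 : ℕ) :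
      ℂ)) * mono (a - I.1) (a - J.1) (b - I.2) (b - J.2) z

theorem cast_desc (a i : ℕ) :
    ((a.descFactorial (i + 1) : ℕ) : ℂ) = ((a - i : ℕ) : ℂ) * (a.descFactorial i : ℂ) := by
  rw [Nat.descFactorial_succ]; push_cast; ring

theorem hasW_pd (I J : ℕ × ℕ) (z : C2) :
    HasW (pd I J) (fun k => pd (I + ee k) J z) (fun k => pd I (J + ee k) z) z := by
  have h := HasW.sum (range 5) (f := fun a w => ∑ b ∈ range 5, ((cf a b : ℂ) *
    ((a.descFactorial I.1 * a.descFactorial J.1 * b.descFactorial I.2 * b.descFactorial J.2 : ℕ) :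
      ℂ)) * mono (a - I.1) (a - J.1) (b - I.2) (b - J.2) w) (z := z)
    (fun a _ => HasW.sum (range 5) (fun b _ => (hasW_mono (a - I.1) (a - J.1) (b - I.2)
      (b - J.2) z).const_mul _))
  refine h.congr_ab ?_ ?_
  · ext k
    simp only [Finset.sum_apply, Pi.smul_apply, smul_eq_mul, pd]
    refine sum_congr rfl fun a _ => sum_congr rfl fun b _ => ?_
    fin_cases k
    · simp only [Fin.zero_eta, Matrix.cons_val_zero, ee_zero, Prod.fst_add, Prod.snd_add,
        Nat.cast_mul, cast_desc, add_zero, Nat.sub_sub]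
      ring
    · simp only [Fin.mk_one, Matrix.cons_val_one, Matrix.cons_val_fin_one, ee_one, Prod.fst_add, Prod.snd_add,
        Nat.cast_mul, cast_desc, add_zero, Nat.sub_sub]
      ring
  · ext k
    simp only [Finset.sum_apply, Pi.smul_apply, smul_eq_mul, pd]
    refine sum_congr rfl fun a _ => sum_congr rfl fun b _ => ?_
    fin_cases k
    · simp only [Fin.zero_eta, Matrix.cons_val_zero, ee_zero, Prod.fst_add, Prod.snd_add,
        Nat.cast_mul, cast_desc, add_zero, Nat.sub_sub]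
      ring
    · simp only [Fin.mk_one, Matrix.cons_val_one, Matrix.cons_val_fin_one, ee_one, Prod.fst_add, Prod.snd_add,
        Nat.cast_mul, cast_desc, add_zero, Nat.sub_sub]
      ring

theorem conj_pd (I J : ℕ × ℕ) (z : C2) : conj (pd I J z) = pd J I z := by
  simp only [pd, map_sum, map_mul, mono, map_pow, Complex.conj_conj]
  refine sum_congr rfl fun a _ => sum_congr rfl fun b _ => ?_
  have h1 : conj ((cf a b : ℤ) : ℂ) = ((cf a b : ℤ) : ℂ) := map_intCast (starRingEnd ℂ) _
  have h2 : ∀ n : ℕ, conj (n : ℂ) = (n : ℂ) := fun n => map_natCast (starRingEnd ℂ) n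
  rw [h1, h2]
  push_cast
  ring

end Pool.Agent.LibH27.HSC
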