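import Pool.Agent.Lib_helper27.HSC.Mfd

/-!
# The Kähler metric on the surface `x y z = 1`
-/

namespace Pool.Agent.LibH27.HSC

open scoped Topology Manifold ContDiff ComplexConjugate ComplexOrder
open Filter Set

theorem contDiff_mono (p q r s : ℕ) : ContDiff ℝ ∞ (mono p q r s) := by
  have c : ∀ i : Fin 2, ContDiff ℝ ∞ (fun w : C2 => w i) := fun i => contDiff_apply ℝ ℂ i
  have d : ∀ i : Fin 2, ContDiff ℝ ∞ (fun w : C2 => conj (w i)) := fun i =>
    Complex.conjCLE.contDiff.comp (c i)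
  exact ((((c 0).pow p).mul ((d 0).pow q)).mul ((c 1).pow r)).mul ((d 1).pow s)

theorem contDiff_pd (I J : ℕ × ℕ) : ContDiff ℝ ∞ (pd I J) := by
  refine ContDiff.sum fun a _ => ContDiff.sum fun b _ => ?_
  exact contDiff_const.mul (contDiff_mono _ _ _ _)

theorem contDiff_rr : ContDiff ℝ ∞ rr := (contDiff_pd 0 0).inv pd_zero_ne

theorem contDiff_GG (i j : Fin 2) : ContDiff ℝ ∞ (fun z => GG z i j) := by
  have h : (fun z => GG z i j) = fun z => rr z * pd (ee i) (ee j) z -
      rr z ^ 2 * (pd (ee i) 0 z * pd 0 (ee j) z) := rfl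
  rw [h]
  exact (contDiff_rr.mul (contDiff_pd _ _)).sub
    ((contDiff_rr.pow 2).mul ((contDiff_pd _ _).mul (contDiff_pd _ _)))

/-- The metric `GG` is compatible with the holomorphic map `T` at `z`. -/
def CompatAt (T : C2 → C2) (z : C2) : Prop :=
  DifferentiableAt ℂ T z ∧ ∀ i j, GG z i j = ∑ a, ∑ b, fderiv ℂ T z (Pi.single i 1) a *
    GG (T z) a b * conj (fderiv ℂ T z (Pi.single j 1) b)

theorem CompatAt.congr {S T : C2 → C2} {z : C2} (h : CompatAt T z) (e : S =ᶠ[𝓝 z] T) :
    CompatAt S z := by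
  refine ⟨e.differentiableAt_iff.2 h.1, fun i j => ?_⟩
  rw [e.fderiv_eq, e.eq_of_nhds]
  exact h.2 i j

theorem CompatAt.id (z : C2) : CompatAt (fun w => w) z := by
  refine ⟨differentiableAt_id, fun i j => ?_⟩
  have : fderiv ℂ (fun w : C2 => w) z = ContinuousLinearMap.id ℂ C2 := fderiv_id
  rw [this]
  fin_cases i <;> fin_cases j <;> simp [Fin.sum_univ_two]

theorem linear_expand (L : C2 →L[ℂ] C2) (v : C2) (a : Fin 2) :
    L v a = v 0 * L (Pi.single 0 1) a + v 1 * L (Pi.single 1 1) a := by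
  have h : v = v 0 • (Pi.single 0 1 : C2) + v 1 • (Pi.single 1 1 : C2) := by
    ext k; fin_cases k <;> simp
  conv_lhs => rw [h, map_add, map_smul, map_smul]
  simp

theorem CompatAt.comp {S T : C2 → C2} {z : C2} (hS : CompatAt S (T z)) (hT : CompatAt T z) :
    CompatAt (fun w => S (T w)) z := by
  refine ⟨hS.1.comp z hT.1, fun i j => ?_⟩
  have h : fderiv ℂ (fun w => S (T w)) z = (fderiv ℂ S (T z)).comp (fderiv ℂ T z) :=
    fderiv_comp z hS.1 hT.1
  rw [h, hT.2 i j]
  simp only [ContinuousLinearMap.comp_apply, Fin.sum_univ_two, hS.2,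
    linear_expand (fderiv ℂ S (T z)) (fderiv ℂ T z (Pi.single i 1)),
    linear_expand (fderiv ℂ S (T z)) (fderiv ℂ T z (Pi.single j 1)), map_add, map_mul]
  ring

/-- A complex linear map with prescribed values on the two coordinate vectors. -/
noncomputable def JL (J : Fin 2 → Fin 2 → ℂ) : C2 →L[ℂ] C2 :=
  ContinuousLinearMap.pi fun a =>
    ∑ i, J i a • (ContinuousLinearMap.proj (R := ℂ) (φ := fun _ : Fin 2 => ℂ) i)

theorem JL_apply (J : Fin 2 → Fin 2 → ℂ) (v : C2) (a : Fin 2) :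
    JL J v a = J 0 a * v 0 + J 1 a * v 1 := by
  simp [JL, Fin.sum_univ_two]

theorem JL_single (J : Fin 2 → Fin 2 → ℂ) (i a : Fin 2) : JL J (Pi.single i 1) a = J i a := by
  rw [JL_apply]; fin_cases i <;> simp

theorem hasFDerivAt_T5 {z : C2} (hz : z 0 ≠ 0) : HasFDerivAt T5 (JL (J5 z)) z := by
  have c : ∀ i : Fin 2, HasFDerivAt (fun w : C2 => w i)
      (ContinuousLinearMap.proj (R := ℂ) (φ := fun _ : Fin 2 => ℂ) i) z := fun i =>
    (ContinuousLinearMap.proj (R := ℂ) (φ := fun _ : Fin 2 => ℂ) i).hasFDerivAt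
  refine hasFDerivAt_pi.2 fun a => ?_
  fin_cases a
  · refine ((c 0).mul (c 1)).congr_fderiv ?_
    ext v
    simp [J5, Fin.sum_univ_two]
    ring
  · have h := (hasDerivAt_inv hz).comp_hasFDerivAt z (c 0)
    refine HasFDerivAt.congr_fderiv h ?_
    ext v
    simp [J5, Fin.sum_univ_two]

theorem compatAt_T5 {z : C2} (hz : z 0 ≠ 0) : CompatAt T5 z := by
  have h := hasFDerivAt_T5 hz
  refine ⟨h.differentiableAt, fun i j => ?_⟩
  rw [h.fderiv]
  simp only [JL_single]
  exact compat5 z hz i j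

theorem hasFDerivAt_swp (z : C2) : HasFDerivAt swp (JL (Js z)) z := by
  have c : ∀ i : Fin 2, HasFDerivAt (fun w : C2 => w i)
      (ContinuousLinearMap.proj (R := ℂ) (φ := fun _ : Fin 2 => ℂ) i) z := fun i =>
    (ContinuousLinearMap.proj (R := ℂ) (φ := fun _ : Fin 2 => ℂ) i).hasFDerivAt
  refine hasFDerivAt_pi.2 fun a => ?_
  fin_cases a
  · refine (c 1).congr_fderiv ?_
    ext v
    simp [Js, Fin.sum_univ_two]
  · refine (c 0).congr_fderiv ?_
    ext v
    simp [Js, Fin.sum_univ_two]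

theorem compatAt_swp (z : C2) : CompatAt swp z := by
  have h := hasFDerivAt_swp z
  refine ⟨h.differentiableAt, fun i j => ?_⟩
  rw [h.fderiv]
  simp only [JL_single]
  exact compat_swp z i j

theorem isOpen_ne0 (i : Fin 2) : IsOpen {w : C2 | w i ≠ 0} :=
  isOpen_compl_singleton.preimage (continuous_apply i)

theorem compatAt_T1 {z : C2} (hz : z 1 ≠ 0) : CompatAt (trn 1) z := by
  have h := ((compatAt_swp (T5 (swp z))).comp (compatAt_T5 (z := swp z) (by simpa [swp] using hz))
    : CompatAt (fun w => swp (T5 w)) (swp z)).comp (compatAt_swp z)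
  refine h.congr (Eventually.of_forall fun w => ?_)
  ext k; fin_cases k <;> simp [swp, T5, trn, mul_comm]

theorem compatAt_trn {n : ℕ} (hn : n < 6) {z : C2} (hz : z ∈ dom n) : CompatAt (trn n) z := by
  interval_cases n
  · exact CompatAt.id z
  · exact compatAt_T1 hz
  · have hz' : z 0 * z 1 ≠ 0 := hz
    have h1 : z 1 ≠ 0 := right_ne_zero_of_mul hz'
    have h := (compatAt_T1 (z := trn 1 z) (by simpa [trn] using hz')).comp (compatAt_T1 h1)
    refine h.congr ?_
    filter_upwards [(isOpen_ne0 1).mem_nhds h1] with w hw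
    have hw' : w 1 ≠ 0 := hw
    ext k; fin_cases k
    · simp [trn]
    · simp [trn]
      field_simp
  · obtain ⟨h0, h1⟩ := hz
    have h01 : z 0 * z 1 ≠ 0 := mul_ne_zero h0 h1
    have e5 : (T5 z) 0 ≠ 0 := by simpa [T5] using h01
    have e55 : (T5 (T5 z)) 0 ≠ 0 := by
      simp only [T5, Matrix.cons_val_zero, Matrix.cons_val_one, Matrix.cons_val_fin_one]
      exact mul_ne_zero h01 (inv_ne_zero h0)
    have h := ((compatAt_T5 e55).comp (compatAt_T5 e5) : CompatAt (fun w => T5 (T5 w)) (T5 z)).comp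
      (compatAt_T5 h0)
    refine h.congr ?_
    filter_upwards [(isOpen_ne0 0).mem_nhds h0, (isOpen_ne0 1).mem_nhds h1] with w hw0 hw1
    have hw0' : w 0 ≠ 0 := hw0
    have hw1' : w 1 ≠ 0 := hw1
    ext k; fin_cases k
    · simp [trn, T5]
      field_simp
    · simp [trn, T5]
      field_simp
  · have hz' : z 0 * z 1 ≠ 0 := hz
    have h0 : z 0 ≠ 0 := left_ne_zero_of_mul hz'
    have h := (compatAt_T5 (z := T5 z) (by simpa [T5] using hz')).comp (compatAt_T5 h0)
    refine h.congr ?_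
    filter_upwards [(isOpen_ne0 0).mem_nhds h0] with w hw
    have hw' : w 0 ≠ 0 := hw
    ext k; fin_cases k
    · simp [trn, T5]
      field_simp
    · simp [trn, T5]
  · exact compatAt_T5 hz

/-- The Kähler metric `i ∂∂̄ log P` on the surface `x y z = 1`. -/
noncomputable def metric : KahlerMetric DP6 where
  mat _ := GG
  posDef _ _ z _ := posDef_GG z
  smooth _ _ i j := (contDiff_GG i j).contDiffOn
  compat := by
    rintro e ⟨j, rfl⟩ e' ⟨k, rfl⟩ z hz a b
    obtain ⟨n, hn, h1, h2, -⟩ := transition j k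
    rw [h2] at hz
    have h3 := (compatAt_trn hn hz).2 a b
    have h4 : ((chartk j).symm ≫ₕ chartk k : C2 → C2) = trn n := funext h1
    rw [h4]
    exact h3
  closed _ _ z _ i j k := by
    rw [dz_GG, dz_GG, L21_comm]

theorem metric_pos : metric.HSCPositive := fun _ _ z _ v hv => hsc_pos z v hv

end Pool.Agent.LibH27.HSC
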