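import Pool.Agent.Lib_helper27.HSC.Metric

/-!
# A lower bound for the curvature which avoids the inverse matrix
-/

namespace Pool.Agent.LibH27.HSC

open scoped Manifold ContDiff ComplexConjugate Topology ComplexOrder
open Complex Finset

/-- Completing the square: `T G⁻¹ T* ≥ 2 Re (T w*) - w G w*`. -/
theorem inv_lower (G : Matrix (Fin 2) (Fin 2) ℂ) (hG : G.PosDef) (T w : Fin 2 → ℂ) :
    2 * (∑ q, T q * conj (w q)).re - (∑ p, ∑ q, w p * G p q * conj (w q)).re ≤
      (∑ p, ∑ q, T q * G⁻¹ q p * conj (T p)).re := by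
  have hdet : IsUnit G.det := (Matrix.isUnit_iff_isUnit_det _).1 hG.isUnit
  have hinv : G⁻¹.PosSemidef := hG.inv.posSemidef
  set M := G⁻¹ with hM
  have hMG : G * M = 1 := Matrix.mul_nonsing_inv _ hdet
  have hGM : M * G = 1 := Matrix.nonsing_inv_mul _ hdet
  have hH : ∀ i j, conj (G i j) = G j i := fun i j => by
    have := hG.isHermitian.apply j i
    simpa using this
  set u : Fin 2 → ℂ := fun q => T q - ∑ p, w p * G p q with hu
  have h0 := hinv.dotProduct_mulVec_nonneg (fun i => conj (u i))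
  have e : star (fun i => conj (u i)) ⬝ᵥ (M.mulVec fun i => conj (u i)) =
      (∑ p, ∑ q, T q * M q p * conj (T p)) - (∑ q, w q * conj (T q)) - (∑ q, T q * conj (w q))
        + (∑ p, ∑ q, w p * G p q * conj (w q)) := by
    have g00 := congrFun (congrFun hMG 0) 0
    have g01 := congrFun (congrFun hMG 0) 1
    have g10 := congrFun (congrFun hMG 1) 0
    have g11 := congrFun (congrFun hMG 1) 1
    have f00 := congrFun (congrFun hGM 0) 0
    have f01 := congrFun (congrFun hGM 0) 1
    have f10 := congrFun (congrFun hGM 1) 0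
    have f11 := congrFun (congrFun hGM 1) 1
    simp only [Matrix.mul_apply, Fin.sum_univ_two, Matrix.one_apply_eq, ne_eq, zero_ne_one,
      not_false_eq_true, Matrix.one_apply_ne, one_ne_zero] at g00 g01 g10 g11 f00 f01 f10 f11
    simp only [Matrix.mulVec, dotProduct, Fin.sum_univ_two, hu, Pi.star_apply, RCLike.star_def,
      map_sub, map_add, map_mul, Complex.conj_conj, hH]
    linear_combination (w 0 * (-conj (T 0) + G 0 0 * conj (w 0) + G 0 1 * conj (w 1))) * g00 + (w 0 * (-conj (T 1) + G 1 0 * conj (w 0) + G 1 1 * conj (w 1))) * g01 +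
      (w 1 * (-conj (T 0) + G 0 0 * conj (w 0) + G 0 1 * conj (w 1))) * g10 + (w 1 * (-conj (T 1) + G 1 0 * conj (w 0) + G 1 1 * conj (w 1))) * g11 +
      (-(T 0 * conj (w 0))) * f00 + (-(T 0 * conj (w 1))) * f01 +
      (-(T 1 * conj (w 0))) * f10 + (-(T 1 * conj (w 1))) * f11
  rw [e] at h0
  have h1 := (Complex.le_def.1 h0).1
  have h2 : (∑ q, w q * conj (T q)).re = (∑ q, T q * conj (w q)).re := by
    rw [← Complex.conj_re]
    congr 1
    simp [mul_comm]
  simp only [add_re, sub_re, Complex.zero_re] at h1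
  linarith

end Pool.Agent.LibH27.HSC
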