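import Pool.Agent.Lib_helper27.HSC.Jets

/-!
# The metric `g = ∂∂̄ log P` in a chart and its derivatives
-/

namespace Pool.Agent.LibH27.HSC

open scoped Manifold ContDiff ComplexConjugate Topology ComplexOrder
open Complex Finset

/-- `P(|z₀|², |z₁|²)` is a real number `≥ 5`. -/
theorem pd_zero_eq (z : C2) : ∃ x : ℝ, 5 ≤ x ∧ pd 0 0 z = (x : ℂ) := by
  refine ⟨∑ a ∈ range 5, ∑ b ∈ range 5, (cf a b : ℝ) * (normSq (z 0) ^ a * normSq (z 1) ^ b),
    ?_, ?_⟩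
  · have h0 := normSq_nonneg (z 0)
    have h1 := normSq_nonneg (z 1)
    simp only [sum_range_succ, sum_range_zero, cf, tab]
    norm_num
    generalize normSq (z 0) = x at h0 ⊢
    generalize normSq (z 1) = y at h1 ⊢
    have : 0 ≤ 13 * y + 5 * y ^ 2 + (13 * x + 57 * (x * y) + 57 * (x * y ^ 2) + 13 * (x * y ^ 3))
      + (5 * x ^ 2 + 57 * (x ^ 2 * y) + 57 * (x ^ 2 * y ^ 2) + 57 * (x ^ 2 * y ^ 3)
        + 5 * (x ^ 2 * y ^ 4)) + (13 * (x ^ 3 * y) + 57 * (x ^ 3 * y ^ 2) + 57 * (x ^ 3 * y ^ 3)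
        + 13 * (x ^ 3 * y ^ 4)) + (5 * (x ^ 4 * y ^ 2) + 13 * (x ^ 4 * y ^ 3)
        + 5 * (x ^ 4 * y ^ 4)) := by positivity
    linarith
  · simp only [pd, mono, Prod.fst_zero, Prod.snd_zero, Nat.descFactorial_zero, Nat.sub_zero]
    push_cast
    refine sum_congr rfl fun a _ => sum_congr rfl fun b _ => ?_
    rw [normSq_eq_conj_mul_self, normSq_eq_conj_mul_self]
    ring

theorem pd_zero_ne (z : C2) : pd 0 0 z ≠ 0 := by
  obtain ⟨x, hx, h⟩ := pd_zero_eq z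
  rw [h]
  exact_mod_cast (by linarith : x ≠ 0)

/-- `1/P`. -/
noncomputable def rr (z : C2) : ℂ := (pd 0 0 z)⁻¹

theorem hasW_rr (z : C2) :
    HasW rr (fun k => -rr z ^ 2 * pd (ee k) 0 z) (fun k => -rr z ^ 2 * pd 0 (ee k) z) z := by
  have h := (hasW_pd 0 0 z).inv (pd_zero_ne z)
  refine HasW.congr_ab (f := rr) h ?_ ?_
  · ext k; simp [rr]
  · ext k; simp [rr]

/-- The metric `g_{i j̄} = ∂_i ∂_j̄ log P`. -/
noncomputable def GG (z : C2) : Matrix (Fin 2) (Fin 2) ℂ := Matrix.of fun i j =>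
  rr z * pd (ee i) (ee j) z - rr z ^ 2 * (pd (ee i) 0 z * pd 0 (ee j) z)

/-- `∂_k g_{i j̄}`. -/
noncomputable def L21 (i k j : Fin 2) (z : C2) : ℂ :=
  rr z * pd (ee i + ee k) (ee j) z
    - rr z ^ 2 * (pd (ee i + ee k) 0 z * pd 0 (ee j) z + pd (ee i) (ee j) z * pd (ee k) 0 z
      + pd (ee k) (ee j) z * pd (ee i) 0 z)
    + 2 * rr z ^ 3 * (pd (ee i) 0 z * pd (ee k) 0 z * pd 0 (ee j) z)

/-- `∂_l̄ g_{i j̄}`. -/
noncomputable def L12 (i j l : Fin 2) (z : C2) : ℂ :=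
  rr z * pd (ee i) (ee j + ee l) z
    - rr z ^ 2 * (pd 0 (ee j + ee l) z * pd (ee i) 0 z + pd (ee i) (ee j) z * pd 0 (ee l) z
      + pd (ee i) (ee l) z * pd 0 (ee j) z)
    + 2 * rr z ^ 3 * (pd (ee i) 0 z * pd 0 (ee j) z * pd 0 (ee l) z)

/-- `∂_k ∂_l̄ g_{i j̄}`. -/
noncomputable def L22 (i k j l : Fin 2) (z : C2) : ℂ :=
  rr z * pd (ee i + ee k) (ee j + ee l) z
    - rr z ^ 2 * (pd (ee i + ee k) (ee j) z * pd 0 (ee l) z
      + pd (ee i + ee k) (ee l) z * pd 0 (ee j) z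
      + pd (ee i) (ee j + ee l) z * pd (ee k) 0 z + pd (ee k) (ee j + ee l) z * pd (ee i) 0 z
      + pd (ee i + ee k) 0 z * pd 0 (ee j + ee l) z + pd (ee i) (ee j) z * pd (ee k) (ee l) z
      + pd (ee i) (ee l) z * pd (ee k) (ee j) z)
    + 2 * rr z ^ 3 * (pd (ee i + ee k) 0 z * pd 0 (ee j) z * pd 0 (ee l) z
      + pd 0 (ee j + ee l) z * pd (ee i) 0 z * pd (ee k) 0 z
      + pd (ee i) (ee j) z * pd (ee k) 0 z * pd 0 (ee l) z
      + pd (ee i) (ee l) z * pd (ee k) 0 z * pd 0 (ee j) z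
      + pd (ee k) (ee j) z * pd (ee i) 0 z * pd 0 (ee l) z
      + pd (ee k) (ee l) z * pd (ee i) 0 z * pd 0 (ee j) z)
    - 6 * rr z ^ 4 * (pd (ee i) 0 z * pd (ee k) 0 z * pd 0 (ee j) z * pd 0 (ee l) z)

theorem hasW_GG (i j : Fin 2) (z : C2) :
    HasW (fun w => GG w i j) (fun k => L21 i k j z) (fun l => L12 i j l z) z := by
  have h := ((hasW_rr z).mul (hasW_pd (ee i) (ee j) z)).sub
    (((hasW_rr z).pow 2).mul ((hasW_pd (ee i) 0 z).mul (hasW_pd 0 (ee j) z)))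
  refine HasW.congr_ab (f := fun w => GG w i j) h ?_ ?_
  · ext k; simp [L21]; ring
  · ext k; simp [L12]; ring

theorem hasW_L12 (i j l : Fin 2) (z : C2) :
    HasW (L12 i j l) (fun k => L22 i k j l z) (fun m => dzbar m (L12 i j l) z) z := by
  have h := (((hasW_rr z).mul (hasW_pd (ee i) (ee j + ee l) z)).sub
    (((hasW_rr z).pow 2).mul ((((hasW_pd 0 (ee j + ee l) z).mul (hasW_pd (ee i) 0 z)).add
      ((hasW_pd (ee i) (ee j) z).mul (hasW_pd 0 (ee l) z))).add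
      ((hasW_pd (ee i) (ee l) z).mul (hasW_pd 0 (ee j) z))))).add
    ((((hasW_rr z).pow 3).const_mul 2).mul (((hasW_pd (ee i) 0 z).mul
      (hasW_pd 0 (ee j) z)).mul (hasW_pd 0 (ee l) z)))
  have h2 : ∀ m, dzbar m (L12 i j l) z = _ := fun m => HasW.dzbar (f := L12 i j l) h m
  refine HasW.congr_ab (f := L12 i j l) h ?_ (by funext m; rw [h2 m])
  ext k; simp [L22]; ring

theorem dzbar_GG (i j l : Fin 2) : dzbar l (fun w => GG w i j) = L12 i j l := by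
  funext z; exact (hasW_GG i j z).dzbar l

theorem dz_GG (i j k : Fin 2) (z : C2) : dz k (fun w => GG w i j) z = L21 i k j z :=
  (hasW_GG i j z).dz k

theorem dz_dzbar_GG (i j k l : Fin 2) (z : C2) :
    dz k (dzbar l fun w => GG w i j) z = L22 i k j l z := by
  rw [dzbar_GG]; exact (hasW_L12 i j l z).dz k

theorem conj_rr (z : C2) : conj (rr z) = rr z := by
  rw [rr, map_inv₀, conj_pd]

theorem conj_GG (i j : Fin 2) (z : C2) : conj (GG z i j) = GG z j i := by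
  simp only [GG, Matrix.of_apply, map_sub, map_mul, map_pow, conj_rr, conj_pd]; ring

theorem conj_L21 (i k j : Fin 2) (z : C2) : conj (L21 i k j z) = L12 j i k z := by
  simp only [L21, L12, map_add, map_sub, map_mul, map_pow, conj_rr, conj_pd, map_ofNat]; ring

theorem L21_comm (i k j : Fin 2) (z : C2) : L21 i k j z = L21 k i j z := by
  simp only [L21, add_comm (ee k) (ee i)]; ring

theorem curv_alg (A B : Fin 2 → Fin 2 → Fin 2 → ℂ) (L : Fin 2 → Fin 2 → Fin 2 → Fin 2 → ℂ)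
    (G : Matrix (Fin 2) (Fin 2) ℂ) (v w : Fin 2 → ℂ) :
    (∑ i, ∑ j, ∑ k, ∑ l, (-L i k j l + ∑ p, ∑ q, A i k q * G q p * B p j l) * v i * w j * v k *
      w l) = -(∑ i, ∑ j, ∑ k, ∑ l, L i k j l * v i * w j * v k * w l) +
      ∑ p, ∑ q, (∑ i, ∑ k, A i k q * v i * v k) * G q p * (∑ i, ∑ k, B p i k * w i * w k) := by
  simp only [Fin.sum_univ_two]
  ring

/-- The curvature of `g` at `z` evaluated on `v, v̄, v, v̄`. -/
theorem curv_GG (z v : C2) :
    (∑ i, ∑ j, ∑ k, ∑ l, curv GG z i j k l * v i * conj (v j) * v k * conj (v l)) =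
      -(∑ i, ∑ j, ∑ k, ∑ l, L22 i k j l z * v i * conj (v j) * v k * conj (v l)) +
      ∑ p, ∑ q, (∑ i, ∑ k, L21 i k q z * v i * v k) * (GG z)⁻¹ q p *
        conj (∑ i, ∑ k, L21 i k p z * v i * v k) := by
  have h : ∀ i j k l, curv GG z i j k l = -L22 i k j l z +
      ∑ p, ∑ q, L21 i k q z * (GG z)⁻¹ q p * L12 p j l z := by
    intro i j k l
    rw [curv, dz_dzbar_GG]
    congr 1
    refine sum_congr rfl fun p _ => sum_congr rfl fun q _ => ?_
    rw [dz_GG, dzbar_GG]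
  simp only [h, map_sum, map_mul, conj_L21]
  exact curv_alg (fun i k q => L21 i k q z) (fun p j l => L12 p j l z)
    (fun i k j l => L22 i k j l z) ((GG z)⁻¹) v (fun j => conj (v j))

end Pool.Agent.LibH27.HSC
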