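import Pool.Agent.Lib_helper27.HSC.Stab

/-!
# The coefficient polynomials of the curvature form
-/

namespace Pool.Agent.LibH27.HSC

/-- `S_{IJ}` for `I = (0, 0)`, `J = (0, 0)`. -/
def sT00_00 : List (List ℤ) :=
  [[5, 13, 5, 0, 0], [13, 57, 57, 13, 0], [5, 57, 57, 57, 5], [0, 13, 57, 57, 13], [0, 0, 5, 13, 5]]

theorem Stab_S00_00 : Stab (0, 0) (0, 0) = sT00_00 := by decide +kernel

/-- `S_{IJ}` for `I = (0, 1)`, `J = (0, 0)`. -/
def sT01_00 : List (List ℤ) :=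
  [[13, 10, 0, 0], [57, 114, 39, 0], [57, 114, 171, 20], [13, 114, 171, 52], [0, 10, 39, 20]]

theorem Stab_S01_00 : Stab (0, 1) (0, 0) = sT01_00 := by decide +kernel

/-- `S_{IJ}` for `I = (0, 1)`, `J = (0, 1)`. -/
def sT01_01 : List (List ℤ) :=
  [[13, 20, 0, 0], [57, 228, 117, 0], [57, 228, 513, 80], [13, 228, 513, 208], [0, 20, 117, 80]]

theorem Stab_S01_01 : Stab (0, 1) (0, 1) = sT01_01 := by decide +kernel

/-- `S_{IJ}` for `I = (0, 2)`, `J = (0, 0)`. -/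
def sT02_00 : List (List ℤ) :=
  [[10, 0, 0], [114, 78, 0], [114, 342, 60], [114, 342, 156], [10, 78, 60]]

theorem Stab_S02_00 : Stab (0, 2) (0, 0) = sT02_00 := by decide +kernel

/-- `S_{IJ}` for `I = (0, 2)`, `J = (0, 1)`. -/
def sT02_01 : List (List ℤ) :=
  [[20, 0, 0], [228, 234, 0], [228, 1026, 240], [228, 1026, 624], [20, 234, 240]]

theorem Stab_S02_01 : Stab (0, 2) (0, 1) = sT02_01 := by decide +kernel

/-- `S_{IJ}` for `I = (0, 2)`, `J = (0, 2)`. -/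
def sT02_02 : List (List ℤ) :=
  [[20, 0, 0], [228, 468, 0], [228, 2052, 720], [228, 2052, 1872], [20, 468, 720]]

theorem Stab_S02_02 : Stab (0, 2) (0, 2) = sT02_02 := by decide +kernel

/-- `S_{IJ}` for `I = (1, 0)`, `J = (0, 0)`. -/
def sT10_00 : List (List ℤ) :=
  [[13, 57, 57, 13, 0], [10, 114, 114, 114, 10], [0, 39, 171, 171, 39], [0, 0, 20, 52, 20]]

theorem Stab_S10_00 : Stab (1, 0) (0, 0) = sT10_00 := by decide +kernel

/-- `S_{IJ}` for `I = (1, 0)`, `J = (0, 1)`. -/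
def sT10_01 : List (List ℤ) :=
  [[57, 114, 39, 0], [114, 228, 342, 40], [39, 342, 513, 156], [0, 40, 156, 80]]

theorem Stab_S10_01 : Stab (1, 0) (0, 1) = sT10_01 := by decide +kernel

/-- `S_{IJ}` for `I = (1, 0)`, `J = (0, 2)`. -/
def sT10_02 : List (List ℤ) :=
  [[114, 78, 0], [228, 684, 120], [342, 1026, 468], [40, 312, 240]]

theorem Stab_S10_02 : Stab (1, 0) (0, 2) = sT10_02 := by decide +kernel

/-- `S_{IJ}` for `I = (1, 0)`, `J = (1, 0)`. -/
def sT10_10 : List (List ℤ) :=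
  [[13, 57, 57, 13, 0], [20, 228, 228, 228, 20], [0, 117, 513, 513, 117], [0, 0, 80, 208, 80]]

theorem Stab_S10_10 : Stab (1, 0) (1, 0) = sT10_10 := by decide +kernel

/-- `S_{IJ}` for `I = (1, 1)`, `J = (0, 0)`. -/
def sT11_00 : List (List ℤ) :=
  [[57, 114, 39, 0], [114, 228, 342, 40], [39, 342, 513, 156], [0, 40, 156, 80]]

theorem Stab_S11_00 : Stab (1, 1) (0, 0) = sT11_00 := by decide +kernel

/-- `S_{IJ}` for `I = (1, 1)`, `J = (0, 1)`. -/
def sT11_01 : List (List ℤ) :=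
  [[57, 228, 117, 0], [114, 456, 1026, 160], [39, 684, 1539, 624], [0, 80, 468, 320]]

theorem Stab_S11_01 : Stab (1, 1) (0, 1) = sT11_01 := by decide +kernel

/-- `S_{IJ}` for `I = (1, 1)`, `J = (0, 2)`. -/
def sT11_02 : List (List ℤ) :=
  [[228, 234, 0], [456, 2052, 480], [684, 3078, 1872], [80, 936, 960]]

theorem Stab_S11_02 : Stab (1, 1) (0, 2) = sT11_02 := by decide +kernel

/-- `S_{IJ}` for `I = (1, 1)`, `J = (1, 0)`. -/
def sT11_10 : List (List ℤ) :=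
  [[57, 114, 39, 0], [228, 456, 684, 80], [117, 1026, 1539, 468], [0, 160, 624, 320]]

theorem Stab_S11_10 : Stab (1, 1) (1, 0) = sT11_10 := by decide +kernel

/-- `S_{IJ}` for `I = (1, 1)`, `J = (1, 1)`. -/
def sT11_11 : List (List ℤ) :=
  [[57, 228, 117, 0], [228, 912, 2052, 320], [117, 2052, 4617, 1872], [0, 320, 1872, 1280]]

theorem Stab_S11_11 : Stab (1, 1) (1, 1) = sT11_11 := by decide +kernel

/-- `S_{IJ}` for `I = (2, 0)`, `J = (0, 0)`. -/
def sT20_00 : List (List ℤ) :=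
  [[10, 114, 114, 114, 10], [0, 78, 342, 342, 78], [0, 0, 60, 156, 60]]

theorem Stab_S20_00 : Stab (2, 0) (0, 0) = sT20_00 := by decide +kernel

/-- `S_{IJ}` for `I = (2, 0)`, `J = (0, 1)`. -/
def sT20_01 : List (List ℤ) :=
  [[114, 228, 342, 40], [78, 684, 1026, 312], [0, 120, 468, 240]]

theorem Stab_S20_01 : Stab (2, 0) (0, 1) = sT20_01 := by decide +kernel

/-- `S_{IJ}` for `I = (2, 0)`, `J = (0, 2)`. -/
def sT20_02 : List (List ℤ) :=
  [[228, 684, 120], [684, 2052, 936], [120, 936, 720]]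

theorem Stab_S20_02 : Stab (2, 0) (0, 2) = sT20_02 := by decide +kernel

/-- `S_{IJ}` for `I = (2, 0)`, `J = (1, 0)`. -/
def sT20_10 : List (List ℤ) :=
  [[20, 228, 228, 228, 20], [0, 234, 1026, 1026, 234], [0, 0, 240, 624, 240]]

theorem Stab_S20_10 : Stab (2, 0) (1, 0) = sT20_10 := by decide +kernel

/-- `S_{IJ}` for `I = (2, 0)`, `J = (1, 1)`. -/
def sT20_11 : List (List ℤ) :=
  [[228, 456, 684, 80], [234, 2052, 3078, 936], [0, 480, 1872, 960]]

theorem Stab_S20_11 : Stab (2, 0) (1, 1) = sT20_11 := by decide +kernel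

/-- `S_{IJ}` for `I = (2, 0)`, `J = (2, 0)`. -/
def sT20_20 : List (List ℤ) :=
  [[20, 228, 228, 228, 20], [0, 468, 2052, 2052, 468], [0, 0, 720, 1872, 720]]

theorem Stab_S20_20 : Stab (2, 0) (2, 0) = sT20_20 := by decide +kernel

/-- A coefficient polynomial of the approximate Christoffel symbols. -/
def qa1 : List (List ℤ) :=
  [[-13, -37, -37, -13], [-10, -37, -57, -77], [0, -13, -77, -77, -13], [0, 0, -10, -26, -10]]

/-- A coefficient polynomial of the approximate Christoffel symbols. -/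
def qa2 : List (List ℤ) :=
  [[13, 10], [40, -40, -13], [40, 0, -40], [13, 40, -40], [0, -10, -13]]

/-- A coefficient polynomial of the approximate Christoffel symbols. -/
def qa3 : List (List ℤ) :=
  [[10], [-40], [], [40], [-10]]

/-- A coefficient polynomial of the approximate Christoffel symbols. -/
def qb1 : List (List ℤ) :=
  [[-13, -10], [-37, -37, -13], [-37, -57, -77, -10], [-13, -77, -77, -26], [0, 0, -13, -10]]

/-- A coefficient polynomial of the approximate Christoffel symbols. -/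
def qb2 : List (List ℤ) :=
  [[13, 40, 40, 13], [10, -40, 0, 40, -10], [0, -13, -40, -40, -13]]

/-- A coefficient polynomial of the approximate Christoffel symbols. -/
def qb3 : List (List ℤ) :=
  [[10, -40, 0, 40, -10]]

/-- The polynomial `X`. -/
def pX : List (List ℤ) := [[], [1]]

/-- The polynomial `Y`. -/
def pY : List (List ℤ) := [[0, 1]]

/-- Part of the coefficient `Na`. -/
def Na0 : List (List ℤ) :=
  add2 (mul2 pY (mul2 pY (mul2 pX (mul2 pX (mul2 qb3 (mul2 qb3 (mul2 sT01_00 sT01_00)))))))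
    (add2 (smul2 (2) (mul2 pY (mul2 pX (mul2 pX (mul2 qb3 (mul2 qa1 (mul2 sT10_00 sT01_00)))))))
    (add2 (mul2 pX (mul2 pX (mul2 qa1 (mul2 qa1 (mul2 sT10_00 sT10_00)))))
    (add2 (smul2 (4) (mul2 pY (mul2 pX (mul2 pX (mul2 qb3 (mul2 sT10_00 (mul2 sT10_00 sT01_00)))))))
    (add2 (smul2 (4) (mul2 pX (mul2 pX (mul2 qa1 (mul2 sT10_00 (mul2 sT10_00 sT10_00))))))
    (smul2 (6) (mul2 pX (mul2 pX (mul2 sT10_00 (mul2 sT10_00 (mul2 sT10_00 sT10_00))))))))))

/-- Part of the coefficient `Na`. -/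
def Na1 : List (List ℤ) :=
  add2 (smul2 (-1) (mul2 pY (mul2 pX (mul2 pX (mul2 qb3 (mul2 qb3 sT01_01))))))
    (add2 (smul2 (-2) (mul2 pY (mul2 pX (mul2 pX (mul2 qb3 (mul2 qa1 sT10_01))))))
    (add2 (smul2 (-1) (mul2 pX (mul2 qa1 (mul2 qa1 sT10_10))))
    (add2 (smul2 (-4) (mul2 pY (mul2 pX (mul2 pX (mul2 qb3 (mul2 sT10_01 sT10_00))))))
    (add2 (smul2 (-2) (mul2 pY (mul2 pX (mul2 pX (mul2 qb3 (mul2 sT20_00 sT01_00))))))
    (add2 (smul2 (-4) (mul2 pX (mul2 qa1 (mul2 sT10_10 sT10_00))))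
    (add2 (smul2 (-2) (mul2 pX (mul2 pX (mul2 qa1 (mul2 sT20_00 sT10_00)))))
    (add2 (smul2 (-8) (mul2 pX (mul2 sT10_10 (mul2 sT10_00 sT10_00))))
    (smul2 (-4) (mul2 pX (mul2 pX (mul2 sT20_00 (mul2 sT10_00 sT10_00))))))))))))

/-- Part of the coefficient `Na`. -/
def Na2 : List (List ℤ) :=
  add2 (smul2 (2) (mul2 pY (mul2 pX (mul2 pX (mul2 qb3 sT20_01)))))
    (add2 (smul2 (2) (mul2 pX (mul2 qa1 sT20_10)))
    (add2 (smul2 (2) (mul2 sT10_10 sT10_10))
    (add2 (mul2 pX (mul2 pX (mul2 sT20_00 sT20_00)))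
    (smul2 (4) (mul2 pX (mul2 sT20_10 sT10_00))))))

/-- Part of the coefficient `Na`. -/
def Na3 : List (List ℤ) :=
  smul2 (-1) (sT20_20)

/-- The coefficient `Na`. -/
def Na : List (List ℤ) :=
  add2 Na0 (mul2 sT00_00 (add2 Na1 (mul2 sT00_00 (add2 Na2 (mul2 sT00_00 Na3)))))

/-- The coefficient `Na`, computed. -/
def NaL : List (List ℤ) :=
  [[5950, 70040, 386892, 1267696, 2587862, 3291012, 2587862, 1267696, 386892, 70040, 5950, 0, 0, 0, 0, 0, 0], [8515, 163844, 1084278, 3197673, 4606436, 3863414, 3863414, 4606436, 3197673, 1084278, 163844, 8515, 0, 0, 0, 0, 0], [8100, 117310, 1194096, 3276008, -339432, -13099822, -20195912, -13099822, -339432, 3276008, 1194096, 117310, 8100, 0, 0, 0, 0], [8515, 86241, 923737, 4965522, 9286025, -2235188, -31445102, -31445102, -2235188, 9286025, 4965522, 923737, 86241, 8515, 0, 0, 0], [5950, 91274, 1688678, 14308188, 68455440, 218915574, 422630188, 523665220, 422630188, 218915574,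 68455440, 14308188, 1688678, 91274, 5950, 0, 0], [0, 7705, 1588587, 18538477, 118065238, 488934540, 1335309164, 2226828489, 2226828489, 1335309164, 488934540, 118065238, 18538477, 1588587, 7705, 0, 0], [0, -11600, 351884, 9015996, 75250776, 379681984, 1299543740, 2856998308, 3739232800, 2856998308, 1299543740, 379681984, 75250776, 9015996, 351884, -11600, 0], [0, 0, 7705, 1588587, 18538477, 118065238, 488934540, 1335309164, 2226828489, 2226828489, 1335309164, 488934540, 118065238, 18538477, 1588587, 7705, 0], [0, 0, 5950, 91274, 1688678, 14308188, 68455440, 218915574, 422630188, 523665220, 422630188, 218915574, 68455440, 14308188, 1688678, 91274, 5950], [0, 0, 0, 8515, 86241, 923737, 4965522, 9286025, -2235188, -31445102, -31445102, -2235188, 9286025, 4965522, 923737, 86241, 8515], [0, 0, 0, 0, 8100, 117310, 1194096, 3276008, -339432, -13099822, -20195912, -13099822, -339432, 3276008, 1194096, 117310, 8100], [0,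 0, 0, 0, 0, 8515, 163844, 1084278, 3197673, 4606436, 3863414, 3863414, 4606436, 3197673, 1084278, 163844, 8515], [0, 0, 0, 0, 0, 0, 5950, 70040, 386892, 1267696, 2587862, 3291012, 2587862, 1267696, 386892, 70040, 5950], [0, 0, 0, 0, 0, 0, 0, 0, 0, 0, 0, 0, 0, 0, 0, 0, 0], [0, 0, 0, 0, 0, 0, 0, 0, 0, 0, 0, 0, 0, 0, 0, 0, 0], [0, 0, 0, 0, 0, 0, 0, 0, 0, 0, 0, 0, 0, 0, 0, 0, 0], [0, 0, 0, 0, 0, 0, 0, 0, 0, 0, 0, 0, 0, 0, 0, 0, 0]]

/-- Part of the coefficient `Nb`. -/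
def Nb0 : List (List ℤ) :=
  add2 (mul2 pY (mul2 pX (mul2 qb2 (mul2 qb2 (mul2 sT01_00 sT01_00)))))
    (add2 (smul2 (2) (mul2 pY (mul2 pX (mul2 qb2 (mul2 qa2 (mul2 sT10_00 sT01_00))))))
    (add2 (mul2 pY (mul2 pX (mul2 qa2 (mul2 qa2 (mul2 sT10_00 sT10_00)))))
    (add2 (smul2 (8) (mul2 pY (mul2 pX (mul2 qb2 (mul2 sT10_00 (mul2 sT01_00 sT01_00))))))
    (add2 (smul2 (8) (mul2 pY (mul2 pX (mul2 qa2 (mul2 sT10_00 (mul2 sT10_00 sT01_00))))))
    (smul2 (24) (mul2 pY (mul2 pX (mul2 sT10_00 (mul2 sT10_00 (mul2 sT01_00 sT01_00))))))))))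

/-- Part of the coefficient `Nb`. -/
def Nb1 : List (List ℤ) :=
  add2 (smul2 (-1) (mul2 pX (mul2 qb2 (mul2 qb2 sT01_01))))
    (add2 (smul2 (-2) (mul2 pY (mul2 pX (mul2 qb2 (mul2 qa2 sT10_01)))))
    (add2 (smul2 (-1) (mul2 pY (mul2 qa2 (mul2 qa2 sT10_10))))
    (add2 (smul2 (-4) (mul2 pX (mul2 qb2 (mul2 sT10_00 sT01_01))))
    (add2 (smul2 (-4) (mul2 pY (mul2 pX (mul2 qb2 (mul2 sT10_01 sT01_00)))))
    (add2 (smul2 (-4) (mul2 pY (mul2 pX (mul2 qb2 (mul2 sT11_00 sT01_00)))))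
    (add2 (smul2 (-4) (mul2 pY (mul2 pX (mul2 qa2 (mul2 sT10_01 sT10_00)))))
    (add2 (smul2 (-4) (mul2 pY (mul2 qa2 (mul2 sT10_10 sT01_00))))
    (add2 (smul2 (-4) (mul2 pY (mul2 pX (mul2 qa2 (mul2 sT11_00 sT10_00)))))
    (add2 (smul2 (-8) (mul2 pX (mul2 sT10_00 (mul2 sT10_00 sT01_01))))
    (add2 (smul2 (-16) (mul2 pY (mul2 pX (mul2 sT10_01 (mul2 sT10_00 sT01_00)))))
    (add2 (smul2 (-8) (mul2 pY (mul2 sT10_10 (mul2 sT01_00 sT01_00))))
    (smul2 (-16) (mul2 pY (mul2 pX (mul2 sT11_00 (mul2 sT10_00 sT01_00))))))))))))))))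

/-- Part of the coefficient `Nb`. -/
def Nb2 : List (List ℤ) :=
  add2 (smul2 (4) (mul2 pX (mul2 qb2 sT11_01)))
    (add2 (smul2 (4) (mul2 pY (mul2 qa2 sT11_10)))
    (add2 (smul2 (4) (mul2 pY (mul2 pX (mul2 sT10_01 sT10_01))))
    (add2 (smul2 (4) (mul2 sT10_10 sT01_01))
    (add2 (smul2 (4) (mul2 pY (mul2 pX (mul2 sT11_00 sT11_00))))
    (add2 (smul2 (8) (mul2 pY (mul2 sT11_10 sT01_00)))
    (smul2 (8) (mul2 pX (mul2 sT11_01 sT10_00))))))))

/-- Part of the coefficient `Nb`. -/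
def Nb3 : List (List ℤ) :=
  smul2 (-4) (sT11_11)

/-- The coefficient `Nb`. -/
def Nb : List (List ℤ) :=
  add2 Nb0 (mul2 sT00_00 (add2 Nb1 (mul2 sT00_00 (add2 Nb2 (mul2 sT00_00 Nb3)))))

/-- The coefficient `Nb`, computed. -/
def NbL : List (List ℤ) :=
  [[-11600, -68825, -200094, -355339, -355339, -200094, -68825, -11600, 0, 0, 0, 0, 0, 0, 0, 0, 0], [-68825, 77456, 527491, -623266, -2033024, -318726, 1673243, 1062452, 224315, 23800, 0, 0, 0, 0, 0, 0, 0], [-200094, 527491, 821678, -9357349, -22309644, -12318636, 9781699, 13598190, 5358343, 710330, 34060, 0, 0, 0, 0, 0, 0], [-355339, -623266, -9357349, -38169810, -75784851, -62232846, 32877249, 77895326, 38397675, 9267090, 762441, 32400, 0, 0, 0, 0, 0], [-355339, -2033024, -22309644, -75784851, -119360738, -10741640, 302418920, 441353934, 235049617, 55439744, 9791616, 762441, 34060, 0, 0, 0, 0], [-200094, -318726, -12318636, -62232846, -10741640, 558780246, 1576210348,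 1969711278, 1164095164, 323932466, 55439744, 9267090, 710330, 23800, 0, 0, 0], [-68825, 1673243, 9781699, 32877249, 302418920, 1576210348, 4003669694, 5179685922, 3436513852, 1164095164, 235049617, 38397675, 5358343, 224315, 0, 0, 0], [-11600, 1062452, 13598190, 77895326, 441353934, 1969711278, 5179685922, 7202811396, 5179685922, 1969711278, 441353934, 77895326, 13598190, 1062452, -11600, 0, 0], [0, 224315, 5358343, 38397675, 235049617, 1164095164, 3436513852, 5179685922, 4003669694, 1576210348, 302418920, 32877249, 9781699, 1673243, -68825, 0, 0], [0, 23800, 710330, 9267090, 55439744, 323932466, 1164095164, 1969711278, 1576210348, 558780246, -10741640, -62232846, -12318636, -318726, -200094, 0, 0], [0, 0, 34060, 762441, 9791616, 55439744, 235049617, 441353934, 302418920, -10741640, -119360738, -75784851, -22309644, -2033024, -355339, 0, 0], [0, 0, 0, 32400, 762441, 9267090, 38397675, 77895326, 32877249, -62232846,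 -75784851, -38169810, -9357349, -623266, -355339, 0, 0], [0, 0, 0, 0, 34060, 710330, 5358343, 13598190, 9781699, -12318636, -22309644, -9357349, 821678, 527491, -200094, 0, 0], [0, 0, 0, 0, 0, 23800, 224315, 1062452, 1673243, -318726, -2033024, -623266, 527491, 77456, -68825, 0, 0], [0, 0, 0, 0, 0, 0, 0, -11600, -68825, -200094, -355339, -355339, -200094, -68825, -11600, 0, 0], [0, 0, 0, 0, 0, 0, 0, 0, 0, 0, 0, 0, 0, 0, 0, 0, 0], [0, 0, 0, 0, 0, 0, 0, 0, 0, 0, 0, 0, 0, 0, 0, 0, 0]]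

/-- Part of the coefficient `Nc`. -/
def Nc0 : List (List ℤ) :=
  add2 (mul2 pY (mul2 pY (mul2 qb1 (mul2 qb1 (mul2 sT01_00 sT01_00)))))
    (add2 (smul2 (2) (mul2 pY (mul2 pY (mul2 pX (mul2 qb1 (mul2 qa3 (mul2 sT10_00 sT01_00)))))))
    (add2 (mul2 pY (mul2 pY (mul2 pX (mul2 pX (mul2 qa3 (mul2 qa3 (mul2 sT10_00 sT10_00)))))))
    (add2 (smul2 (4) (mul2 pY (mul2 pY (mul2 qb1 (mul2 sT01_00 (mul2 sT01_00 sT01_00))))))
    (add2 (smul2 (4) (mul2 pY (mul2 pY (mul2 pX (mul2 qa3 (mul2 sT10_00 (mul2 sT01_00 sT01_00)))))))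
    (smul2 (6) (mul2 pY (mul2 pY (mul2 sT01_00 (mul2 sT01_00 (mul2 sT01_00 sT01_00))))))))))

/-- Part of the coefficient `Nc`. -/
def Nc1 : List (List ℤ) :=
  add2 (smul2 (-1) (mul2 pY (mul2 qb1 (mul2 qb1 sT01_01))))
    (add2 (smul2 (-2) (mul2 pY (mul2 pY (mul2 pX (mul2 qb1 (mul2 qa3 sT10_01))))))
    (add2 (smul2 (-1) (mul2 pY (mul2 pY (mul2 pX (mul2 qa3 (mul2 qa3 sT10_10))))))
    (add2 (smul2 (-4) (mul2 pY (mul2 qb1 (mul2 sT01_01 sT01_00))))
    (add2 (smul2 (-2) (mul2 pY (mul2 pY (mul2 qb1 (mul2 sT02_00 sT01_00)))))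
    (add2 (smul2 (-4) (mul2 pY (mul2 pY (mul2 pX (mul2 qa3 (mul2 sT10_01 sT01_00))))))
    (add2 (smul2 (-2) (mul2 pY (mul2 pY (mul2 pX (mul2 qa3 (mul2 sT10_00 sT02_00))))))
    (add2 (smul2 (-8) (mul2 pY (mul2 sT01_01 (mul2 sT01_00 sT01_00))))
    (smul2 (-4) (mul2 pY (mul2 pY (mul2 sT02_00 (mul2 sT01_00 sT01_00))))))))))))

/-- Part of the coefficient `Nc`. -/
def Nc2 : List (List ℤ) :=
  add2 (smul2 (2) (mul2 pY (mul2 qb1 sT02_01)))
    (add2 (smul2 (2) (mul2 pY (mul2 pY (mul2 pX (mul2 qa3 sT10_02)))))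
    (add2 (smul2 (2) (mul2 sT01_01 sT01_01))
    (add2 (mul2 pY (mul2 pY (mul2 sT02_00 sT02_00)))
    (smul2 (4) (mul2 pY (mul2 sT02_01 sT01_00))))))

/-- Part of the coefficient `Nc`. -/
def Nc3 : List (List ℤ) :=
  smul2 (-1) (sT02_02)

/-- The coefficient `Nc`. -/
def Nc : List (List ℤ) :=
  add2 Nc0 (mul2 sT00_00 (add2 Nc1 (mul2 sT00_00 (add2 Nc2 (mul2 sT00_00 Nc3)))))

/-- The coefficient `Nc`, computed. -/
def NcL : List (List ℤ) :=
  [[5950, 8515, 8100, 8515, 5950, 0, 0, 0, 0, 0, 0, 0, 0, 0, 0, 0, 0], [70040, 163844, 117310, 86241, 91274, 7705, -11600, 0, 0, 0, 0, 0, 0, 0, 0, 0, 0], [386892, 1084278, 1194096, 923737, 1688678, 1588587, 351884, 7705, 5950, 0, 0, 0, 0, 0, 0, 0, 0], [1267696, 3197673, 3276008, 4965522, 14308188, 18538477, 9015996, 1588587, 91274, 8515, 0, 0, 0, 0, 0, 0, 0], [2587862, 4606436, -339432, 9286025, 68455440, 118065238, 75250776, 18538477, 1688678, 86241, 8100, 0, 0, 0, 0, 0, 0],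 [3291012, 3863414, -13099822, -2235188, 218915574, 488934540, 379681984, 118065238, 14308188, 923737, 117310, 8515, 0, 0, 0, 0, 0], [2587862, 3863414, -20195912, -31445102, 422630188, 1335309164, 1299543740, 488934540, 68455440, 4965522, 1194096, 163844, 5950, 0, 0, 0, 0], [1267696, 4606436, -13099822, -31445102, 523665220, 2226828489, 2856998308, 1335309164, 218915574, 9286025, 3276008, 1084278, 70040, 0, 0, 0, 0], [386892, 3197673, -339432, -2235188, 422630188, 2226828489, 3739232800, 2226828489, 422630188, -2235188, -339432, 3197673, 386892, 0, 0, 0, 0], [70040, 1084278, 3276008, 9286025, 218915574, 1335309164, 2856998308, 2226828489, 523665220, -31445102, -13099822, 4606436, 1267696, 0, 0, 0, 0], [5950, 163844, 1194096, 4965522, 68455440, 488934540, 1299543740, 1335309164, 422630188, -31445102, -20195912, 3863414, 2587862, 0, 0, 0, 0], [0, 8515, 117310, 923737, 14308188, 118065238, 379681984, 488934540, 218915574,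 -2235188, -13099822, 3863414, 3291012, 0, 0, 0, 0], [0, 0, 8100, 86241, 1688678, 18538477, 75250776, 118065238, 68455440, 9286025, -339432, 4606436, 2587862, 0, 0, 0, 0], [0, 0, 0, 8515, 91274, 1588587, 9015996, 18538477, 14308188, 4965522, 3276008, 3197673, 1267696, 0, 0, 0, 0], [0, 0, 0, 0, 5950, 7705, 351884, 1588587, 1688678, 923737, 1194096, 1084278, 386892, 0, 0, 0, 0], [0, 0, 0, 0, 0, 0, -11600, 7705, 91274, 86241, 117310, 163844, 70040, 0, 0, 0, 0], [0, 0, 0, 0, 0, 0, 0, 0, 5950, 8515, 8100, 8515, 5950, 0, 0, 0, 0]]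

/-- Part of the coefficient `Nd`. -/
def Nd0 : List (List ℤ) :=
  add2 (mul2 pY (mul2 pX (mul2 qb3 (mul2 qb2 (mul2 sT01_00 sT01_00)))))
    (add2 (mul2 pY (mul2 pX (mul2 qb3 (mul2 qa2 (mul2 sT10_00 sT01_00)))))
    (add2 (mul2 pX (mul2 qb2 (mul2 qa1 (mul2 sT10_00 sT01_00))))
    (add2 (mul2 pX (mul2 qa2 (mul2 qa1 (mul2 sT10_00 sT10_00))))
    (add2 (smul2 (4) (mul2 pY (mul2 pX (mul2 qb3 (mul2 sT10_00 (mul2 sT01_00 sT01_00))))))
    (add2 (smul2 (4) (mul2 pX (mul2 qa1 (mul2 sT10_00 (mul2 sT10_00 sT01_00)))))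
    (add2 (smul2 (2) (mul2 pX (mul2 qb2 (mul2 sT10_00 (mul2 sT10_00 sT01_00)))))
    (add2 (smul2 (2) (mul2 pX (mul2 qa2 (mul2 sT10_00 (mul2 sT10_00 sT10_00)))))
    (smul2 (12) (mul2 pX (mul2 sT10_00 (mul2 sT10_00 (mul2 sT10_00 sT01_00))))))))))))

/-- Part of the coefficient `Nd`. -/
def Nd1 : List (List ℤ) :=
  add2 (smul2 (-1) (mul2 pX (mul2 qb3 (mul2 qb2 sT01_01))))
    (add2 (smul2 (-1) (mul2 pY (mul2 pX (mul2 qb3 (mul2 qa2 sT10_01)))))
    (add2 (smul2 (-1) (mul2 pX (mul2 qb2 (mul2 qa1 sT10_01))))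
    (add2 (smul2 (-1) (mul2 qa2 (mul2 qa1 sT10_10)))
    (add2 (smul2 (-2) (mul2 pX (mul2 qb3 (mul2 sT10_00 sT01_01))))
    (add2 (smul2 (-2) (mul2 pY (mul2 pX (mul2 qb3 (mul2 sT10_01 sT01_00)))))
    (add2 (smul2 (-2) (mul2 pY (mul2 pX (mul2 qb3 (mul2 sT11_00 sT01_00)))))
    (add2 (smul2 (-2) (mul2 pX (mul2 qa1 (mul2 sT10_01 sT10_00))))
    (add2 (smul2 (-2) (mul2 qa1 (mul2 sT10_10 sT01_00)))
    (add2 (smul2 (-2) (mul2 pX (mul2 qa1 (mul2 sT11_00 sT10_00))))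
    (add2 (smul2 (-2) (mul2 pX (mul2 qb2 (mul2 sT10_01 sT10_00))))
    (add2 (smul2 (-1) (mul2 pX (mul2 qb2 (mul2 sT20_00 sT01_00))))
    (add2 (smul2 (-2) (mul2 qa2 (mul2 sT10_10 sT10_00)))
    (add2 (smul2 (-1) (mul2 pX (mul2 qa2 (mul2 sT20_00 sT10_00))))
    (add2 (smul2 (-8) (mul2 pX (mul2 sT10_01 (mul2 sT10_00 sT10_00))))
    (add2 (smul2 (-8) (mul2 sT10_10 (mul2 sT10_00 sT01_00)))
    (add2 (smul2 (-4) (mul2 pX (mul2 sT11_00 (mul2 sT10_00 sT10_00))))
    (smul2 (-4) (mul2 pX (mul2 sT20_00 (mul2 sT10_00 sT01_00))))))))))))))))))))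

/-- Part of the coefficient `Nd`. -/
def Nd2 : List (List ℤ) :=
  add2 (smul2 (2) (mul2 pX (mul2 qb3 sT11_01)))
    (add2 (smul2 (2) (mul2 qa1 sT11_10))
    (add2 (mul2 pX (mul2 qb2 sT20_01))
    (add2 (mul2 qa2 sT20_10)
    (add2 (smul2 (4) (mul2 sT10_10 sT10_01))
    (add2 (smul2 (2) (mul2 pX (mul2 sT20_00 sT11_00)))
    (add2 (smul2 (2) (mul2 sT20_10 sT01_00))
    (add2 (smul2 (2) (mul2 pX (mul2 sT20_01 sT10_00)))
    (smul2 (4) (mul2 sT11_10 sT10_00)))))))))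

/-- Part of the coefficient `Nd`. -/
def Nd3 : List (List ℤ) :=
  smul2 (-2) (sT20_11)

/-- The coefficient `Nd`. -/
def Nd : List (List ℤ) :=
  add2 Nd0 (mul2 sT00_00 (add2 Nd1 (mul2 sT00_00 (add2 Nd2 (mul2 sT00_00 Nd3)))))

/-- The coefficient `Nd`, computed. -/
def NdL : List (List ℤ) :=
  [[-3245, 140643, 981258, 2511727, 3291012, 2663997, 1554134, 633141, 143325, 11900, 0, 0, 0, 0, 0, 0, 0], [-63762, -123435, 3545, -178326, 1365662, 6361166, 9391198, 6391801, 2291991, 391450, 17030, 0, 0, 0, 0, 0, 0], [-162135, -1278493, -8662748, -29355716, -40265347, -20195912, 14065703, 28676852, 15214764, 3666685, 396755, 16200, 0, 0, 0, 0, 0], [-193204, -2032423, -14471825, -68422592, -142413856, -109735242, 46845038, 137943480, 86994642, 24402869, 3879897, 365686, 17030, 0, 0, 0, 0], [-136332, -707776, -2631407, -28085888, -74793627, 69897430, 523665220, 775362946, 512624775, 164996768, 31247783, 4085132, 318880, 11900,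 0, 0, 0], [-65580, 667312, 11384483, 67522146, 273515479, 870233288, 1932824432, 2520832546, 1800385040, 704353601, 168608330, 25692471, 2509862, 80990, 0, 0, 0], [-11600, 351884, 9015996, 75250776, 379681984, 1299543740, 2856998308, 3739232800, 2856998308, 1299543740, 379681984, 75250776, 9015996, 351884, -11600, 0, 0], [0, 80990, 2509862, 25692471, 168608330, 704353601, 1800385040, 2520832546, 1932824432, 870233288, 273515479, 67522146, 11384483, 667312, -65580, 0, 0], [0, 11900, 318880, 4085132, 31247783, 164996768, 512624775, 775362946, 523665220, 69897430, -74793627, -28085888, -2631407, -707776, -136332, 0, 0], [0, 0, 17030, 365686, 3879897, 24402869, 86994642, 137943480, 46845038, -109735242, -142413856, -68422592, -14471825, -2032423, -193204, 0, 0], [0, 0, 0, 16200, 396755, 3666685, 15214764, 28676852, 14065703, -20195912, -40265347, -29355716, -8662748, -1278493, -162135, 0, 0], [0, 0, 0, 0, 17030, 391450,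 2291991, 6391801, 9391198, 6361166, 1365662, -178326, 3545, -123435, -63762, 0, 0], [0, 0, 0, 0, 0, 11900, 143325, 633141, 1554134, 2663997, 3291012, 2511727, 981258, 140643, -3245, 0, 0], [0, 0, 0, 0, 0, 0, 0, 0, 0, 0, 0, 0, 0, 0, 0, 0, 0], [0, 0, 0, 0, 0, 0, 0, 0, 0, 0, 0, 0, 0, 0, 0, 0, 0], [0, 0, 0, 0, 0, 0, 0, 0, 0, 0, 0, 0, 0, 0, 0, 0, 0], [0, 0, 0, 0, 0, 0, 0, 0, 0, 0, 0, 0, 0, 0, 0, 0, 0]]

/-- Part of the coefficient `Ne`. -/
def Ne0 : List (List ℤ) :=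
  add2 (mul2 pY (mul2 qb2 (mul2 qb1 (mul2 sT01_00 sT01_00))))
    (add2 (mul2 pY (mul2 pX (mul2 qb2 (mul2 qa3 (mul2 sT10_00 sT01_00)))))
    (add2 (mul2 pY (mul2 qb1 (mul2 qa2 (mul2 sT10_00 sT01_00))))
    (add2 (mul2 pY (mul2 pX (mul2 qa3 (mul2 qa2 (mul2 sT10_00 sT10_00)))))
    (add2 (smul2 (2) (mul2 pY (mul2 qb2 (mul2 sT01_00 (mul2 sT01_00 sT01_00)))))
    (add2 (smul2 (2) (mul2 pY (mul2 qa2 (mul2 sT10_00 (mul2 sT01_00 sT01_00)))))
    (add2 (smul2 (4) (mul2 pY (mul2 qb1 (mul2 sT10_00 (mul2 sT01_00 sT01_00)))))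
    (add2 (smul2 (4) (mul2 pY (mul2 pX (mul2 qa3 (mul2 sT10_00 (mul2 sT10_00 sT01_00))))))
    (smul2 (12) (mul2 pY (mul2 sT10_00 (mul2 sT01_00 (mul2 sT01_00 sT01_00))))))))))))

/-- Part of the coefficient `Ne`. -/
def Ne1 : List (List ℤ) :=
  add2 (smul2 (-1) (mul2 qb2 (mul2 qb1 sT01_01)))
    (add2 (smul2 (-1) (mul2 pY (mul2 pX (mul2 qb2 (mul2 qa3 sT10_01)))))
    (add2 (smul2 (-1) (mul2 pY (mul2 qb1 (mul2 qa2 sT10_01))))
    (add2 (smul2 (-1) (mul2 pY (mul2 qa3 (mul2 qa2 sT10_10))))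
    (add2 (smul2 (-2) (mul2 qb2 (mul2 sT01_01 sT01_00)))
    (add2 (smul2 (-1) (mul2 pY (mul2 qb2 (mul2 sT02_00 sT01_00))))
    (add2 (smul2 (-2) (mul2 pY (mul2 qa2 (mul2 sT10_01 sT01_00))))
    (add2 (smul2 (-1) (mul2 pY (mul2 qa2 (mul2 sT10_00 sT02_00))))
    (add2 (smul2 (-2) (mul2 qb1 (mul2 sT10_00 sT01_01)))
    (add2 (smul2 (-2) (mul2 pY (mul2 qb1 (mul2 sT10_01 sT01_00))))
    (add2 (smul2 (-2) (mul2 pY (mul2 qb1 (mul2 sT11_00 sT01_00))))
    (add2 (smul2 (-2) (mul2 pY (mul2 pX (mul2 qa3 (mul2 sT10_01 sT10_00)))))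
    (add2 (smul2 (-2) (mul2 pY (mul2 qa3 (mul2 sT10_10 sT01_00))))
    (add2 (smul2 (-2) (mul2 pY (mul2 pX (mul2 qa3 (mul2 sT11_00 sT10_00)))))
    (add2 (smul2 (-8) (mul2 sT10_00 (mul2 sT01_01 sT01_00)))
    (add2 (smul2 (-8) (mul2 pY (mul2 sT10_01 (mul2 sT01_00 sT01_00))))
    (add2 (smul2 (-4) (mul2 pY (mul2 sT10_00 (mul2 sT02_00 sT01_00))))
    (smul2 (-4) (mul2 pY (mul2 sT11_00 (mul2 sT01_00 sT01_00))))))))))))))))))))

/-- Part of the coefficient `Ne`. -/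
def Ne2 : List (List ℤ) :=
  add2 (mul2 qb2 sT02_01)
    (add2 (mul2 pY (mul2 qa2 sT10_02))
    (add2 (smul2 (2) (mul2 qb1 sT11_01))
    (add2 (smul2 (2) (mul2 pY (mul2 qa3 sT11_10)))
    (add2 (smul2 (4) (mul2 sT10_01 sT01_01))
    (add2 (smul2 (2) (mul2 pY (mul2 sT11_00 sT02_00)))
    (add2 (smul2 (4) (mul2 sT11_01 sT01_00))
    (add2 (smul2 (2) (mul2 pY (mul2 sT10_02 sT01_00)))
    (smul2 (2) (mul2 sT10_00 sT02_01)))))))))

/-- Part of the coefficient `Ne`. -/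
def Ne3 : List (List ℤ) :=
  smul2 (-2) (sT11_02)

/-- The coefficient `Ne`. -/
def Ne : List (List ℤ) :=
  add2 Ne0 (mul2 sT00_00 (add2 Ne1 (mul2 sT00_00 (add2 Ne2 (mul2 sT00_00 Ne3)))))

/-- The coefficient `Ne`, computed. -/
def NeL : List (List ℤ) :=
  [[-3245, -63762, -162135, -193204, -136332, -65580, -11600, 0, 0, 0, 0, 0, 0, 0, 0, 0, 0], [140643, -123435, -1278493, -2032423, -707776, 667312, 351884, 80990, 11900, 0, 0, 0, 0, 0, 0, 0, 0], [981258, 3545, -8662748, -14471825, -2631407, 11384483, 9015996, 2509862, 318880, 17030, 0, 0, 0, 0, 0, 0, 0], [2511727, -178326, -29355716, -68422592, -28085888, 67522146, 75250776, 25692471, 4085132, 365686, 16200, 0, 0, 0, 0, 0, 0], [3291012, 1365662, -40265347, -142413856, -74793627, 273515479, 379681984, 168608330, 31247783, 3879897, 396755, 17030, 0, 0, 0, 0, 0], [2663997, 6361166, -20195912, -109735242, 69897430, 870233288, 1299543740, 704353601, 164996768, 24402869,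 3666685, 391450, 11900, 0, 0, 0, 0], [1554134, 9391198, 14065703, 46845038, 523665220, 1932824432, 2856998308, 1800385040, 512624775, 86994642, 15214764, 2291991, 143325, 0, 0, 0, 0], [633141, 6391801, 28676852, 137943480, 775362946, 2520832546, 3739232800, 2520832546, 775362946, 137943480, 28676852, 6391801, 633141, 0, 0, 0, 0], [143325, 2291991, 15214764, 86994642, 512624775, 1800385040, 2856998308, 1932824432, 523665220, 46845038, 14065703, 9391198, 1554134, 0, 0, 0, 0], [11900, 391450, 3666685, 24402869, 164996768, 704353601, 1299543740, 870233288, 69897430, -109735242, -20195912, 6361166, 2663997, 0, 0, 0, 0], [0, 17030, 396755, 3879897, 31247783, 168608330, 379681984, 273515479, -74793627, -142413856, -40265347, 1365662, 3291012, 0, 0, 0, 0], [0, 0, 16200, 365686, 4085132, 25692471, 75250776, 67522146, -28085888, -68422592, -29355716, -178326, 2511727, 0, 0, 0, 0], [0, 0, 0, 17030, 318880, 2509862, 9015996,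 11384483, -2631407, -14471825, -8662748, 3545, 981258, 0, 0, 0, 0], [0, 0, 0, 0, 11900, 80990, 351884, 667312, -707776, -2032423, -1278493, -123435, 140643, 0, 0, 0, 0], [0, 0, 0, 0, 0, 0, -11600, -65580, -136332, -193204, -162135, -63762, -3245, 0, 0, 0, 0], [0, 0, 0, 0, 0, 0, 0, 0, 0, 0, 0, 0, 0, 0, 0, 0, 0], [0, 0, 0, 0, 0, 0, 0, 0, 0, 0, 0, 0, 0, 0, 0, 0, 0]]

/-- Part of the coefficient `Nf`. -/
def Nf0 : List (List ℤ) :=
  add2 (mul2 pY (mul2 qb3 (mul2 qb1 (mul2 sT01_00 sT01_00))))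
    (add2 (mul2 pY (mul2 pX (mul2 qb3 (mul2 qa3 (mul2 sT10_00 sT01_00)))))
    (add2 (mul2 qb1 (mul2 qa1 (mul2 sT10_00 sT01_00)))
    (add2 (mul2 pX (mul2 qa3 (mul2 qa1 (mul2 sT10_00 sT10_00))))
    (add2 (smul2 (2) (mul2 pY (mul2 qb3 (mul2 sT01_00 (mul2 sT01_00 sT01_00)))))
    (add2 (smul2 (2) (mul2 qa1 (mul2 sT10_00 (mul2 sT01_00 sT01_00))))
    (add2 (smul2 (2) (mul2 qb1 (mul2 sT10_00 (mul2 sT10_00 sT01_00))))
    (add2 (smul2 (2) (mul2 pX (mul2 qa3 (mul2 sT10_00 (mul2 sT10_00 sT10_00)))))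
    (smul2 (6) (mul2 sT10_00 (mul2 sT10_00 (mul2 sT01_00 sT01_00)))))))))))

/-- Part of the coefficient `Nf`. -/
def Nf1 : List (List ℤ) :=
  add2 (smul2 (-1) (mul2 qb3 (mul2 qb1 sT01_01)))
    (add2 (smul2 (-1) (mul2 pY (mul2 pX (mul2 qb3 (mul2 qa3 sT10_01)))))
    (add2 (smul2 (-1) (mul2 qb1 (mul2 qa1 sT10_01)))
    (add2 (smul2 (-1) (mul2 qa3 (mul2 qa1 sT10_10)))
    (add2 (smul2 (-2) (mul2 qb3 (mul2 sT01_01 sT01_00)))
    (add2 (smul2 (-1) (mul2 pY (mul2 qb3 (mul2 sT02_00 sT01_00))))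
    (add2 (smul2 (-2) (mul2 qa1 (mul2 sT10_01 sT01_00)))
    (add2 (smul2 (-1) (mul2 qa1 (mul2 sT10_00 sT02_00)))
    (add2 (smul2 (-2) (mul2 qb1 (mul2 sT10_01 sT10_00)))
    (add2 (smul2 (-1) (mul2 qb1 (mul2 sT20_00 sT01_00)))
    (add2 (smul2 (-2) (mul2 qa3 (mul2 sT10_10 sT10_00)))
    (add2 (smul2 (-1) (mul2 pX (mul2 qa3 (mul2 sT20_00 sT10_00))))
    (add2 (smul2 (-8) (mul2 sT10_01 (mul2 sT10_00 sT01_00)))
    (add2 (smul2 (-2) (mul2 sT10_00 (mul2 sT10_00 sT02_00)))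
    (smul2 (-2) (mul2 sT20_00 (mul2 sT01_00 sT01_00))))))))))))))))

/-- Part of the coefficient `Nf`. -/
def Nf2 : List (List ℤ) :=
  add2 (mul2 qb3 sT02_01)
    (add2 (mul2 qa1 sT10_02)
    (add2 (mul2 qb1 sT20_01)
    (add2 (mul2 qa3 sT20_10)
    (add2 (smul2 (2) (mul2 sT10_01 sT10_01))
    (add2 (mul2 sT20_00 sT02_00)
    (add2 (smul2 (2) (mul2 sT20_01 sT01_00))
    (smul2 (2) (mul2 sT10_02 sT10_00))))))))

/-- Part of the coefficient `Nf`. -/
def Nf3 : List (List ℤ) :=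
  smul2 (-1) (sT20_02)

/-- The coefficient `Nf`. -/
def Nf : List (List ℤ) :=
  add2 Nf0 (mul2 sT00_00 (add2 Nf1 (mul2 sT00_00 (add2 Nf2 (mul2 sT00_00 Nf3)))))

/-- The coefficient `Nf`, computed. -/
def NfL : List (List ℤ) :=
  [[31608, 212384, 498227, 629595, 574362, 498822, 277857, 73285, 5950, 0, 0, 0, 0, 0, 0, 0, 0], [212384, 906576, 1165617, 788285, 3286037, 5950379, 4100704, 1420097, 227606, 8515, 0, 0, 0, 0, 0, 0, 0], [498227, 1165617, -1661707, -9855996, -7067421, 17309529, 27354577, 13104373, 2970816, 279445, 8100, 0, 0, 0, 0, 0, 0], [629595, 788285, -9855996, -33071163, -28426015, 49864125, 107107505, 67852621, 20225632, 3585755, 279445, 8515, 0, 0, 0, 0, 0], [574362, 3286037, -7067421, -28426015, 87546419, 343960724, 440279177, 265283186, 89473907, 20225632, 2970816, 227606, 5950, 0, 0, 0, 0], [498822, 5950379, 17309529, 49864125, 343960724, 1065484682, 1359488739, 809036600, 265283186, 67852621,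 13104373, 1420097, 73285, 0, 0, 0, 0], [277857, 4100704, 27354577, 107107505, 440279177, 1359488739, 2007443502, 1359488739, 440279177, 107107505, 27354577, 4100704, 277857, 0, 0, 0, 0], [73285, 1420097, 13104373, 67852621, 265283186, 809036600, 1359488739, 1065484682, 343960724, 49864125, 17309529, 5950379, 498822, 0, 0, 0, 0], [5950, 227606, 2970816, 20225632, 89473907, 265283186, 440279177, 343960724, 87546419, -28426015, -7067421, 3286037, 574362, 0, 0, 0, 0], [0, 8515, 279445, 3585755, 20225632, 67852621, 107107505, 49864125, -28426015, -33071163, -9855996, 788285, 629595, 0, 0, 0, 0], [0, 0, 8100, 279445, 2970816, 13104373, 27354577, 17309529, -7067421, -9855996, -1661707, 1165617, 498227, 0, 0, 0, 0], [0, 0, 0, 8515, 227606, 1420097, 4100704, 5950379, 3286037, 788285, 1165617, 906576, 212384, 0, 0, 0, 0], [0, 0, 0, 0, 5950, 73285, 277857, 498822, 574362, 629595, 498227, 212384, 31608, 0, 0, 0, 0], [0, 0,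 0, 0, 0, 0, 0, 0, 0, 0, 0, 0, 0, 0, 0, 0, 0], [0, 0, 0, 0, 0, 0, 0, 0, 0, 0, 0, 0, 0, 0, 0, 0, 0], [0, 0, 0, 0, 0, 0, 0, 0, 0, 0, 0, 0, 0, 0, 0, 0, 0], [0, 0, 0, 0, 0, 0, 0, 0, 0, 0, 0, 0, 0, 0, 0, 0, 0]]

/-- All coefficients vanish. -/
def isZero1 : List ℤ → Bool
  | [] => true
  | a :: l => (a == 0) && isZero1 l

/-- All coefficients vanish. -/
def isZero2 : List (List ℤ) → Bool
  | [] => true
  | a :: l => isZero1 a && isZero2 l

theorem Na_chk : isZero2 (add2 Na (smul2 (-1) NaL)) = true := by decide +kernel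

theorem Nb_chk : isZero2 (add2 Nb (smul2 (-1) NbL)) = true := by decide +kernel

theorem Nc_chk : isZero2 (add2 Nc (smul2 (-1) NcL)) = true := by decide +kernel

theorem Nd_chk : isZero2 (add2 Nd (smul2 (-1) NdL)) = true := by decide +kernel

theorem Ne_chk : isZero2 (add2 Ne (smul2 (-1) NeL)) = true := by decide +kernel

theorem Nf_chk : isZero2 (add2 Nf (smul2 (-1) NfL)) = true := by decide +kernel

end Pool.Agent.LibH27.HSC
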