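import Pool.Agent.Lib_helper27.HSC.Defs

/-!
# The Riemann sphere
-/

namespace Pool.Agent.LibH27.HSC

open scoped Topology
open OnePoint Filter Set

/-- The Riemann sphere `ℙ¹ = ℂ ∪ {∞}`. -/
abbrev P1 : Type := OnePoint ℂ

/-- The homogeneous coordinate `x₁` of the point `x = [x₀ : x₁] = x₁ / x₀` of `ℙ¹`, for the
representatives `[1 : x]` of `x ∈ ℂ` and `[0 : 1]` of `∞`. -/
def num (x : P1) : ℂ := x.elim 1 id

/-- The homogeneous coordinate `x₀` of the point `x = [x₀ : x₁] = x₁ / x₀` of `ℙ¹`, for the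
representatives `[1 : x]` of `x ∈ ℂ` and `[0 : 1]` of `∞`. -/
def den (x : P1) : ℂ := x.elim 0 fun _ => 1

@[simp] theorem num_infty : num ∞ = 1 := rfl
@[simp] theorem num_coe (z : ℂ) : num (z : P1) = z := rfl
@[simp] theorem den_infty : den ∞ = 0 := rfl
@[simp] theorem den_coe (z : ℂ) : den (z : P1) = 1 := rfl

open Classical in
/-- The inversion `x ↦ 1/x` of `ℙ¹`. -/
noncomputable def inv1 (x : P1) : P1 :=
  x.elim ((0 : ℂ) : P1) fun z => if z = 0 then ∞ else ((z⁻¹ : ℂ) : P1)

@[simp] theorem inv1_infty : inv1 ∞ = ((0 : ℂ) : P1) := rfl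
@[simp] theorem inv1_zero : inv1 ((0 : ℂ) : P1) = ∞ := by simp [inv1]
theorem inv1_coe {z : ℂ} (hz : z ≠ 0) : inv1 (z : P1) = ((z⁻¹ : ℂ) : P1) := by
  simp [inv1, hz]

theorem inv1_inv1 (x : P1) : inv1 (inv1 x) = x := by
  induction x using OnePoint.rec with
  | infty => simp
  | coe z =>
    by_cases hz : z = 0
    · subst hz; simp
    · rw [inv1_coe hz, inv1_coe (inv_ne_zero hz), inv_inv]

theorem continuous_inv1 : Continuous inv1 := by
  rw [OnePoint.continuous_iff]
  constructor
  · rw [coclosedCompact_eq_cocompact, ← Metric.cobounded_eq_cocompact]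
    have h1 : Tendsto (fun x : ℂ => ((x⁻¹ : ℂ) : P1)) (Bornology.cobounded ℂ)
        (𝓝 ((0 : ℂ) : P1)) :=
      (OnePoint.continuous_coe.tendsto 0).comp tendsto_inv₀_cobounded
    refine h1.congr' ?_
    filter_upwards [Bornology.eventually_ne_cobounded (0 : ℂ)] with x hx
    rw [inv1_coe hx]
  · rw [continuous_iff_continuousAt]
    intro z
    by_cases hz : z = 0
    · subst hz
      rw [ContinuousAt, inv1_zero]
      have h2 : Tendsto (fun x : ℂ => inv1 (x : P1)) (𝓝[≠] 0) (𝓝 ∞) := by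
        have h3 : Tendsto (fun x : ℂ => ((x⁻¹ : ℂ) : P1)) (𝓝[≠] 0) (𝓝 ∞) := by
          have h4 : Tendsto (fun x : ℂ => (x : P1)) (Bornology.cobounded ℂ) (𝓝 ∞) := by
            rw [Metric.cobounded_eq_cocompact, ← coclosedCompact_eq_cocompact]
            exact OnePoint.tendsto_coe_infty
          exact h4.comp tendsto_inv₀_nhdsNE_zero
        refine h3.congr' ?_
        filter_upwards [self_mem_nhdsWithin] with x hx
        rw [inv1_coe hx]
      rw [← nhdsNE_sup_pure, tendsto_sup]
      refine ⟨h2, ?_⟩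
      rw [tendsto_pure_left]
      intro s hs
      rw [inv1_zero]
      exact mem_of_mem_nhds hs
    · have h1 : ContinuousAt (fun x : ℂ => ((x⁻¹ : ℂ) : P1)) z :=
        (OnePoint.continuous_coe.continuousAt).comp (continuousAt_inv₀ hz)
      refine h1.congr ?_
      filter_upwards [isOpen_compl_singleton.mem_nhds hz] with x hx
      rw [inv1_coe hx]

/-- `inv1` exchanges the two homogeneous coordinates. -/
theorem inv1_scale (x : P1) : ∃ u : ℂ, u ≠ 0 ∧ num (inv1 x) = u * den x ∧
    den (inv1 x) = u * num x := by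
  induction x using OnePoint.rec with
  | infty => exact ⟨1, one_ne_zero, by simp, by simp⟩
  | coe z =>
    by_cases hz : z = 0
    · subst hz; exact ⟨1, one_ne_zero, by simp, by simp⟩
    · refine ⟨z⁻¹, inv_ne_zero hz, ?_, ?_⟩
      · rw [inv1_coe hz]; simp
      · rw [inv1_coe hz]; simp [hz]

/-- The finite part of a point of `ℙ¹` (`0` for `∞`). -/
def fin (x : P1) : ℂ := x.elim 0 id

@[simp] theorem fin_infty : fin ∞ = 0 := rfl
@[simp] theorem fin_coe (z : ℂ) : fin (z : P1) = z := rfl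

theorem coe_fin {x : P1} (hx : x ≠ ∞) : ((fin x : ℂ) : P1) = x := by
  induction x using OnePoint.rec with
  | infty => exact absurd rfl hx
  | coe z => rfl

theorem fin_inv1 (x : P1) : fin (inv1 x) = (fin x)⁻¹ := by
  induction x using OnePoint.rec with
  | infty => simp
  | coe z =>
    by_cases hz : z = 0
    · subst hz; simp
    · rw [inv1_coe hz]; simp

theorem inv1_ne_infty {x : P1} : inv1 x ≠ ∞ ↔ x ≠ ((0 : ℂ) : P1) := by
  constructor
  · rintro h rfl; exact h inv1_zero
  · intro h h'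
    apply h
    rw [← inv1_inv1 x, h', inv1_infty]

theorem coe_ne_zero_iff {z : ℂ} : ((z : ℂ) : P1) ≠ ((0 : ℂ) : P1) ↔ z ≠ 0 := by
  rw [ne_eq, OnePoint.coe_eq_coe]

theorem continuousAt_fin {x : P1} (hx : x ≠ ∞) : ContinuousAt fin x := by
  induction x using OnePoint.rec with
  | infty => exact absurd rfl hx
  | coe z =>
    rw [OnePoint.continuousAt_coe]
    exact continuousAt_id

theorem isOpen_ne_infty : IsOpen {x : P1 | x ≠ ∞} := isOpen_compl_singleton

end Pool.Agent.LibH27.HSC
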