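import Pool.Agent.Lib_helper27.HSC.P1

/-!
# The complex structure of the Riemann sphere, and coordinates on `ℙ¹ × ℙ¹`
-/

namespace Pool.Agent.LibH27.HSC

open scoped Topology Manifold ContDiff
open Filter Set

attribute [-instance] TopCat.of.chartedSpace

/-- The chart `x ↦ x` of `ℙ¹` on the complement of `∞`. -/
noncomputable def cfin : OpenPartialHomeomorph P1 ℂ where
  toFun := fin
  invFun z := (z : P1)
  source := {x | x ≠ OnePoint.infty}
  target := univ
  map_source' _ _ := mem_univ _
  map_target' _ _ := OnePoint.coe_ne_infty _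
  left_inv' _ hx := coe_fin hx
  right_inv' _ _ := rfl
  open_source := isOpen_ne_infty
  open_target := isOpen_univ
  continuousOn_toFun _ hx := (continuousAt_fin hx).continuousWithinAt
  continuousOn_invFun := OnePoint.continuous_coe.continuousOn

/-- The inversion as a homeomorphism. -/
noncomputable def invHomeo : P1 ≃ₜ P1 where
  toFun := inv1
  invFun := inv1
  left_inv := inv1_inv1
  right_inv := inv1_inv1
  continuous_toFun := continuous_inv1
  continuous_invFun := continuous_inv1

/-- The chart `x ↦ 1/x` of `ℙ¹` on the complement of `0`. -/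
noncomputable def cinf : OpenPartialHomeomorph P1 ℂ := invHomeo.toOpenPartialHomeomorph ≫ₕ cfin

theorem cinf_apply (x : P1) : cinf x = fin (inv1 x) := rfl
theorem cinf_symm_apply (z : ℂ) : cinf.symm z = inv1 (z : P1) := rfl
theorem mem_cinf_source (x : P1) : x ∈ cinf.source ↔ x ≠ ((0 : ℂ) : P1) := by
  simp only [cinf, OpenPartialHomeomorph.trans_source, Homeomorph.toOpenPartialHomeomorph_source,
    univ_inter, mem_preimage]
  exact inv1_ne_infty
theorem mem_cfin_source (x : P1) : x ∈ cfin.source ↔ x ≠ OnePoint.infty := Iff.rfl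
theorem cinf_target : cinf.target = univ := by
  ext w; simp [cinf, cfin]

open Classical in
noncomputable instance : ChartedSpace ℂ P1 where
  atlas := {cfin, cinf}
  chartAt x := if x = OnePoint.infty then cinf else cfin
  mem_chart_source x := by
    split_ifs with h
    · rw [mem_cinf_source, h]
      exact OnePoint.infty_ne_coe _
    · exact h
  chart_mem_atlas x := by
    split_ifs <;> simp

instance : IsManifold 𝓘(ℂ) ω P1 := by
  refine isManifold_of_contDiffOn 𝓘(ℂ) ω P1 ?_
  have h0 : ContDiffOn ℂ ω (fun z : ℂ => z) univ := contDiffOn_id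
  have h1 : ContDiffOn ℂ ω (fun z : ℂ => z⁻¹) {z | z ≠ 0} :=
    contDiffOn_id.inv fun x hx => hx
  intro e e' he he'
  rcases he with rfl | rfl <;> rcases he' with rfl | rfl
  · exact (h0.congr fun z _ => rfl).mono (subset_univ _)
  · refine (h1.congr fun z _ => ?_).mono ?_
    · change cinf (cfin.symm z) = z⁻¹
      rw [cinf_apply, fin_inv1]; rfl
    · intro z hz
      have h2 : cfin.symm z ∈ cinf.source := hz.1.2
      rw [mem_cinf_source] at h2
      exact coe_ne_zero_iff.1 h2
  · refine (h1.congr fun z _ => ?_).mono ?_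
    · change cfin (cinf.symm z) = z⁻¹
      rw [cinf_symm_apply]
      change fin (inv1 (z : P1)) = z⁻¹
      rw [fin_inv1]; rfl
    · intro z hz
      have h2 : cinf.symm z ∈ cfin.source := hz.1.2
      rw [mem_cfin_source, cinf_symm_apply, inv1_ne_infty] at h2
      exact coe_ne_zero_iff.1 h2
  · refine (h0.congr fun z _ => ?_).mono (subset_univ _)
    change cinf (cinf.symm z) = z
    rw [cinf_apply, cinf_symm_apply, inv1_inv1]; rfl

theorem cfin_mem : cfin ∈ IsManifold.maximalAtlas 𝓘(ℂ) ω P1 :=
  IsManifold.subset_maximalAtlas (Or.inl rfl)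

theorem cinf_mem : cinf ∈ IsManifold.maximalAtlas 𝓘(ℂ) ω P1 :=
  IsManifold.subset_maximalAtlas (Or.inr rfl)

/-- The chart `(x, y) ↦ (c x, c' y)` of `ℙ¹ × ℙ¹`. -/
noncomputable def pchart (c c' : OpenPartialHomeomorph P1 ℂ) :
    OpenPartialHomeomorph (P1 × P1) C2 :=
  (c.prod c') ≫ₕ ((ContinuousLinearEquiv.finTwoArrow ℂ ℂ).symm.toHomeomorph
    |>.toOpenPartialHomeomorph)

theorem pchart_apply (c c' : OpenPartialHomeomorph P1 ℂ) (p : P1 × P1) :
    pchart c c' p = ![c p.1, c' p.2] := rfl

theorem pchart_symm_apply (c c' : OpenPartialHomeomorph P1 ℂ) (w : C2) :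
    (pchart c c').symm w = (c.symm (w 0), c'.symm (w 1)) := rfl

theorem mem_pchart_source (c c' : OpenPartialHomeomorph P1 ℂ) (p : P1 × P1) :
    p ∈ (pchart c c').source ↔ p.1 ∈ c.source ∧ p.2 ∈ c'.source := by
  simp [pchart]

theorem pchart_target {c c' : OpenPartialHomeomorph P1 ℂ} (h : c.target = univ)
    (h' : c'.target = univ) : (pchart c c').target = univ := by
  ext w
  simp [pchart, h, h']

theorem isHolChart_pchart {c c' : OpenPartialHomeomorph P1 ℂ}
    (h : c ∈ IsManifold.maximalAtlas 𝓘(ℂ) ω P1) (h' : c' ∈ IsManifold.maximalAtlas 𝓘(ℂ) ω P1) :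
    IsHolChart (𝓘(ℂ).prod 𝓘(ℂ)) (pchart c c') := by
  constructor
  · refine contMDiffOn_pi_space.2 fun i => ?_
    fin_cases i
    · refine (contMDiffOn_of_mem_maximalAtlas h).comp contMDiffOn_fst ?_
      intro p hp
      exact ((mem_pchart_source c c' p).1 hp).1
    · refine (contMDiffOn_of_mem_maximalAtlas h').comp contMDiffOn_snd ?_
      intro p hp
      exact ((mem_pchart_source c c' p).1 hp).2
  · have ht : ∀ w ∈ (pchart c c').target, w 0 ∈ c.target ∧ w 1 ∈ c'.target := by
      intro w hw
      have := (pchart c c').map_target hw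
      simpa [pchart] using hw
    refine ContMDiffOn.prodMk ?_ ?_
    · refine (contMDiffOn_symm_of_mem_maximalAtlas h).comp
        (contDiff_apply ℂ ℂ (0 : Fin 2)).contMDiff.contMDiffOn ?_
      intro w hw
      exact (ht w hw).1
    · refine (contMDiffOn_symm_of_mem_maximalAtlas h').comp
        (contDiff_apply ℂ ℂ (1 : Fin 2)).contMDiff.contMDiffOn ?_
      intro w hw
      exact (ht w hw).2

end Pool.Agent.LibH27.HSC
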