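import Pool.Agent.Lib_helper27.HSC.BoxPos

/-!
# The lower bound for the curvature as a real quadratic form
-/

namespace Pool.Agent.LibH27.HSC

open scoped Manifold ContDiff ComplexConjugate Topology ComplexOrder
open Complex Finset

/-- Evaluation at `(|z₀|², |z₁|²)`, as a complex number. -/
noncomputable def ez (z : C2) (L : List (List ℤ)) : ℂ :=
  ((ev2 (normSq (z 0)) (normSq (z 1)) L : ℝ) : ℂ)

theorem pds_0_0 (z : C2) : pd 0 0 z = ez z sT00_00 := by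
  have h := pd_eq (0, 0) (0, 0) z (by decide) (by decide)
  rw [Stab_S00_00] at h
  refine Eq.trans ?_ (h.trans ?_)
  · rfl
  · simp [ez]

theorem pds_0_1 (z : C2) : pd 0 (ee 0) z = z 0 ^ 1 * ez z sT10_00 := by
  have h := pd_eq (0, 0) (1, 0) z (by decide) (by decide)
  rw [Stab_comm, Stab_S10_00] at h
  refine Eq.trans ?_ (h.trans ?_)
  · rfl
  · simp [ez]

theorem pds_0_2 (z : C2) : pd 0 (ee 1) z = z 1 ^ 1 * ez z sT01_00 := by
  have h := pd_eq (0, 0) (0, 1) z (by decide) (by decide)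
  rw [Stab_comm, Stab_S01_00] at h
  refine Eq.trans ?_ (h.trans ?_)
  · rfl
  · simp [ez]

theorem pds_0_3 (z : C2) : pd 0 (ee 0 + ee 0) z = z 0 ^ 2 * ez z sT20_00 := by
  have h := pd_eq (0, 0) (2, 0) z (by decide) (by decide)
  rw [Stab_comm, Stab_S20_00] at h
  refine Eq.trans ?_ (h.trans ?_)
  · rfl
  · simp [ez]

theorem pds_0_4 (z : C2) : pd 0 (ee 0 + ee 1) z = z 0 ^ 1 * z 1 ^ 1 * ez z sT11_00 := by
  have h := pd_eq (0, 0) (1, 1) z (by decide) (by decide)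
  rw [Stab_comm, Stab_S11_00] at h
  refine Eq.trans ?_ (h.trans ?_)
  · rfl
  · simp [ez]

theorem pds_0_5 (z : C2) : pd 0 (ee 1 + ee 0) z = z 0 ^ 1 * z 1 ^ 1 * ez z sT11_00 := by
  have h := pd_eq (0, 0) (1, 1) z (by decide) (by decide)
  rw [Stab_comm, Stab_S11_00] at h
  refine Eq.trans ?_ (h.trans ?_)
  · rfl
  · simp [ez]

theorem pds_0_6 (z : C2) : pd 0 (ee 1 + ee 1) z = z 1 ^ 2 * ez z sT02_00 := by
  have h := pd_eq (0, 0) (0, 2) z (by decide) (by decide)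
  rw [Stab_comm, Stab_S02_00] at h
  refine Eq.trans ?_ (h.trans ?_)
  · rfl
  · simp [ez]

theorem pds_1_0 (z : C2) : pd (ee 0) 0 z = conj (z 0) ^ 1 * ez z sT10_00 := by
  have h := pd_eq (1, 0) (0, 0) z (by decide) (by decide)
  rw [Stab_S10_00] at h
  refine Eq.trans ?_ (h.trans ?_)
  · rfl
  · simp [ez]

theorem pds_1_1 (z : C2) : pd (ee 0) (ee 0) z = ez z sT10_10 := by
  have h := pd_eq (1, 0) (1, 0) z (by decide) (by decide)
  rw [Stab_S10_10] at h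
  refine Eq.trans ?_ (h.trans ?_)
  · rfl
  · simp [ez]

theorem pds_1_2 (z : C2) : pd (ee 0) (ee 1) z = conj (z 0) ^ 1 * z 1 ^ 1 * ez z sT10_01 := by
  have h := pd_eq (1, 0) (0, 1) z (by decide) (by decide)
  rw [Stab_S10_01] at h
  refine Eq.trans ?_ (h.trans ?_)
  · rfl
  · simp [ez]

theorem pds_1_3 (z : C2) : pd (ee 0) (ee 0 + ee 0) z = z 0 ^ 1 * ez z sT20_10 := by
  have h := pd_eq (1, 0) (2, 0) z (by decide) (by decide)
  rw [Stab_comm, Stab_S20_10] at h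
  refine Eq.trans ?_ (h.trans ?_)
  · rfl
  · simp [ez]

theorem pds_1_4 (z : C2) : pd (ee 0) (ee 0 + ee 1) z = z 1 ^ 1 * ez z sT11_10 := by
  have h := pd_eq (1, 0) (1, 1) z (by decide) (by decide)
  rw [Stab_comm, Stab_S11_10] at h
  refine Eq.trans ?_ (h.trans ?_)
  · rfl
  · simp [ez]

theorem pds_1_5 (z : C2) : pd (ee 0) (ee 1 + ee 0) z = z 1 ^ 1 * ez z sT11_10 := by
  have h := pd_eq (1, 0) (1, 1) z (by decide) (by decide)
  rw [Stab_comm, Stab_S11_10] at h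
  refine Eq.trans ?_ (h.trans ?_)
  · rfl
  · simp [ez]

theorem pds_1_6 (z : C2) : pd (ee 0) (ee 1 + ee 1) z = conj (z 0) ^ 1 * z 1 ^ 2 * ez z sT10_02 := by
  have h := pd_eq (1, 0) (0, 2) z (by decide) (by decide)
  rw [Stab_S10_02] at h
  refine Eq.trans ?_ (h.trans ?_)
  · rfl
  · simp [ez]

theorem pds_2_0 (z : C2) : pd (ee 1) 0 z = conj (z 1) ^ 1 * ez z sT01_00 := by
  have h := pd_eq (0, 1) (0, 0) z (by decide) (by decide)
  rw [Stab_S01_00] at h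
  refine Eq.trans ?_ (h.trans ?_)
  · rfl
  · simp [ez]

theorem pds_2_1 (z : C2) : pd (ee 1) (ee 0) z = z 0 ^ 1 * conj (z 1) ^ 1 * ez z sT10_01 := by
  have h := pd_eq (0, 1) (1, 0) z (by decide) (by decide)
  rw [Stab_comm, Stab_S10_01] at h
  refine Eq.trans ?_ (h.trans ?_)
  · rfl
  · simp [ez]

theorem pds_2_2 (z : C2) : pd (ee 1) (ee 1) z = ez z sT01_01 := by
  have h := pd_eq (0, 1) (0, 1) z (by decide) (by decide)
  rw [Stab_S01_01] at h
  refine Eq.trans ?_ (h.trans ?_)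
  · rfl
  · simp [ez]

theorem pds_2_3 (z : C2) : pd (ee 1) (ee 0 + ee 0) z = z 0 ^ 2 * conj (z 1) ^ 1 * ez z sT20_01 := by
  have h := pd_eq (0, 1) (2, 0) z (by decide) (by decide)
  rw [Stab_comm, Stab_S20_01] at h
  refine Eq.trans ?_ (h.trans ?_)
  · rfl
  · simp [ez]

theorem pds_2_4 (z : C2) : pd (ee 1) (ee 0 + ee 1) z = z 0 ^ 1 * ez z sT11_01 := by
  have h := pd_eq (0, 1) (1, 1) z (by decide) (by decide)
  rw [Stab_comm, Stab_S11_01] at h
  refine Eq.trans ?_ (h.trans ?_)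
  · rfl
  · simp [ez]

theorem pds_2_5 (z : C2) : pd (ee 1) (ee 1 + ee 0) z = z 0 ^ 1 * ez z sT11_01 := by
  have h := pd_eq (0, 1) (1, 1) z (by decide) (by decide)
  rw [Stab_comm, Stab_S11_01] at h
  refine Eq.trans ?_ (h.trans ?_)
  · rfl
  · simp [ez]

theorem pds_2_6 (z : C2) : pd (ee 1) (ee 1 + ee 1) z = z 1 ^ 1 * ez z sT02_01 := by
  have h := pd_eq (0, 1) (0, 2) z (by decide) (by decide)
  rw [Stab_comm, Stab_S02_01] at h
  refine Eq.trans ?_ (h.trans ?_)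
  · rfl
  · simp [ez]

theorem pds_3_0 (z : C2) : pd (ee 0 + ee 0) 0 z = conj (z 0) ^ 2 * ez z sT20_00 := by
  have h := pd_eq (2, 0) (0, 0) z (by decide) (by decide)
  rw [Stab_S20_00] at h
  refine Eq.trans ?_ (h.trans ?_)
  · rfl
  · simp [ez]

theorem pds_3_1 (z : C2) : pd (ee 0 + ee 0) (ee 0) z = conj (z 0) ^ 1 * ez z sT20_10 := by
  have h := pd_eq (2, 0) (1, 0) z (by decide) (by decide)
  rw [Stab_S20_10] at h
  refine Eq.trans ?_ (h.trans ?_)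
  · rfl
  · simp [ez]

theorem pds_3_2 (z : C2) : pd (ee 0 + ee 0) (ee 1) z = conj (z 0) ^ 2 * z 1 ^ 1 * ez z sT20_01 := by
  have h := pd_eq (2, 0) (0, 1) z (by decide) (by decide)
  rw [Stab_S20_01] at h
  refine Eq.trans ?_ (h.trans ?_)
  · rfl
  · simp [ez]

theorem pds_3_3 (z : C2) : pd (ee 0 + ee 0) (ee 0 + ee 0) z = ez z sT20_20 := by
  have h := pd_eq (2, 0) (2, 0) z (by decide) (by decide)
  rw [Stab_S20_20] at h
  refine Eq.trans ?_ (h.trans ?_)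
  · rfl
  · simp [ez]

theorem pds_3_4 (z : C2) : pd (ee 0 + ee 0) (ee 0 + ee 1) z = conj (z 0) ^ 1 * z 1 ^ 1 * ez z sT20_11 := by
  have h := pd_eq (2, 0) (1, 1) z (by decide) (by decide)
  rw [Stab_S20_11] at h
  refine Eq.trans ?_ (h.trans ?_)
  · rfl
  · simp [ez]

theorem pds_3_5 (z : C2) : pd (ee 0 + ee 0) (ee 1 + ee 0) z = conj (z 0) ^ 1 * z 1 ^ 1 * ez z sT20_11 := by
  have h := pd_eq (2, 0) (1, 1) z (by decide) (by decide)
  rw [Stab_S20_11] at h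
  refine Eq.trans ?_ (h.trans ?_)
  · rfl
  · simp [ez]

theorem pds_3_6 (z : C2) : pd (ee 0 + ee 0) (ee 1 + ee 1) z = conj (z 0) ^ 2 * z 1 ^ 2 * ez z sT20_02 := by
  have h := pd_eq (2, 0) (0, 2) z (by decide) (by decide)
  rw [Stab_S20_02] at h
  refine Eq.trans ?_ (h.trans ?_)
  · rfl
  · simp [ez]

theorem pds_4_0 (z : C2) : pd (ee 0 + ee 1) 0 z = conj (z 0) ^ 1 * conj (z 1) ^ 1 * ez z sT11_00 := by
  have h := pd_eq (1, 1) (0, 0) z (by decide) (by decide)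
  rw [Stab_S11_00] at h
  refine Eq.trans ?_ (h.trans ?_)
  · rfl
  · simp [ez]

theorem pds_4_1 (z : C2) : pd (ee 0 + ee 1) (ee 0) z = conj (z 1) ^ 1 * ez z sT11_10 := by
  have h := pd_eq (1, 1) (1, 0) z (by decide) (by decide)
  rw [Stab_S11_10] at h
  refine Eq.trans ?_ (h.trans ?_)
  · rfl
  · simp [ez]

theorem pds_4_2 (z : C2) : pd (ee 0 + ee 1) (ee 1) z = conj (z 0) ^ 1 * ez z sT11_01 := by
  have h := pd_eq (1, 1) (0, 1) z (by decide) (by decide)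
  rw [Stab_S11_01] at h
  refine Eq.trans ?_ (h.trans ?_)
  · rfl
  · simp [ez]

theorem pds_4_3 (z : C2) : pd (ee 0 + ee 1) (ee 0 + ee 0) z = z 0 ^ 1 * conj (z 1) ^ 1 * ez z sT20_11 := by
  have h := pd_eq (1, 1) (2, 0) z (by decide) (by decide)
  rw [Stab_comm, Stab_S20_11] at h
  refine Eq.trans ?_ (h.trans ?_)
  · rfl
  · simp [ez]

theorem pds_4_4 (z : C2) : pd (ee 0 + ee 1) (ee 0 + ee 1) z = ez z sT11_11 := by
  have h := pd_eq (1, 1) (1, 1) z (by decide) (by decide)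
  rw [Stab_S11_11] at h
  refine Eq.trans ?_ (h.trans ?_)
  · rfl
  · simp [ez]

theorem pds_4_5 (z : C2) : pd (ee 0 + ee 1) (ee 1 + ee 0) z = ez z sT11_11 := by
  have h := pd_eq (1, 1) (1, 1) z (by decide) (by decide)
  rw [Stab_S11_11] at h
  refine Eq.trans ?_ (h.trans ?_)
  · rfl
  · simp [ez]

theorem pds_4_6 (z : C2) : pd (ee 0 + ee 1) (ee 1 + ee 1) z = conj (z 0) ^ 1 * z 1 ^ 1 * ez z sT11_02 := by
  have h := pd_eq (1, 1) (0, 2) z (by decide) (by decide)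
  rw [Stab_S11_02] at h
  refine Eq.trans ?_ (h.trans ?_)
  · rfl
  · simp [ez]

theorem pds_5_0 (z : C2) : pd (ee 1 + ee 0) 0 z = conj (z 0) ^ 1 * conj (z 1) ^ 1 * ez z sT11_00 := by
  have h := pd_eq (1, 1) (0, 0) z (by decide) (by decide)
  rw [Stab_S11_00] at h
  refine Eq.trans ?_ (h.trans ?_)
  · rfl
  · simp [ez]

theorem pds_5_1 (z : C2) : pd (ee 1 + ee 0) (ee 0) z = conj (z 1) ^ 1 * ez z sT11_10 := by
  have h := pd_eq (1, 1) (1, 0) z (by decide) (by decide)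
  rw [Stab_S11_10] at h
  refine Eq.trans ?_ (h.trans ?_)
  · rfl
  · simp [ez]

theorem pds_5_2 (z : C2) : pd (ee 1 + ee 0) (ee 1) z = conj (z 0) ^ 1 * ez z sT11_01 := by
  have h := pd_eq (1, 1) (0, 1) z (by decide) (by decide)
  rw [Stab_S11_01] at h
  refine Eq.trans ?_ (h.trans ?_)
  · rfl
  · simp [ez]

theorem pds_5_3 (z : C2) : pd (ee 1 + ee 0) (ee 0 + ee 0) z = z 0 ^ 1 * conj (z 1) ^ 1 * ez z sT20_11 := by
  have h := pd_eq (1, 1) (2, 0) z (by decide) (by decide)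
  rw [Stab_comm, Stab_S20_11] at h
  refine Eq.trans ?_ (h.trans ?_)
  · rfl
  · simp [ez]

theorem pds_5_4 (z : C2) : pd (ee 1 + ee 0) (ee 0 + ee 1) z = ez z sT11_11 := by
  have h := pd_eq (1, 1) (1, 1) z (by decide) (by decide)
  rw [Stab_S11_11] at h
  refine Eq.trans ?_ (h.trans ?_)
  · rfl
  · simp [ez]

theorem pds_5_5 (z : C2) : pd (ee 1 + ee 0) (ee 1 + ee 0) z = ez z sT11_11 := by
  have h := pd_eq (1, 1) (1, 1) z (by decide) (by decide)
  rw [Stab_S11_11] at h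
  refine Eq.trans ?_ (h.trans ?_)
  · rfl
  · simp [ez]

theorem pds_5_6 (z : C2) : pd (ee 1 + ee 0) (ee 1 + ee 1) z = conj (z 0) ^ 1 * z 1 ^ 1 * ez z sT11_02 := by
  have h := pd_eq (1, 1) (0, 2) z (by decide) (by decide)
  rw [Stab_S11_02] at h
  refine Eq.trans ?_ (h.trans ?_)
  · rfl
  · simp [ez]

theorem pds_6_0 (z : C2) : pd (ee 1 + ee 1) 0 z = conj (z 1) ^ 2 * ez z sT02_00 := by
  have h := pd_eq (0, 2) (0, 0) z (by decide) (by decide)
  rw [Stab_S02_00] at h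
  refine Eq.trans ?_ (h.trans ?_)
  · rfl
  · simp [ez]

theorem pds_6_1 (z : C2) : pd (ee 1 + ee 1) (ee 0) z = z 0 ^ 1 * conj (z 1) ^ 2 * ez z sT10_02 := by
  have h := pd_eq (0, 2) (1, 0) z (by decide) (by decide)
  rw [Stab_comm, Stab_S10_02] at h
  refine Eq.trans ?_ (h.trans ?_)
  · rfl
  · simp [ez]

theorem pds_6_2 (z : C2) : pd (ee 1 + ee 1) (ee 1) z = conj (z 1) ^ 1 * ez z sT02_01 := by
  have h := pd_eq (0, 2) (0, 1) z (by decide) (by decide)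
  rw [Stab_S02_01] at h
  refine Eq.trans ?_ (h.trans ?_)
  · rfl
  · simp [ez]

theorem pds_6_3 (z : C2) : pd (ee 1 + ee 1) (ee 0 + ee 0) z = z 0 ^ 2 * conj (z 1) ^ 2 * ez z sT20_02 := by
  have h := pd_eq (0, 2) (2, 0) z (by decide) (by decide)
  rw [Stab_comm, Stab_S20_02] at h
  refine Eq.trans ?_ (h.trans ?_)
  · rfl
  · simp [ez]

theorem pds_6_4 (z : C2) : pd (ee 1 + ee 1) (ee 0 + ee 1) z = z 0 ^ 1 * conj (z 1) ^ 1 * ez z sT11_02 := by
  have h := pd_eq (0, 2) (1, 1) z (by decide) (by decide)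
  rw [Stab_comm, Stab_S11_02] at h
  refine Eq.trans ?_ (h.trans ?_)
  · rfl
  · simp [ez]

theorem pds_6_5 (z : C2) : pd (ee 1 + ee 1) (ee 1 + ee 0) z = z 0 ^ 1 * conj (z 1) ^ 1 * ez z sT11_02 := by
  have h := pd_eq (0, 2) (1, 1) z (by decide) (by decide)
  rw [Stab_comm, Stab_S11_02] at h
  refine Eq.trans ?_ (h.trans ?_)
  · rfl
  · simp [ez]

theorem pds_6_6 (z : C2) : pd (ee 1 + ee 1) (ee 1 + ee 1) z = ez z sT02_02 := by
  have h := pd_eq (0, 2) (0, 2) z (by decide) (by decide)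
  rw [Stab_S02_02] at h
  refine Eq.trans ?_ (h.trans ?_)
  · rfl
  · simp [ez]

end Pool.Agent.LibH27.HSC
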