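import Mathlib

/-!
# Integer polynomials in two variables as lists of lists
-/

namespace Pool.Agent.LibH27.HSC

/-- Value at `y` of the polynomial with coefficient list `l`. -/
def ev1 (y : ℝ) : List ℤ → ℝ
  | [] => 0
  | a :: l => a + y * ev1 y l

/-- Value at `(x, y)` of the polynomial with coefficients `L`. -/
def ev2 (x y : ℝ) : List (List ℤ) → ℝ
  | [] => 0
  | r :: L => ev1 y r + x * ev2 x y L

/-- Addition. -/
def add1 : List ℤ → List ℤ → List ℤ
  | [], m => m
  | a :: l, [] => a :: l
  | a :: l, b :: m => (a + b) :: add1 l m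

/-- Multiplication by a constant. -/
def smul1 (c : ℤ) : List ℤ → List ℤ
  | [] => []
  | a :: l => (c * a) :: smul1 c l

/-- Multiplication. -/
def mul1 : List ℤ → List ℤ → List ℤ
  | [], _ => []
  | a :: l, m => add1 (smul1 a m) (0 :: mul1 l m)

/-- Addition. -/
def add2 : List (List ℤ) → List (List ℤ) → List (List ℤ)
  | [], m => m
  | a :: l, [] => a :: l
  | a :: l, b :: m => add1 a b :: add2 l m

/-- Multiplication by a constant. -/
def smul2 (c : ℤ) : List (List ℤ) → List (List ℤ)
  | [] => []
  | a :: l => smul1 c a :: smul2 c l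

/-- Multiplication by a polynomial in the second variable. -/
def pmul2 (r : List ℤ) : List (List ℤ) → List (List ℤ)
  | [] => []
  | a :: l => mul1 r a :: pmul2 r l

/-- Multiplication. -/
def mul2 : List (List ℤ) → List (List ℤ) → List (List ℤ)
  | [], _ => []
  | r :: L, M => add2 (pmul2 r M) ([] :: mul2 L M)

theorem ev1_add1 (y : ℝ) (l m : List ℤ) : ev1 y (add1 l m) = ev1 y l + ev1 y m := by
  induction l generalizing m with
  | nil => simp [add1, ev1]
  | cons a l ih =>
    cases m with
    | nil => simp [add1, ev1]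
    | cons b m => simp only [add1, ev1, ih]; push_cast; ring

theorem ev1_smul1 (y : ℝ) (c : ℤ) (l : List ℤ) : ev1 y (smul1 c l) = c * ev1 y l := by
  induction l with
  | nil => simp [smul1, ev1]
  | cons a l ih => simp only [smul1, ev1, ih]; push_cast; ring

theorem ev1_mul1 (y : ℝ) (l m : List ℤ) : ev1 y (mul1 l m) = ev1 y l * ev1 y m := by
  induction l with
  | nil => simp [mul1, ev1]
  | cons a l ih =>
    simp only [mul1, ev1, ev1_add1, ev1_smul1, ih]; push_cast; ring

theorem ev2_add2 (x y : ℝ) (l m : List (List ℤ)) :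
    ev2 x y (add2 l m) = ev2 x y l + ev2 x y m := by
  induction l generalizing m with
  | nil => simp [add2, ev2]
  | cons a l ih =>
    cases m with
    | nil => simp [add2, ev2]
    | cons b m => simp only [add2, ev2, ih, ev1_add1]; ring

theorem ev2_smul2 (x y : ℝ) (c : ℤ) (l : List (List ℤ)) :
    ev2 x y (smul2 c l) = c * ev2 x y l := by
  induction l with
  | nil => simp [smul2, ev2]
  | cons a l ih => simp only [smul2, ev2, ih, ev1_smul1]; ring

theorem ev2_pmul2 (x y : ℝ) (r : List ℤ) (l : List (List ℤ)) :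
    ev2 x y (pmul2 r l) = ev1 y r * ev2 x y l := by
  induction l with
  | nil => simp [pmul2, ev2]
  | cons a l ih => simp only [pmul2, ev2, ih, ev1_mul1]; ring

theorem ev2_mul2 (x y : ℝ) (l m : List (List ℤ)) :
    ev2 x y (mul2 l m) = ev2 x y l * ev2 x y m := by
  induction l with
  | nil => simp [mul2, ev2]
  | cons a l ih => simp only [mul2, ev2, ev2_add2, ev2_pmul2, ih, ev1]; ring

end Pool.Agent.LibH27.HSC
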