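import Pool.Agent.Lib_helper27.HSC.Form

/-!
# The metric is positive definite, and its curvature is positive on a polydisc
-/

namespace Pool.Agent.LibH27.HSC

open scoped Manifold ContDiff ComplexConjugate Topology ComplexOrder
open Complex Finset

/-- All coefficients are nonnegative. -/
def nn1 : List ℤ → Bool
  | [] => true
  | a :: l => decide (0 ≤ a) && nn1 l

/-- All coefficients are nonnegative. -/
def nn2 : List (List ℤ) → Bool
  | [] => true
  | a :: l => nn1 a && nn2 l

/-- All coefficients are nonnegative and the constant one is positive. -/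
def posC (L : List (List ℤ)) : Bool := nn2 L && decide (0 < (L.headD []).headD 0)

theorem nn1_ev {l : List ℤ} (h : nn1 l = true) {y : ℝ} (hy : 0 ≤ y) : 0 ≤ ev1 y l := by
  induction l with
  | nil => simp [ev1]
  | cons a l ih =>
    simp only [nn1, Bool.and_eq_true, decide_eq_true_eq] at h
    have h1 : (0 : ℝ) ≤ a := by exact_mod_cast h.1
    have := mul_nonneg hy (ih h.2)
    rw [ev1]; linarith

theorem nn2_ev {l : List (List ℤ)} (h : nn2 l = true) {x y : ℝ} (hx : 0 ≤ x) (hy : 0 ≤ y) :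
    0 ≤ ev2 x y l := by
  induction l with
  | nil => simp [ev2]
  | cons a l ih =>
    simp only [nn2, Bool.and_eq_true] at h
    have h1 := nn1_ev h.1 hy
    have := mul_nonneg hx (ih h.2)
    rw [ev2]; linarith

theorem posC_ev {L : List (List ℤ)} (h : posC L = true) {x y : ℝ} (hx : 0 ≤ x) (hy : 0 ≤ y) :
    0 < ev2 x y L := by
  simp only [posC, Bool.and_eq_true, decide_eq_true_eq] at h
  obtain ⟨h1, h2⟩ := h
  cases L with
  | nil => simp at h2
  | cons r L =>
    cases r with
    | nil => simp at h2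
    | cons a r =>
      simp only [List.headD_cons] at h2
      simp only [nn2, nn1, Bool.and_eq_true] at h1
      have e1 := mul_nonneg hy (nn1_ev h1.1.2 hy)
      have e2 := mul_nonneg hx (nn2_ev h1.2 hx hy)
      have e3 : (0 : ℝ) < a := by exact_mod_cast h2
      rw [ev2, ev1]; linarith

/-- `P² g_{0 0̄}`. -/
def g00L : List (List ℤ) :=
  add2 (mul2 sT00_00 sT10_10) (smul2 (-1) (mul2 pX (mul2 sT10_00 sT10_00)))

/-- `P² g_{0 1̄}` up to `z̄₀ z₁`. -/
def g01L : List (List ℤ) :=
  add2 (mul2 sT00_00 sT10_01) (smul2 (-1) (mul2 sT10_00 sT01_00))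

/-- `P² g_{1 1̄}`. -/
def g11L : List (List ℤ) :=
  add2 (mul2 sT00_00 sT01_01) (smul2 (-1) (mul2 pY (mul2 sT01_00 sT01_00)))

/-- `P⁴ det g`. -/
def gdL : List (List ℤ) :=
  add2 (mul2 g00L g11L) (smul2 (-1) (mul2 pX (mul2 pY (mul2 g01L g01L))))

theorem g00L_chk : posC g00L = true := by decide +kernel
theorem gdL_chk : posC gdL = true := by decide +kernel

theorem posDef_of {G : Matrix (Fin 2) (Fin 2) ℂ} {c a d : ℝ} {b : ℂ} (hc : 0 < c) (ha : 0 < a)
    (hdet : normSq b < a * d) (h00 : (c : ℂ) * G 0 0 = a) (h01 : (c : ℂ) * G 0 1 = b)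
    (h10 : (c : ℂ) * G 1 0 = conj b) (h11 : (c : ℂ) * G 1 1 = d) : G.PosDef := by
  have hc' : (c : ℂ) ≠ 0 := by exact_mod_cast hc.ne'
  have ha' : (a : ℂ) ≠ 0 := by exact_mod_cast ha.ne'
  have hH : ∀ i j, conj (G i j) = G j i := by
    have e : ∀ i j, (c : ℂ) * conj (G i j) = (c : ℂ) * G j i → conj (G i j) = G j i :=
      fun i j h => mul_left_cancel₀ hc' h
    intro i j
    apply e
    have : (c : ℂ) * conj (G i j) = conj ((c : ℂ) * G i j) := by
      rw [map_mul, Complex.conj_ofReal]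
    rw [this]
    fin_cases i <;> fin_cases j
    · simp [h00]
    · simp only [Fin.zero_eta, Fin.mk_one]; rw [h01, h10]
    · simp only [Fin.zero_eta, Fin.mk_one]; rw [h01, h10, Complex.conj_conj]
    · simp [h11]
  refine Matrix.PosDef.of_dotProduct_mulVec_pos ?_ ?_
  · ext i j
    rw [Matrix.conjTranspose_apply]
    exact hH j i
  · intro x hx
    have e : star x ⬝ᵥ (G.mulVec x) =
        (((normSq (a * x 0 + b * x 1) + (a * d - normSq b) * normSq (x 1)) / (a * c) : ℝ) : ℂ) := by
      push_cast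
      rw [eq_div_iff (mul_ne_zero ha' hc')]
      simp only [Matrix.mulVec, dotProduct, Fin.sum_univ_two, Pi.star_apply, RCLike.star_def,
        normSq_eq_conj_mul_self, map_add, map_mul, Complex.conj_ofReal]
      linear_combination (a * conj (x 0) * x 0) * h00 + (a * conj (x 0) * x 1) * h01 +
        (a * conj (x 1) * x 0) * h10 + (a * conj (x 1) * x 1) * h11
    rw [e]
    have hpos : 0 < (normSq (a * x 0 + b * x 1) + (a * d - normSq b) * normSq (x 1)) /
        (a * c) := by
      apply div_pos _ (mul_pos ha hc)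
      by_cases h1 : x 1 = 0
      · have h0 : x 0 ≠ 0 := by
          intro h0
          apply hx
          ext i; fin_cases i
          · exact h0
          · exact h1
        rw [h1]
        have : 0 < normSq (a * x 0 + b * 0) := by
          rw [normSq_pos, mul_zero, add_zero]
          exact mul_ne_zero ha' h0
        simpa using this
      · have h2 : 0 < normSq (x 1) := normSq_pos.2 h1
        have h3 := normSq_nonneg (a * x 0 + b * x 1)
        have h4 : 0 < a * d - normSq b := by linarith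
        have := mul_pos h4 h2
        linarith
    exact_mod_cast hpos

theorem posDef_GG (z : C2) : (GG z).PosDef := by
  obtain ⟨x, hx, hP⟩ := pd_zero_eq z
  have hX := normSq_nonneg (z 0)
  have hY := normSq_nonneg (z 1)
  have hg := posC_ev g00L_chk hX hY
  have hd := posC_ev gdL_chk hX hY
  have hN : ∀ L : List (List ℤ), ((ev2 (normSq (z 0)) (normSq (z 1)) L : ℝ) : ℂ) = ez z L :=
    fun _ => rfl
  have hP2 : ((x ^ 2 : ℝ) : ℂ) = pd 0 0 z ^ 2 := by rw [hP]; push_cast; rfl
  refine posDef_of (c := x ^ 2) (a := ev2 (normSq (z 0)) (normSq (z 1)) g00L)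
    (d := ev2 (normSq (z 0)) (normSq (z 1)) g11L)
    (b := conj (z 0) * z 1 * ez z g01L) (by positivity) hg ?_ ?_ ?_ ?_ ?_
  · have e : ev2 (normSq (z 0)) (normSq (z 1)) gdL =
        ev2 (normSq (z 0)) (normSq (z 1)) g00L * ev2 (normSq (z 0)) (normSq (z 1)) g11L -
        normSq (conj (z 0) * z 1 * ez z g01L) := by
      rw [gdL]
      simp only [ev2_add2, ev2_smul2, ev2_mul2, ev2_pX, ev2_pY, normSq_mul, normSq_conj, ez,
        normSq_ofReal]
      push_cast
      ring
    rw [e] at hd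
    linarith
  · rw [hP2, P2_GG, hN]
    simp only [A11, pds_0_0, pds_1_1, pds_1_0, pds_0_1, ez, g00L, ev2_add2, ev2_smul2, ev2_mul2,
      ev2_pX, ev2_pY]
    push_cast
    rw [normSq_eq_conj_mul_self]
    ring
  · rw [hP2, P2_GG]
    simp only [A11, pds_0_0, pds_1_2, pds_1_0, pds_0_2, ez, g01L, ev2_add2, ev2_smul2, ev2_mul2,
      ev2_pX, ev2_pY]
    push_cast
    ring
  · rw [hP2, P2_GG]
    simp only [A11, pds_0_0, pds_2_1, pds_2_0, pds_0_1, ez, g01L, ev2_add2, ev2_smul2, ev2_mul2,
      ev2_pX, ev2_pY, map_mul, Complex.conj_conj, Complex.conj_ofReal]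
    push_cast
    ring
  · rw [hP2, P2_GG, hN]
    simp only [A11, pds_0_0, pds_2_2, pds_2_0, pds_0_2, ez, g11L, ev2_add2, ev2_smul2, ev2_mul2,
      ev2_pX, ev2_pY]
    push_cast
    rw [normSq_eq_conj_mul_self]
    ring

/-- The numerator of the holomorphic sectional curvature. -/
noncomputable def curvSum (g : C2 → Matrix (Fin 2) (Fin 2) ℂ) (z v : C2) : ℂ :=
  ∑ i, ∑ j, ∑ k, ∑ l, curv g z i j k l * v i * conj (v j) * v k * conj (v l)

theorem curvSum_pos (z v : C2) (hX : normSq (z 0) < 3 / 2) (hY : normSq (z 1) < 3 / 2)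
    (hv : v ≠ 0) : 0 < (curvSum GG z v).re := by
  obtain ⟨x, hx, hP⟩ := pd_zero_eq z
  have hx0 : 0 < x := by linarith
  set T : Fin 2 → ℂ := fun q => ∑ i, ∑ k, L21 i k q z * v i * v k with hT
  set w : Fin 2 → ℂ := fun q => rr z * Qv z v q with hw
  have h1 := inv_lower (GG z) (posDef_GG z) T w
  have h2 : (curvSum GG z v).re =
      -(∑ i, ∑ j, ∑ k, ∑ l, L22 i k j l z * v i * conj (v j) * v k * conj (v l)).re +
      (∑ p, ∑ q, T q * (GG z)⁻¹ q p * conj (T p)).re := by
    rw [curvSum, curv_GG, add_re, neg_re]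
  set S1 := ∑ i, ∑ j, ∑ k, ∑ l, L22 i k j l z * v i * conj (v j) * v k * conj (v l) with hS1
  set S2 := ∑ q, T q * conj (w q) with hS2
  set S3 := ∑ p, ∑ q, w p * GG z p q * conj (w q) with hS3
  have key := poly_form z v
  have hrr := P_mul_rr z
  have hr2 : pd 0 0 z ^ 2 * rr z ^ 2 = 1 := by rw [← mul_pow, hrr, one_pow]
  have e1 : (∑ i, ∑ j, ∑ k, ∑ l, A22 i k j l z * v i * conj (v j) * v k * conj (v l)) =
      pd 0 0 z ^ 4 * S1 := by
    simp only [hS1, mul_sum, ← P4_L22]
    refine sum_congr rfl fun i _ => sum_congr rfl fun j _ => sum_congr rfl fun k _ =>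
      sum_congr rfl fun l _ => ?_
    ring
  have e2' : ∀ q, (∑ i, ∑ k, A21 i k q z * v i * v k) = pd 0 0 z ^ 3 * T q := by
    intro q
    simp only [hT, mul_sum, ← P3_L21]
    refine sum_congr rfl fun i _ => sum_congr rfl fun j _ => ?_
    ring
  have e2 : (∑ q, (∑ i, ∑ k, A21 i k q z * v i * v k) * conj (Qv z v q)) =
      pd 0 0 z ^ 4 * S2 := by
    simp only [hS2, mul_sum, e2', hw, map_mul, conj_rr]
    refine sum_congr rfl fun q _ => ?_
    linear_combination (-(pd 0 0 z ^ 3 * T q * conj (Qv z v q))) * hrr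
  have e3 : (∑ q, conj (∑ i, ∑ k, A21 i k q z * v i * v k) * Qv z v q) =
      pd 0 0 z ^ 4 * conj S2 := by
    have : conj (∑ q, (∑ i, ∑ k, A21 i k q z * v i * v k) * conj (Qv z v q)) =
      conj (pd 0 0 z ^ 4 * S2) := by rw [e2]
    rw [map_mul, map_pow, conj_pd] at this
    rw [← this, map_sum]
    refine sum_congr rfl fun q _ => ?_
    rw [map_mul, Complex.conj_conj]
  have e4 : (∑ p, ∑ q, Qv z v p * A11 p q z * conj (Qv z v q)) = pd 0 0 z ^ 4 * S3 := by
    simp only [hS3, mul_sum, ← P2_GG, hw, map_mul, conj_rr]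
    refine sum_congr rfl fun p _ => sum_congr rfl fun q _ => ?_
    linear_combination (-(pd 0 0 z ^ 2 * GG z p q * Qv z v p * conj (Qv z v q))) * hr2
  rw [e1, e2, e3, e4, hP] at key
  have key2 := congrArg Complex.re key
  have e5 : (-((x : ℂ) ^ 4 * S1) + (x : ℂ) ^ 4 * S2 + (x : ℂ) ^ 4 * conj S2 -
      (x : ℂ) ^ 4 * S3).re = x ^ 4 * (-S1.re + 2 * S2.re - S3.re) := by
    rw [← Complex.ofReal_pow]
    simp only [add_re, sub_re, neg_re, re_ofReal_mul, conj_re]
    ring
  rw [e5, Complex.ofReal_re] at key2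
  have hF := Fform_pos (normSq_nonneg (z 0)) hX (normSq_nonneg (z 1)) hY
    (p := normSq (v 0)) (q := normSq (v 1)) (m := (v 0 * conj (v 1) * (conj (z 0) * z 1)).re)
    (by
      have h := normSq_apply (v 0 * conj (v 1) * (conj (z 0) * z 1))
      simp only [normSq_mul, normSq_conj] at h
      nlinarith [sq_nonneg (v 0 * conj (v 1) * (conj (z 0) * z 1)).im])
    (by
      rintro ⟨h0, h1⟩
      apply hv
      ext i; fin_cases i
      · exact normSq_eq_zero.1 h0
      · exact normSq_eq_zero.1 h1)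
  rw [← key2] at hF
  have h3 : 0 < -S1.re + 2 * S2.re - S3.re := (mul_pos_iff_of_pos_left (by positivity)).1 hF
  rw [h2]
  linarith

end Pool.Agent.LibH27.HSC
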