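import Pool.Agent.Lib_helper27.HSC.Tensor

/-!
# The change of coordinates `(s, t) ↦ (s t, 1/s)` and the exchange of the coordinates
-/

namespace Pool.Agent.LibH27.HSC

open scoped Manifold ContDiff ComplexConjugate Topology ComplexOrder
open Complex Finset

theorem SE (X Y : ℝ) (hX : X ≠ 0) :
    ev2 X Y sT00_00 = X ^ 2 * ev2 (X * Y) X⁻¹ sT00_00 ∧
    ev2 X Y sT10_00 = X * (2 * ev2 (X * Y) X⁻¹ sT00_00 + X * Y * ev2 (X * Y) X⁻¹ sT10_00 -
      X⁻¹ * ev2 (X * Y) X⁻¹ sT01_00) ∧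
    ev2 X Y sT01_00 = X ^ 3 * ev2 (X * Y) X⁻¹ sT10_00 ∧
    ev2 X Y sT01_01 = X ^ 3 * ev2 (X * Y) X⁻¹ sT10_10 ∧
    ev2 X Y sT10_01 = X ^ 2 * (2 * ev2 (X * Y) X⁻¹ sT10_00 + ev2 (X * Y) X⁻¹ sT10_10) -
      X * ev2 (X * Y) X⁻¹ sT10_01 ∧
    ev2 X Y sT10_10 = X * (4 * ev2 (X * Y) X⁻¹ sT00_00 +
      4 * (X * Y * ev2 (X * Y) X⁻¹ sT10_00 - X⁻¹ * ev2 (X * Y) X⁻¹ sT01_00) +
      X * Y * ev2 (X * Y) X⁻¹ sT10_10 - 2 * Y * ev2 (X * Y) X⁻¹ sT10_01 +
      X⁻¹ * ev2 (X * Y) X⁻¹ sT01_01) := by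
  simp only [sT00_00, sT10_00, sT01_00, sT01_01, sT10_01, sT10_10, ev2, ev1]
  push_cast
  refine ⟨?_, ?_, ?_, ?_, ?_, ?_⟩ <;> (field_simp; ring)

/-- The change of coordinates. -/
noncomputable def T5 (w : C2) : C2 := ![w 0 * w 1, (w 0)⁻¹]

/-- Its Jacobian matrix (first index: the variable, second index: the component). -/
noncomputable def J5 (w : C2) (i a : Fin 2) : ℂ := ![![w 1, -(w 0 ^ 2)⁻¹], ![w 0, 0]] i a

/-- Its second derivatives. -/
noncomputable def J25 (w : C2) (k i a : Fin 2) : ℂ :=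
  ![![![0, 2 * (w 0 ^ 3)⁻¹], ![1, 0]], ![![1, 0], ![0, 0]]] k i a

theorem hasW_inv0 {w : C2} (hw : w 0 ≠ 0) :
    HasW (fun w => (w 0)⁻¹) ![-(w 0 ^ 2)⁻¹, 0] 0 w := by
  refine ((HasW.coord 0 w).inv hw).congr_ab ?_ ?_
  · ext k; fin_cases k <;> simp
  · simp

theorem compat5 (w : C2) (hw : w 0 ≠ 0) (i j : Fin 2) :
    GG w i j = ∑ a, ∑ b, J5 w i a * GG (T5 w) a b * conj (J5 w j b) := by
  have hX : normSq (w 0) ≠ 0 := by rw [ne_eq, normSq_eq_zero]; exact hw
  obtain ⟨h1, h2, h3, h4, h5, h6⟩ := SE (normSq (w 0)) (normSq (w 1)) hX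
  have hcw : conj (w 0) ≠ 0 := by rwa [ne_eq, map_eq_zero]
  have ev : ∀ L, ez (T5 w) L = ((ev2 (normSq (w 0) * normSq (w 1)) (normSq (w 0))⁻¹ L : ℝ) : ℂ) := by
    intro L
    simp only [ez, T5, Matrix.cons_val_zero, Matrix.cons_val_one, Matrix.cons_val_fin_one,
      normSq_mul, normSq_inv]
  have hE : ∀ L, ez w L = ((ev2 (normSq (w 0)) (normSq (w 1)) L : ℝ) : ℂ) := fun L => rfl
  have hP := pd_zero_ne w
  have hP' := pd_zero_ne (T5 w)
  have key : A11 i j w = (conj (w 0) * w 0) ^ 4 *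
      ∑ a, ∑ b, J5 w i a * A11 a b (T5 w) * conj (J5 w j b) := by
    have hT0 : T5 w 0 = w 0 * w 1 := rfl
    have hT1 : T5 w 1 = (w 0)⁻¹ := rfl
    simp only [Fin.sum_univ_two]
    fin_cases i <;> fin_cases j <;>
    · simp only [Fin.zero_eta, Fin.mk_one, A11, pds_0_0, pds_0_1, pds_0_2, pds_1_0, pds_2_0,
        pds_1_1, pds_1_2, pds_2_1, pds_2_2, J5, Matrix.cons_val_zero, Matrix.cons_val_one,
        Matrix.cons_val_fin_one, map_neg, map_inv₀, map_pow, map_zero, hT0, hT1, map_mul,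
        ev, hE, h1, h2, h3, h4, h5, h6]
      push_cast
      simp only [normSq_eq_conj_mul_self]
      field_simp
      ring
  have e1 := P2_GG i j w
  have hPP : pd 0 0 w = (conj (w 0) * w 0) ^ 2 * pd 0 0 (T5 w) := by
    rw [pds_0_0, pds_0_0, ev, hE, h1]
    push_cast
    rw [normSq_eq_conj_mul_self]
  have e2 : pd 0 0 w ^ 2 * ∑ a, ∑ b, J5 w i a * GG (T5 w) a b * conj (J5 w j b) =
      A11 i j w := by
    rw [key, hPP, mul_pow, mul_sum, mul_sum]
    refine sum_congr rfl fun a _ => ?_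
    rw [mul_sum, mul_sum]
    refine sum_congr rfl fun b _ => ?_
    rw [← P2_GG a b (T5 w)]
    ring
  exact mul_left_cancel₀ (pow_ne_zero 2 hP) (e1.trans e2.symm)

theorem change5 : Change {w | w 0 ≠ 0} T5 J5 J25 where
  isOpen := isOpen_compl_singleton.preimage (continuous_apply 0)
  hT := by
    intro w hw c
    fin_cases c
    · have h := (HasW.coord 0 w).mul (HasW.coord 1 w)
      refine HasW.congr_ab (f := fun w => T5 w 0) h ?_ ?_
      · ext k; fin_cases k <;> simp [J5]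
      · simp
    · refine HasW.congr_ab (f := fun w => T5 w 1) (hasW_inv0 hw) ?_ rfl
      ext k; fin_cases k <;> simp [J5]
  hJ := by
    intro w hw i a
    fin_cases i <;> fin_cases a
    · refine HasW.congr_ab (f := fun w => J5 w 0 0) (HasW.coord 1 w) ?_ rfl
      ext k; fin_cases k <;> simp [J25]
    · have h := (((HasW.coord 0 w).pow 2).inv (pow_ne_zero 2 hw)).neg
      refine HasW.congr_ab (f := fun w => J5 w 0 1) h ?_ ?_
      · ext k
        fin_cases k
        · have hw' : w 0 ≠ 0 := hw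
          simp [J25]
          field_simp
        · simp [J25]
      · simp
    · refine HasW.congr_ab (f := fun w => J5 w 1 0) (HasW.coord 0 w) ?_ rfl
      ext k; fin_cases k <;> simp [J25]
    · refine HasW.congr_ab (f := fun w => J5 w 1 1) (HasW.const 0 w) ?_ rfl
      ext k; fin_cases k <;> simp [J25]
  hJ2 := by
    intro w hw k i a
    have h3 := (((HasW.coord 0 w).pow 3).inv (pow_ne_zero 3 hw)).const_mul 2
    have hc0 := HasW.const 0 w
    have hc1 := HasW.const 1 w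
    fin_cases k <;> fin_cases i <;> fin_cases a
    · exact ⟨_, hc0⟩
    · exact ⟨_, HasW.congr_ab (f := fun w => J25 w 0 0 1) h3 rfl (by simp)⟩
    · exact ⟨_, hc1⟩
    · exact ⟨_, hc0⟩
    · exact ⟨_, hc1⟩
    · exact ⟨_, hc0⟩
    · exact ⟨_, hc0⟩
    · exact ⟨_, hc0⟩
  hdet := by
    intro w hw
    have hw' : w 0 ≠ 0 := hw
    simp only [J5, Matrix.cons_val_zero, Matrix.cons_val_one, Matrix.cons_val_fin_one]
    have : w 1 * 0 - -(w 0 ^ 2)⁻¹ * w 0 = (w 0)⁻¹ := by field_simp; ring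
    rw [this]
    exact inv_ne_zero hw'
  compat := fun w hw i j => compat5 w hw i j

/-- The exchange of the coordinates. -/
def swp (w : C2) : C2 := ![w 1, w 0]

/-- Its Jacobian matrix. -/
def Js (_ : C2) (i a : Fin 2) : ℂ := ![![0, 1], ![1, 0]] i a

theorem cf_symm (a b : ℕ) (ha : a < 5) (hb : b < 5) : cf a b = cf b a := by
  interval_cases a <;> interval_cases b <;> rfl

theorem pd_swp (a b c d : ℕ) (w : C2) : pd (a, b) (c, d) (swp w) = pd (b, a) (d, c) w := by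
  rw [pd, pd, sum_comm]
  refine sum_congr rfl fun x hx => sum_congr rfl fun y hy => ?_
  rw [cf_symm y x (mem_range.1 hy) (mem_range.1 hx)]
  simp only [mono, swp, Matrix.cons_val_zero, Matrix.cons_val_one, Matrix.cons_val_fin_one]
  push_cast
  ring

theorem compat_swp (w : C2) (i j : Fin 2) :
    GG w i j = ∑ a, ∑ b, Js w i a * GG (swp w) a b * conj (Js w j b) := by
  have h0 : (0 : ℕ × ℕ) = (0, 0) := rfl
  simp only [Fin.sum_univ_two, GG, Matrix.of_apply, rr, ee_zero, ee_one, h0, pd_swp]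
  fin_cases i <;> fin_cases j <;> simp [Js]

theorem change_swp : Change Set.univ swp Js (fun _ _ _ _ => 0) where
  isOpen := isOpen_univ
  hT := by
    intro w _ c
    fin_cases c
    · refine HasW.congr_ab (f := fun w => swp w 0) (HasW.coord 1 w) ?_ rfl
      ext k; fin_cases k <;> simp [Js]
    · refine HasW.congr_ab (f := fun w => swp w 1) (HasW.coord 0 w) ?_ rfl
      ext k; fin_cases k <;> simp [Js]
  hJ := fun w _ i a => HasW.const (Js 0 i a) w
  hJ2 := fun w _ k i a => ⟨0, HasW.const 0 w⟩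
  hdet := by
    intro w _
    simp [Js]
  compat := fun w _ i j => compat_swp w i j

end Pool.Agent.LibH27.HSC
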