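import Pool.Agent.Lib_helper27.HSC.Lower
import Pool.Agent.Lib_helper27.HSC.PolyList

/-!
# The derivatives of `P(|z₀|², |z₁|²)` as polynomials in `|z₀|²`, `|z₁|²`
-/

namespace Pool.Agent.LibH27.HSC

open scoped Manifold ContDiff ComplexConjugate Topology ComplexOrder
open Complex Finset

/-- The coefficients of the polynomial `S_{IJ}(X, Y)` such that
`∂^I ∂̄^J P = z̄^{I ∖ J} z^{J ∖ I} S_{IJ}(|z₀|², |z₁|²)`. -/
def Stab (I J : ℕ × ℕ) : List (List ℤ) :=
  (List.range (5 - max I.1 J.1)).map fun a => (List.range (5 - max I.2 J.2)).map fun b =>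
    cf (max I.1 J.1 + a) (max I.2 J.2 + b) *
      (((max I.1 J.1 + a).descFactorial I.1 * (max I.1 J.1 + a).descFactorial J.1 *
        (max I.2 J.2 + b).descFactorial I.2 * (max I.2 J.2 + b).descFactorial J.2 : ℕ) : ℤ)

theorem ev1_map_range (y : ℝ) (n : ℕ) (f : ℕ → ℤ) :
    ev1 y ((List.range n).map f) = ∑ b ∈ range n, (f b : ℝ) * y ^ b := by
  induction n generalizing f with
  | zero => simp [ev1]
  | succ n ih =>
    rw [List.range_succ_eq_map, List.map_cons, List.map_map, ev1, sum_range_succ']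
    have := ih (f ∘ Nat.succ)
    rw [this, mul_sum, add_comm]
    congr 1
    · refine sum_congr rfl fun b _ => ?_
      simp only [Function.comp, Nat.succ_eq_add_one]; ring
    · simp

theorem ev2_map_range (x y : ℝ) (n : ℕ) (f : ℕ → List ℤ) :
    ev2 x y ((List.range n).map f) = ∑ a ∈ range n, ev1 y (f a) * x ^ a := by
  induction n generalizing f with
  | zero => simp [ev2]
  | succ n ih =>
    rw [List.range_succ_eq_map, List.map_cons, List.map_map, ev2, sum_range_succ']
    have := ih (f ∘ Nat.succ)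
    rw [this, mul_sum, add_comm]
    congr 1
    · refine sum_congr rfl fun b _ => ?_
      simp only [Function.comp, Nat.succ_eq_add_one]; ring
    · simp

theorem mono_factor (z : ℂ) (a i j : ℕ) :
    ((a.descFactorial i * a.descFactorial j : ℕ) : ℂ) * (z ^ (a - i) * conj z ^ (a - j)) =
      ((a.descFactorial i * a.descFactorial j : ℕ) : ℂ) *
        (((normSq z : ℝ) : ℂ) ^ (a - max i j) * (conj z ^ (i - j) * z ^ (j - i))) := by
  by_cases h : a < max i j
  · have : a.descFactorial i * a.descFactorial j = 0 := by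
      rcases lt_max_iff.1 h with h | h
      · rw [Nat.descFactorial_of_lt h, zero_mul]
      · rw [Nat.descFactorial_of_lt h, mul_zero]
    rw [this]; simp
  · push Not at h
    congr 1
    rw [normSq_eq_conj_mul_self, mul_pow]
    rcases le_total i j with hij | hij
    · have h1 : i - j = 0 := by omega
      have h2 : max i j = j := max_eq_right hij
      rw [h1, h2, pow_zero, one_mul]
      have h3 : a - i = (a - j) + (j - i) := by omega
      rw [h3, pow_add]; ring
    · have h1 : j - i = 0 := by omega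
      have h2 : max i j = i := max_eq_left hij
      rw [h1, h2, pow_zero, mul_one]
      have h3 : a - j = (a - i) + (i - j) := by omega
      rw [h3, pow_add]; ring

theorem sum_drop {m : ℕ} (hm : m ≤ 5) (f : ℕ → ℂ) (hf : ∀ a, a < m → f a = 0) :
    ∑ a ∈ range 5, f a = ∑ a ∈ range (5 - m), f (m + a) := by
  have h : 5 = m + (5 - m) := by omega
  conv_lhs => rw [h, sum_range_add]
  rw [sum_eq_zero (fun a ha => hf a (mem_range.1 ha)), zero_add]

theorem pd_eq (I J : ℕ × ℕ) (z : C2) (h1 : max I.1 J.1 ≤ 5) (h2 : max I.2 J.2 ≤ 5) :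
    pd I J z = conj (z 0) ^ (I.1 - J.1) * z 0 ^ (J.1 - I.1) * (conj (z 1) ^ (I.2 - J.2) *
      z 1 ^ (J.2 - I.2)) * ((ev2 (normSq (z 0)) (normSq (z 1)) (Stab I J) : ℝ) : ℂ) := by
  have key : ∀ a b : ℕ, ((cf a b : ℂ) *
    ((a.descFactorial I.1 * a.descFactorial J.1 * b.descFactorial I.2 * b.descFactorial J.2 : ℕ) :
      ℂ)) * mono (a - I.1) (a - J.1) (b - I.2) (b - J.2) z =
      (conj (z 0) ^ (I.1 - J.1) * z 0 ^ (J.1 - I.1) * (conj (z 1) ^ (I.2 - J.2) *
      z 1 ^ (J.2 - I.2))) * ((cf a b : ℂ) *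
    ((a.descFactorial I.1 * a.descFactorial J.1 * b.descFactorial I.2 * b.descFactorial J.2 : ℕ) :
      ℂ) * (((normSq (z 0) : ℝ) : ℂ) ^ (a - max I.1 J.1) *
        ((normSq (z 1) : ℝ) : ℂ) ^ (b - max I.2 J.2))) := by
    intro a b
    have e1 := mono_factor (z 0) a I.1 J.1
    have e2 := mono_factor (z 1) b I.2 J.2
    rw [mono]
    calc _ = (cf a b : ℂ) * (((a.descFactorial I.1 * a.descFactorial J.1 : ℕ) : ℂ) *
          (z 0 ^ (a - I.1) * conj (z 0) ^ (a - J.1))) *
          (((b.descFactorial I.2 * b.descFactorial J.2 : ℕ) : ℂ) *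
          (z 1 ^ (b - I.2) * conj (z 1) ^ (b - J.2))) := by push_cast; ring
      _ = _ := by rw [e1, e2]; push_cast; ring
  rw [pd]
  simp only [key]
  simp only [← mul_sum]
  congr 1
  have hz : ∀ a, a < max I.1 J.1 → a.descFactorial I.1 * a.descFactorial J.1 = 0 := by
    intro a h
    rcases lt_max_iff.1 h with h | h
    · rw [Nat.descFactorial_of_lt h, zero_mul]
    · rw [Nat.descFactorial_of_lt h, mul_zero]
  have hz' : ∀ a, a < max I.2 J.2 → a.descFactorial I.2 * a.descFactorial J.2 = 0 := by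
    intro a h
    rcases lt_max_iff.1 h with h | h
    · rw [Nat.descFactorial_of_lt h, zero_mul]
    · rw [Nat.descFactorial_of_lt h, mul_zero]
  rw [sum_drop h1]
  · rw [Stab, ev2_map_range]
    push_cast
    refine sum_congr rfl fun a _ => ?_
    rw [sum_drop h2]
    · rw [ev1_map_range]
      push_cast
      rw [sum_mul]
      refine sum_congr rfl fun b _ => ?_
      rw [Nat.add_sub_cancel_left, Nat.add_sub_cancel_left]
      ring
    · intro b hb
      rcases mul_eq_zero.1 (hz' b hb) with h | h <;> simp [h]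
  · intro a ha
    refine sum_eq_zero fun b _ => ?_
    rw [hz a ha]; simp

theorem Stab_comm (I J : ℕ × ℕ) : Stab I J = Stab J I := by
  simp only [Stab, max_comm J.1 I.1, max_comm J.2 I.2]
  refine List.map_congr_left fun a _ => List.map_congr_left fun b _ => ?_
  congr 2
  ring

end Pool.Agent.LibH27.HSC
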