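import Pool.Agent.Lib_helper27.HSC.PolyList

/-!
# Positivity of a matrix of polynomials on a box, checked on coefficients
-/

namespace Pool.Agent.LibH27.HSC

/-- Multiplication by `a + b s`. -/
def lin1 (a b : ℤ) (F : List ℤ) : List ℤ := add1 (smul1 a F) (0 :: smul1 b F)

/-- Substitution `y = (a + b s) / (d (1 + s))`, cleared of denominators, and the power of the
denominator. -/
def T1 (a b d : ℤ) : List ℤ → List ℤ × List ℤ
  | [] => ([], [1])
  | c :: l => (add1 (smul1 c (T1 a b d l).2) (lin1 a b (T1 a b d l).1), lin1 d d (T1 a b d l).2)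

/-- Multiplication by `a + b s`, where `s` is the first variable. -/
def lin2 (a b : ℤ) (F : List (List ℤ)) : List (List ℤ) := add2 (smul2 a F) ([] :: smul2 b F)

/-- The product of a polynomial in the first variable and one in the second variable. -/
def outer (r : List ℤ) : List ℤ → List (List ℤ)
  | [] => []
  | c :: l => smul1 c r :: outer r l

/-- Substitution `x = (a + b s) / (d (1 + s))` in the first variable. -/
def T2 (a b d : ℤ) : List (List ℤ) → List (List ℤ) × List ℤ
  | [] => ([], [1])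
  | r :: L => (add2 (outer r (T2 a b d L).2) (lin2 a b (T2 a b d L).1), lin1 d d (T2 a b d L).2)

/-- Substitution in the second variable. -/
def T1rows (a b d : ℤ) : List (List ℤ) → List (List ℤ)
  | [] => []
  | r :: L => (T1 a b d r).1 :: T1rows a b d L

theorem ev1_lin1 (s : ℝ) (a b : ℤ) (F : List ℤ) :
    ev1 s (lin1 a b F) = (a + b * s) * ev1 s F := by
  simp only [lin1, ev1_add1, ev1_smul1, ev1]; push_cast; ring

theorem ev2_lin2 (s t : ℝ) (a b : ℤ) (F : List (List ℤ)) :
    ev2 s t (lin2 a b F) = (a + b * s) * ev2 s t F := by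
  simp only [lin2, ev2_add2, ev2_smul2, ev2, ev1]; ring

theorem ev2_outer (s t : ℝ) (r l : List ℤ) : ev2 s t (outer r l) = ev1 s l * ev1 t r := by
  induction l with
  | nil => simp [outer, ev1, ev2]
  | cons c l ih => simp only [outer, ev2, ev1, ev1_smul1, ih]; ring

theorem T1_snd (s : ℝ) (a b d : ℤ) (l : List ℤ) :
    ev1 s (T1 a b d l).2 = (d * (1 + s)) ^ l.length := by
  induction l with
  | nil => simp [T1, ev1]
  | cons c l ih => simp only [T1, ev1_lin1, ih, List.length_cons]; ring

theorem T1_fst (s y : ℝ) (a b d : ℤ) (hy : y * (d * (1 + s)) = a + b * s) (l : List ℤ) :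
    ev1 s (T1 a b d l).1 * (d * (1 + s)) = (d * (1 + s)) ^ l.length * ev1 y l := by
  induction l with
  | nil => simp [T1, ev1]
  | cons c l ih =>
    simp only [T1, ev1_add1, ev1_smul1, ev1_lin1, T1_snd, List.length_cons, ev1]
    linear_combination (a + b * s) * ih - (d * (1 + s)) ^ l.length * ev1 y l * hy

theorem T2_snd (s : ℝ) (a b d : ℤ) (l : List (List ℤ)) :
    ev1 s (T2 a b d l).2 = (d * (1 + s)) ^ l.length := by
  induction l with
  | nil => simp [T2, ev1]
  | cons c l ih => simp only [T2, ev1_lin1, ih, List.length_cons]; ring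

theorem T2_fst (s t x : ℝ) (a b d : ℤ) (hx : x * (d * (1 + s)) = a + b * s)
    (l : List (List ℤ)) :
    ev2 s t (T2 a b d l).1 * (d * (1 + s)) = (d * (1 + s)) ^ l.length * ev2 x t l := by
  induction l with
  | nil => simp [T2, ev2]
  | cons c l ih =>
    simp only [T2, ev2_add2, ev2_outer, ev2_lin2, T2_snd, List.length_cons, ev2]
    linear_combination (a + b * s) * ih - (d * (1 + s)) ^ l.length * ev2 x t l * hx

/-- All rows have length `n`. -/
def rowLen (n : ℕ) : List (List ℤ) → Bool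
  | [] => true
  | r :: L => (r.length == n) && rowLen n L

theorem T1rows_length (a b d : ℤ) (L : List (List ℤ)) : (T1rows a b d L).length = L.length := by
  induction L with
  | nil => rfl
  | cons r L ih => simp [T1rows, ih]

theorem ev2_T1rows (x t y : ℝ) (a b d : ℤ) (hy : y * (d * (1 + t)) = a + b * t) (n : ℕ)
    (L : List (List ℤ)) (hL : rowLen n L = true) :
    ev2 x t (T1rows a b d L) * (d * (1 + t)) = (d * (1 + t)) ^ n * ev2 x y L := by
  induction L with
  | nil => simp [T1rows, ev2]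
  | cons r L ih =>
    simp only [rowLen, Bool.and_eq_true, beq_iff_eq] at hL
    have h1 := T1_fst t y a b d hy r
    rw [hL.1] at h1
    simp only [T1rows, ev2]
    linear_combination h1 + x * ih hL.2

/-- Both substitutions. -/
def TT (a b d a' b' d' : ℤ) (L : List (List ℤ)) : List (List ℤ) :=
  (T2 a b d (T1rows a' b' d' L)).1

theorem ev2_TT (s t x y : ℝ) (a b d a' b' d' : ℤ) (hx : x * (d * (1 + s)) = a + b * s)
    (hy : y * (d' * (1 + t)) = a' + b' * t) (m n : ℕ) (L : List (List ℤ))
    (hL : rowLen n L = true) (hm : L.length = m) :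
    ev2 s t (TT a b d a' b' d' L) * ((d * (1 + s)) * (d' * (1 + t))) =
      (d * (1 + s)) ^ m * (d' * (1 + t)) ^ n * ev2 x y L := by
  have h1 := T2_fst s t x a b d hx (T1rows a' b' d' L)
  have h2 := ev2_T1rows x t y a' b' d' hy n L hL
  rw [T1rows_length, hm] at h1
  rw [TT]
  linear_combination (d' * (1 + t)) * h1 + (d * (1 + s)) ^ m * h2

/-- The quadratic form with matrix `[[a, b, c], [b, d, e], [c, e, f]]`. -/
def qf (a b c d e f p q m : ℝ) : ℝ :=
  a * p ^ 2 + 2 * b * (p * q) + 2 * c * (p * m) + d * q ^ 2 + 2 * e * (q * m) + f * m ^ 2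

/-- Sylvester's criterion. -/
def pd3 (a b c d e f : ℤ) : Bool :=
  decide (0 < a) && (decide (0 < a * d - b * b) &&
    decide (0 < a * (d * f - e * e) - b * (b * f - e * c) + c * (b * e - d * c)))

theorem qf_pos {a b c d e f : ℝ} (h1 : 0 < a) (h2 : 0 < a * d - b * b)
    (h3 : 0 < a * (d * f - e * e) - b * (b * f - e * c) + c * (b * e - d * c)) {p q m : ℝ}
    (h : ¬(p = 0 ∧ q = 0 ∧ m = 0)) : 0 < qf a b c d e f p q m := by
  have key : a * (a * d - b * b) * qf a b c d e f p q m =
      (a * d - b * b) * (a * p + b * q + c * m) ^ 2 +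
        ((a * d - b * b) * q + (a * e - b * c) * m) ^ 2 +
        a * (a * (d * f - e * e) - b * (b * f - e * c) + c * (b * e - d * c)) * m ^ 2 := by
    simp only [qf]; ring
  have hpos : 0 < a * (a * d - b * b) := mul_pos h1 h2
  by_contra hn
  push Not at hn
  have hle : a * (a * d - b * b) * qf a b c d e f p q m ≤ 0 :=
    mul_nonpos_of_nonneg_of_nonpos hpos.le hn
  rw [key] at hle
  have t1 : 0 ≤ (a * d - b * b) * (a * p + b * q + c * m) ^ 2 := by positivity
  have t2 : 0 ≤ ((a * d - b * b) * q + (a * e - b * c) * m) ^ 2 := by positivity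
  have t3 : 0 ≤ a * (a * (d * f - e * e) - b * (b * f - e * c) + c * (b * e - d * c)) * m ^ 2 := by
    positivity
  have hm : m = 0 := by
    by_contra hm
    have : 0 < a * (a * (d * f - e * e) - b * (b * f - e * c) + c * (b * e - d * c)) * m ^ 2 := by
      positivity
    linarith
  have h2' : ((a * d - b * b) * q + (a * e - b * c) * m) ^ 2 = 0 := by linarith
  have hq : q = 0 := by
    rw [hm, mul_zero, add_zero] at h2'
    rcases mul_eq_zero.1 (pow_eq_zero_iff (two_ne_zero) |>.1 h2') with h' | h'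
    · exact absurd h' h2.ne'
    · exact h'
  have h1' : (a * d - b * b) * (a * p + b * q + c * m) ^ 2 = 0 := by linarith
  have hp : p = 0 := by
    rw [hm, hq, mul_zero, mul_zero, add_zero, add_zero] at h1'
    rcases mul_eq_zero.1 h1' with h' | h'
    · exact absurd h' h2.ne'
    · rcases mul_eq_zero.1 (pow_eq_zero_iff (two_ne_zero) |>.1 h') with h' | h'
      · exact absurd h' h1.ne'
      · exact h'
  exact h ⟨hp, hq, hm⟩

/-- Check positivity of a row of matrices. -/
def pdRow : List ℤ → List ℤ → List ℤ → List ℤ → List ℤ → List ℤ → Bool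
  | [], B, C, D, E, F => B.isEmpty && (C.isEmpty && (D.isEmpty && (E.isEmpty && F.isEmpty)))
  | a :: A, B, C, D, E, F =>
    pd3 a (B.headD 0) (C.headD 0) (D.headD 0) (E.headD 0) (F.headD 0) &&
      pdRow A B.tail C.tail D.tail E.tail F.tail

/-- Check positivity of a list of rows of matrices. -/
def pdAll : List (List ℤ) → List (List ℤ) → List (List ℤ) → List (List ℤ) → List (List ℤ) →
    List (List ℤ) → Bool
  | [], B, C, D, E, F => B.isEmpty && (C.isEmpty && (D.isEmpty && (E.isEmpty && F.isEmpty)))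
  | a :: A, B, C, D, E, F =>
    (!a.isEmpty) && (pdRow a (B.headD []) (C.headD []) (D.headD []) (E.headD []) (F.headD []) &&
      pdAll A B.tail C.tail D.tail E.tail F.tail)

theorem ev1_head_tail (s : ℝ) (l : List ℤ) : ev1 s l = (l.headD 0 : ℤ) + s * ev1 s l.tail := by
  cases l with
  | nil => simp [ev1]
  | cons a l => simp [ev1]

theorem ev2_head_tail (s t : ℝ) (l : List (List ℤ)) :
    ev2 s t l = ev1 t (l.headD []) + s * ev2 s t l.tail := by
  cases l with
  | nil => simp [ev2, ev1]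
  | cons a l => simp [ev2]

theorem pd3_pos {a b c d e f : ℤ} (h : pd3 a b c d e f = true) {p q m : ℝ}
    (h0 : ¬(p = 0 ∧ q = 0 ∧ m = 0)) : 0 < qf a b c d e f p q m := by
  simp only [pd3, Bool.and_eq_true, decide_eq_true_eq] at h
  exact qf_pos (by exact_mod_cast h.1) (by exact_mod_cast h.2.1) (by exact_mod_cast h.2.2) h0

theorem pdRow_pos {A B C D E F : List ℤ} (h : pdRow A B C D E F = true) {s : ℝ} (hs : 0 ≤ s)
    {p q m : ℝ} (h0 : ¬(p = 0 ∧ q = 0 ∧ m = 0)) :
    0 ≤ qf (ev1 s A) (ev1 s B) (ev1 s C) (ev1 s D) (ev1 s E) (ev1 s F) p q m ∧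
    (A ≠ [] → 0 < qf (ev1 s A) (ev1 s B) (ev1 s C) (ev1 s D) (ev1 s E) (ev1 s F) p q m) := by
  induction A generalizing B C D E F with
  | nil =>
    simp only [pdRow, Bool.and_eq_true, List.isEmpty_iff] at h
    obtain ⟨rfl, rfl, rfl, rfl, rfl⟩ := h
    simp [ev1, qf]
  | cons a A ih =>
    simp only [pdRow, Bool.and_eq_true] at h
    have h1 := pd3_pos h.1 h0
    have h2 := (ih h.2).1
    have e : qf (ev1 s (a :: A)) (ev1 s B) (ev1 s C) (ev1 s D) (ev1 s E) (ev1 s F) p q m =
        qf a (B.headD 0 : ℤ) (C.headD 0 : ℤ) (D.headD 0 : ℤ) (E.headD 0 : ℤ) (F.headD 0 : ℤ)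
          p q m + s * qf (ev1 s A) (ev1 s B.tail) (ev1 s C.tail) (ev1 s D.tail) (ev1 s E.tail)
          (ev1 s F.tail) p q m := by
      rw [ev1_head_tail s B, ev1_head_tail s C, ev1_head_tail s D, ev1_head_tail s E,
        ev1_head_tail s F, ev1]
      simp only [qf]; ring
    rw [e]
    have h3 := mul_nonneg hs h2
    exact ⟨by linarith, fun _ => by linarith⟩

theorem pdAll_pos {A B C D E F : List (List ℤ)} (h : pdAll A B C D E F = true) {s t : ℝ}
    (hs : 0 ≤ s) (ht : 0 ≤ t) {p q m : ℝ} (h0 : ¬(p = 0 ∧ q = 0 ∧ m = 0)) :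
    0 ≤ qf (ev2 s t A) (ev2 s t B) (ev2 s t C) (ev2 s t D) (ev2 s t E) (ev2 s t F) p q m ∧
    (A ≠ [] → 0 < qf (ev2 s t A) (ev2 s t B) (ev2 s t C) (ev2 s t D) (ev2 s t E)
      (ev2 s t F) p q m) := by
  induction A generalizing B C D E F with
  | nil =>
    simp only [pdAll, Bool.and_eq_true, List.isEmpty_iff] at h
    obtain ⟨rfl, rfl, rfl, rfl, rfl⟩ := h
    simp [ev2, qf]
  | cons a A ih =>
    simp only [pdAll, Bool.and_eq_true, Bool.not_eq_true', List.isEmpty_eq_false_iff] at h
    have h1 := (pdRow_pos h.2.1 ht h0).2 h.1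
    have h2 := (ih h.2.2).1
    have e : qf (ev2 s t (a :: A)) (ev2 s t B) (ev2 s t C) (ev2 s t D) (ev2 s t E)
        (ev2 s t F) p q m =
        qf (ev1 t a) (ev1 t (B.headD [])) (ev1 t (C.headD [])) (ev1 t (D.headD []))
          (ev1 t (E.headD [])) (ev1 t (F.headD [])) p q m +
          s * qf (ev2 s t A) (ev2 s t B.tail) (ev2 s t C.tail) (ev2 s t D.tail)
          (ev2 s t E.tail) (ev2 s t F.tail) p q m := by
      rw [ev2_head_tail s t B, ev2_head_tail s t C, ev2_head_tail s t D, ev2_head_tail s t E,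
        ev2_head_tail s t F, ev2]
      simp only [qf]; ring
    rw [e]
    have h3 := mul_nonneg hs h2
    exact ⟨by linarith, fun _ => by linarith⟩

/-- The check on a box. -/
def boxChk (a b d a' b' d' : ℤ) (A B C D E F : List (List ℤ)) : Bool :=
  pdAll (TT a b d a' b' d' A) (TT a b d a' b' d' B) (TT a b d a' b' d' C)
    (TT a b d a' b' d' D) (TT a b d a' b' d' E) (TT a b d a' b' d' F)

/-- The shape of the polynomials. -/
def shape (m n : ℕ) (L : List (List ℤ)) : Bool := (L.length == m) && rowLen n L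

theorem boxChk_pos {a b d a' b' d' : ℤ} (hd : 0 < d) (hd' : 0 < d')
    {A B C D E F : List (List ℤ)} (h : boxChk a b d a' b' d' A B C D E F = true)
    {m n : ℕ} (hA : shape m n A = true) (hB : shape m n B = true) (hC : shape m n C = true)
    (hD : shape m n D = true) (hE : shape m n E = true) (hF : shape m n F = true)
    (hne : TT a b d a' b' d' A ≠ [])
    {s t x y : ℝ} (hs : 0 ≤ s) (ht : 0 ≤ t) (hx : x * (d * (1 + s)) = a + b * s)
    (hy : y * (d' * (1 + t)) = a' + b' * t) {p q r : ℝ} (h0 : ¬(p = 0 ∧ q = 0 ∧ r = 0)) :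
    0 < qf (ev2 x y A) (ev2 x y B) (ev2 x y C) (ev2 x y D) (ev2 x y E) (ev2 x y F) p q r := by
  have hd1 : (0 : ℝ) < d := by exact_mod_cast hd
  have hd2 : (0 : ℝ) < d' := by exact_mod_cast hd'
  have hpos := (pdAll_pos h hs ht h0).2 hne
  have key : ∀ L : List (List ℤ), shape m n L = true →
      ev2 s t (TT a b d a' b' d' L) * ((d * (1 + s)) * (d' * (1 + t))) =
      (d * (1 + s)) ^ m * (d' * (1 + t)) ^ n * ev2 x y L := by
    intro L hL
    simp only [shape, Bool.and_eq_true, beq_iff_eq] at hL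
    exact ev2_TT s t x y a b d a' b' d' hx hy m n L hL.2 hL.1
  set K : ℝ := (d * (1 + s)) * (d' * (1 + t)) with hK
  set K' : ℝ := (d * (1 + s)) ^ m * (d' * (1 + t)) ^ n with hK'
  have hKpos : 0 < K := by positivity
  have hK'pos : 0 < K' := by positivity
  have e : K' * qf (ev2 x y A) (ev2 x y B) (ev2 x y C) (ev2 x y D) (ev2 x y E) (ev2 x y F) p q r
      = K * qf (ev2 s t (TT a b d a' b' d' A)) (ev2 s t (TT a b d a' b' d' B))
        (ev2 s t (TT a b d a' b' d' C)) (ev2 s t (TT a b d a' b' d' D))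
        (ev2 s t (TT a b d a' b' d' E)) (ev2 s t (TT a b d a' b' d' F)) p q r := by
    simp only [qf]
    linear_combination -(p ^ 2) * key A hA - 2 * (p * q) * key B hB - 2 * (p * r) * key C hC -
      q ^ 2 * key D hD - 2 * (q * r) * key E hE - r ^ 2 * key F hF
  have : 0 < K' * qf (ev2 x y A) (ev2 x y B) (ev2 x y C) (ev2 x y D) (ev2 x y E) (ev2 x y F)
      p q r := by rw [e]; exact mul_pos hKpos hpos
  exact (mul_pos_iff_of_pos_left hK'pos).1 this

end Pool.Agent.LibH27.HSC
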