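import Pool.Agent.Lib_helper27.HSC.P1

/-!
# The surface `x y z = 1` in `ℙ¹ × ℙ¹ × ℙ¹`
-/

namespace Pool.Agent.LibH27.HSC

open scoped Topology Manifold
open OnePoint Filter Set

/-- The surface `x₁ y₁ z₁ = x₀ y₀ z₀` in `ℙ¹ × ℙ¹ × ℙ¹` (that is, `x y z = 1`), the del Pezzo surface
of degree six. -/
def DP6 : Type :=
  {p : P1 × P1 × P1 // num p.1 * num p.2.1 * num p.2.2 = den p.1 * den p.2.1 * den p.2.2}

noncomputable instance : TopologicalSpace DP6 := instTopologicalSpaceSubtype

instance : T2Space DP6 := inferInstanceAs (T2Space {p : P1 × P1 × P1 //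
  num p.1 * num p.2.1 * num p.2.2 = den p.1 * den p.2.1 * den p.2.2})

/-- The map `(x, y, z) ↦ (1/y, 1/z, 1/x)`. -/
noncomputable def rotFun (p : DP6) : DP6 :=
  ⟨(inv1 p.1.2.1, inv1 p.1.2.2, inv1 p.1.1), by
    obtain ⟨u, -, h1, h2⟩ := inv1_scale p.1.1
    obtain ⟨v, -, h3, h4⟩ := inv1_scale p.1.2.1
    obtain ⟨w, -, h5, h6⟩ := inv1_scale p.1.2.2
    simp only [h1, h2, h3, h4, h5, h6]
    linear_combination (-(u * v * w)) * p.2⟩

/-- The map `(x, y, z) ↦ (1/z, 1/x, 1/y)`. -/
noncomputable def rotInvFun (p : DP6) : DP6 :=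
  ⟨(inv1 p.1.2.2, inv1 p.1.1, inv1 p.1.2.1), by
    obtain ⟨u, -, h1, h2⟩ := inv1_scale p.1.1
    obtain ⟨v, -, h3, h4⟩ := inv1_scale p.1.2.1
    obtain ⟨w, -, h5, h6⟩ := inv1_scale p.1.2.2
    simp only [h1, h2, h3, h4, h5, h6]
    linear_combination (-(u * v * w)) * p.2⟩

theorem DP6.ext' {p q : DP6} (h1 : p.1.1 = q.1.1) (h2 : p.1.2.1 = q.1.2.1)
    (h3 : p.1.2.2 = q.1.2.2) : p = q :=
  Subtype.ext (Prod.ext h1 (Prod.ext h2 h3))

/-- The rotation `(x, y, z) ↦ (1/y, 1/z, 1/x)` of order six. -/
noncomputable def rot : DP6 ≃ₜ DP6 where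
  toFun := rotFun
  invFun := rotInvFun
  left_inv p := DP6.ext' (inv1_inv1 _) (inv1_inv1 _) (inv1_inv1 _)
  right_inv p := DP6.ext' (inv1_inv1 _) (inv1_inv1 _) (inv1_inv1 _)
  continuous_toFun := by
    refine Continuous.subtype_mk ?_ _
    exact (continuous_inv1.comp (continuous_fst.comp (continuous_snd.comp
      continuous_subtype_val))).prodMk ((continuous_inv1.comp (continuous_snd.comp
      (continuous_snd.comp continuous_subtype_val))).prodMk (continuous_inv1.comp
      (continuous_fst.comp continuous_subtype_val)))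
  continuous_invFun := by
    refine Continuous.subtype_mk ?_ _
    exact (continuous_inv1.comp (continuous_snd.comp (continuous_snd.comp
      continuous_subtype_val))).prodMk ((continuous_inv1.comp (continuous_fst.comp
      continuous_subtype_val)).prodMk (continuous_inv1.comp (continuous_fst.comp
      (continuous_snd.comp continuous_subtype_val))))

/-- The parametrisation `(s, t) ↦ (s, t, 1/(s t))`. -/
noncomputable def par0 (w : C2) : DP6 :=
  ⟨((w 0 : P1), (w 1 : P1), inv1 ((w 0 * w 1 : ℂ) : P1)), by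
    by_cases h : w 0 * w 1 = 0
    · rw [h]; simp [h]
    · rw [inv1_coe h]
      simp only [num_coe, den_coe]
      rw [mul_inv_cancel₀ h]; ring⟩

theorem continuous_par0 : Continuous par0 := by
  refine Continuous.subtype_mk ?_ _
  exact (OnePoint.continuous_coe.comp (continuous_apply 0)).prodMk
    ((OnePoint.continuous_coe.comp (continuous_apply 1)).prodMk
      (continuous_inv1.comp (OnePoint.continuous_coe.comp
        ((continuous_apply 0).mul (continuous_apply 1)))))

theorem par0_fin {p : DP6} (h1 : p.1.1 ≠ ∞) (h2 : p.1.2.1 ≠ ∞) :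
    par0 ![fin p.1.1, fin p.1.2.1] = p := by
  obtain ⟨⟨x, y, z⟩, hp⟩ := p
  simp only at h1 h2 hp ⊢
  induction x using OnePoint.rec with
  | infty => exact absurd rfl h1
  | coe x =>
    induction y using OnePoint.rec with
    | infty => exact absurd rfl h2
    | coe y =>
      refine DP6.ext' rfl rfl ?_
      simp only [par0, Matrix.cons_val_zero, Matrix.cons_val_one, Matrix.cons_val_fin_one, fin_coe]
      induction z using OnePoint.rec with
      | infty =>
        simp only [num_coe, num_infty, den_coe, den_infty, mul_one, mul_zero] at hp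
        rw [hp, inv1_zero]
      | coe z =>
        simp only [num_coe, den_coe, mul_one] at hp
        have hne : x * y ≠ 0 := left_ne_zero_of_mul (a := x * y) (b := z) (by rw [hp]; exact one_ne_zero)
        rw [inv1_coe hne, OnePoint.coe_eq_coe]
        exact inv_eq_of_mul_eq_one_right hp

/-- The chart `(x, y, z) ↦ (x, y)` on the open set where `x, y ≠ ∞`. -/
noncomputable def chart0 : OpenPartialHomeomorph DP6 C2 where
  toFun p := ![fin p.1.1, fin p.1.2.1]
  invFun := par0
  source := {p | p.1.1 ≠ ∞ ∧ p.1.2.1 ≠ ∞}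
  target := univ
  map_source' _ _ := mem_univ _
  map_target' w _ := ⟨OnePoint.coe_ne_infty _, OnePoint.coe_ne_infty _⟩
  left_inv' _ hp := par0_fin hp.1 hp.2
  right_inv' w _ := by
    ext i; fin_cases i <;> simp [par0]
  open_source := by
    have h1 : IsOpen {p : DP6 | p.1.1 ≠ ∞} :=
      isOpen_ne_infty.preimage (continuous_fst.comp continuous_subtype_val)
    have h2 : IsOpen {p : DP6 | p.1.2.1 ≠ ∞} :=
      isOpen_ne_infty.preimage (continuous_fst.comp (continuous_snd.comp continuous_subtype_val))
    exact h1.inter h2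
  open_target := isOpen_univ
  continuousOn_toFun := by
    intro p hp
    refine ContinuousAt.continuousWithinAt ?_
    have h1 : ContinuousAt (fun p : DP6 => fin p.1.1) p :=
      ContinuousAt.comp (g := fin) (f := fun p : DP6 => p.1.1) (continuousAt_fin hp.1)
        (continuous_fst.comp continuous_subtype_val).continuousAt
    have h2 : ContinuousAt (fun p : DP6 => fin p.1.2.1) p :=
      ContinuousAt.comp (g := fin) (f := fun p : DP6 => p.1.2.1) (continuousAt_fin hp.2)
        (continuous_fst.comp (continuous_snd.comp continuous_subtype_val)).continuousAt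
    refine continuousAt_pi.2 fun i => ?_
    fin_cases i
    · exact h1
    · exact h2
  continuousOn_invFun := continuous_par0.continuousOn

/-- The chart obtained from `chart0` by the `k`-th power of the rotation. -/
noncomputable def chartk (k : ℤ) : OpenPartialHomeomorph DP6 C2 :=
  (rot ^ (-k)).toOpenPartialHomeomorph ≫ₕ chart0

theorem chartk_apply (k : ℤ) (p : DP6) : chartk k p = chart0 ((rot ^ (-k)) p) := rfl

theorem chartk_symm_apply (k : ℤ) (w : C2) : (chartk k).symm w = (rot ^ k) (par0 w) := by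
  change (rot ^ (-k)).symm (par0 w) = (rot ^ k) (par0 w)
  rw [zpow_neg]
  rfl

theorem chartk_target (k : ℤ) : (chartk k).target = univ := by
  ext w
  simp [chartk, chart0]

theorem mem_chartk_source (k : ℤ) (p : DP6) :
    p ∈ (chartk k).source ↔ (rot ^ (-k)) p ∈ chart0.source := by
  simp [chartk]

end Pool.Agent.LibH27.HSC
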