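import Pool.Agent.Lib_helper27.HSC.Pos

/-!
# Behaviour of the curvature under holomorphic changes of coordinates
-/

namespace Pool.Agent.LibH27.HSC

open scoped Manifold ContDiff ComplexConjugate Topology ComplexOrder
open Complex Finset

theorem HasW.conj' {f : C2 → ℂ} {a b z : C2} (h : HasW f a b z) :
    HasW (fun w => conj (f w)) (fun k => conj (b k)) (fun k => conj (a k)) z := by
  have h1 : HasFDerivAt (fun w => (conjCLE : ℂ →L[ℝ] ℂ) (f w))
      ((conjCLE : ℂ →L[ℝ] ℂ).comp (WL a b)) z :=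
    (conjCLE : ℂ →L[ℝ] ℂ).hasFDerivAt.comp z h
  have : (conjCLE : ℂ →L[ℝ] ℂ).comp (WL a b) = WL (fun k => conj (b k)) (fun k => conj (a k)) :=
    WL_ext (by
      intro v
      simp [WL_apply]
      ring)
  rw [HasW, ← this]; exact h1

/-- The chain rule for a holomorphic inner function. -/
theorem HasW.comp' {f : C2 → ℂ} {a b : C2} {T : C2 → C2} {z : C2} {J : Fin 2 → Fin 2 → ℂ}
    (hf : HasW f a b (T z)) (hT : ∀ c, HasW (fun w => T w c) (fun k => J k c) 0 z) :
    HasW (fun w => f (T w)) (fun k => ∑ c, J k c * a c) (fun l => ∑ c, conj (J l c) * b c) z := by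
  have h1 : HasFDerivAt T (ContinuousLinearMap.pi fun c => WL (fun k => J k c) 0) z :=
    hasFDerivAt_pi.2 hT
  have h2 := HasFDerivAt.comp z hf h1
  have : (WL a b).comp (ContinuousLinearMap.pi fun c => WL (fun k => J k c) 0) =
      WL (fun k => ∑ c, J k c * a c) (fun l => ∑ c, conj (J l c) * b c) :=
    WL_ext (by
      intro v
      simp [WL_apply]
      ring)
  rw [HasW, ← this]; exact h2

theorem HasW.unique {f : C2 → ℂ} {a b a' b' z : C2} (h : HasW f a b z) (h' : HasW f a' b' z) :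
    a = a' ∧ b = b' := by
  constructor
  · funext k; rw [← h.dz k, ← h'.dz k]
  · funext k; rw [← h.dzbar k, ← h'.dzbar k]

/-- The data of a holomorphic change of coordinates preserving the metric. -/
structure Change (U : Set C2) (T : C2 → C2) (J : C2 → Fin 2 → Fin 2 → ℂ)
    (J2 : C2 → Fin 2 → Fin 2 → Fin 2 → ℂ) : Prop where
  isOpen : IsOpen U
  hT : ∀ w ∈ U, ∀ c, HasW (fun w => T w c) (fun k => J w k c) 0 w
  hJ : ∀ w ∈ U, ∀ i a, HasW (fun w => J w i a) (fun k => J2 w k i a) 0 w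
  hJ2 : ∀ w ∈ U, ∀ k i a, ∃ b : C2, HasW (fun w => J2 w k i a) b 0 w
  hdet : ∀ w ∈ U, J w 0 0 * J w 1 1 - J w 0 1 * J w 1 0 ≠ 0
  compat : ∀ w ∈ U, ∀ i j, GG w i j = ∑ a, ∑ b, J w i a * GG (T w) a b * conj (J w j b)

variable {U : Set C2} {T : C2 → C2} {J : C2 → Fin 2 → Fin 2 → ℂ}
  {J2 : C2 → Fin 2 → Fin 2 → Fin 2 → ℂ}

theorem Change.L21_L12 (h : Change U T J J2) {w : C2} (hw : w ∈ U) (i j : Fin 2) :
    (∀ k, L21 i k j w = ∑ a, ∑ b, (J2 w k i a * GG (T w) a b * conj (J w j b) +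
      J w i a * (∑ c, J w k c * L21 a c b (T w)) * conj (J w j b))) ∧
    (∀ l, L12 i j l w = ∑ a, ∑ b, J w i a * ((∑ c, conj (J w l c) * L12 a b c (T w)) *
      conj (J w j b) + GG (T w) a b * conj (J2 w l j b))) := by
  have h1 : HasW (fun w => ∑ a, ∑ b, J w i a * GG (T w) a b * conj (J w j b)) _ _ w :=
    HasW.sum Finset.univ (fun a _ => HasW.sum Finset.univ (fun b _ =>
      ((h.hJ w hw i a).mul ((hasW_GG a b (T w)).comp' (h.hT w hw))).mul
        ((h.hJ w hw j b).conj')))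
  have h2 := h1.congr (g := fun w => GG w i j)
    (Filter.eventuallyEq_of_mem (h.isOpen.mem_nhds hw) (fun x hx => h.compat x hx i j))
  obtain ⟨ha, hb⟩ := (hasW_GG i j w).unique h2
  constructor
  · intro k
    rw [congrFun ha k]
    simp only [Finset.sum_apply, Pi.add_apply, Pi.smul_apply, smul_eq_mul, Pi.zero_apply,
      map_zero, mul_zero, zero_add]
    refine sum_congr rfl fun a _ => sum_congr rfl fun b _ => ?_
    ring
  · intro l
    rw [congrFun hb l]
    simp only [Finset.sum_apply, Pi.add_apply, Pi.smul_apply, smul_eq_mul, Pi.zero_apply,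
      mul_zero, add_zero]
    refine sum_congr rfl fun a _ => sum_congr rfl fun b _ => ?_
    ring

theorem Change.L22_eq (h : Change U T J J2) {w : C2} (hw : w ∈ U) (i j k l : Fin 2) :
    L22 i k j l w = ∑ a, ∑ b, (J2 w k i a * ((∑ c, conj (J w l c) * L12 a b c (T w)) *
      conj (J w j b) + GG (T w) a b * conj (J2 w l j b)) +
      J w i a * ((∑ c, conj (J w l c) * ∑ d, J w k d * L22 a d b c (T w)) * conj (J w j b) +
      (∑ d, J w k d * L21 a d b (T w)) * conj (J2 w l j b))) := by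
  choose B hB using h.hJ2 w hw
  have h1 : HasW (fun w => ∑ a, ∑ b, J w i a * ((∑ c, conj (J w l c) * L12 a b c (T w)) *
      conj (J w j b) + GG (T w) a b * conj (J2 w l j b))) _ _ w :=
    HasW.sum Finset.univ (fun a _ => HasW.sum Finset.univ (fun b _ =>
      (h.hJ w hw i a).mul (((HasW.sum Finset.univ (fun c _ =>
        ((h.hJ w hw l c).conj').mul ((hasW_L12 a b c (T w)).comp' (h.hT w hw)))).mul
        ((h.hJ w hw j b).conj')).add
        (((hasW_GG a b (T w)).comp' (h.hT w hw)).mul ((hB l j b).conj')))))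
  have h2 := h1.congr (g := L12 i j l)
    (Filter.eventuallyEq_of_mem (h.isOpen.mem_nhds hw) (fun x hx => (h.L21_L12 hx i j).2 l))
  obtain ⟨ha, -⟩ := (hasW_L12 i j l w).unique h2
  rw [congrFun ha k]
  simp only [Finset.sum_apply, Pi.add_apply, Pi.smul_apply, smul_eq_mul, Pi.zero_apply,
    map_zero, mul_zero, zero_add, add_zero]
  refine sum_congr rfl fun a _ => sum_congr rfl fun b _ => ?_
  simp only [Fin.sum_univ_two]
  ring

/-- The algebraic identity behind the invariance of the curvature: second order part. -/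
theorem D4_alg (L : Fin 2 → Fin 2 → Fin 2 → Fin 2 → ℂ) (J Jb : Fin 2 → Fin 2 → ℂ)
    (J2 J2b : Fin 2 → Fin 2 → Fin 2 → ℂ) (G : Fin 2 → Fin 2 → ℂ)
    (A B : Fin 2 → Fin 2 → Fin 2 → ℂ) (M : Fin 2 → Fin 2 → Fin 2 → Fin 2 → ℂ)
    (v w v' w' acc accb : Fin 2 → ℂ)
    (hv : ∀ a, v' a = ∑ i, v i * J i a) (hw : ∀ a, w' a = ∑ i, w i * Jb i a)
    (ha : ∀ a, acc a = ∑ i, ∑ k, J2 k i a * v i * v k)
    (hb : ∀ a, accb a = ∑ i, ∑ k, J2b k i a * w i * w k)
    (hL : ∀ i k j l, L i k j l = ∑ a, ∑ b, (J2 k i a * ((∑ c, Jb l c * B a b c) * Jb j b +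
      G a b * J2b l j b) + J i a * ((∑ c, Jb l c * ∑ d, J k d * M a d b c) * Jb j b +
      (∑ d, J k d * A a d b) * J2b l j b))) :
    (∑ i, ∑ j, ∑ k, ∑ l, L i k j l * v i * w j * v k * w l) =
      (∑ a, ∑ b, ∑ c, acc a * B a b c * w' b * w' c) + (∑ a, ∑ b, acc a * G a b * accb b) +
      (∑ i, ∑ j, ∑ k, ∑ l, M i k j l * v' i * w' j * v' k * w' l) +
      (∑ a, ∑ b, ∑ c, A a c b * v' a * v' c * accb b) := by
  simp only [hL, ha, hb, hv, hw, Fin.sum_univ_two]
  ring

theorem S3_alg (w wb x xb : Fin 2 → ℂ) (J Jb G : Fin 2 → Fin 2 → ℂ)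
    (hx : ∀ a, ∑ p, w p * J p a = x a) (hxb : ∀ a, ∑ p, wb p * Jb p a = xb a) :
    (∑ p, ∑ q, w p * (∑ a, ∑ b, J p a * G a b * Jb q b) * wb q) =
      ∑ a, ∑ b, x a * G a b * xb b := by
  simp only [← hx, ← hxb, Fin.sum_univ_two]
  ring

/-- The curvature is invariant under holomorphic changes of coordinates (the inequality needed
here; the other one follows by exchanging the roles of the two points). -/
theorem Change.curvSum_le (h : Change U T J J2) {z : C2} (hz : z ∈ U) (v : C2) :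
    (curvSum GG (T z) (fun a => ∑ i, v i * J z i a)).re ≤ (curvSum GG z v).re := by
  -- abbreviations
  set v' : Fin 2 → ℂ := fun a => ∑ i, v i * J z i a with hv'
  set acc : Fin 2 → ℂ := fun a => ∑ i, ∑ k, J2 z k i a * v i * v k with hacc
  set M := (GG (T z))⁻¹ with hM
  set T' : Fin 2 → ℂ := fun b => ∑ a, ∑ c, L21 a c b (T z) * v' a * v' c with hT'
  set Γ : Fin 2 → ℂ := fun p => ∑ q, T' q * M q p with hΓdef
  set x : Fin 2 → ℂ := fun a => acc a + Γ a with hxdef
  set δ : ℂ := J z 0 0 * J z 1 1 - J z 0 1 * J z 1 0 with hδ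
  have hδ0 : δ ≠ 0 := h.hdet z hz
  set w : Fin 2 → ℂ := ![(x 0 * J z 1 1 - x 1 * J z 1 0) / δ,
    (x 1 * J z 0 0 - x 0 * J z 0 1) / δ] with hw
  have hx : ∀ a, ∑ p, w p * J z p a = x a := by
    intro a
    fin_cases a
    · simp only [Fin.sum_univ_two, hw, Matrix.cons_val_zero, Matrix.cons_val_one,
        Matrix.cons_val_fin_one, Fin.zero_eta]
      rw [div_mul_eq_mul_div, div_mul_eq_mul_div, ← add_div, div_eq_iff hδ0, hδ]
      ring
    · simp only [Fin.sum_univ_two, hw, Matrix.cons_val_zero, Matrix.cons_val_one,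
        Matrix.cons_val_fin_one, Fin.mk_one]
      rw [div_mul_eq_mul_div, div_mul_eq_mul_div, ← add_div, div_eq_iff hδ0, hδ]
      ring
  have hxc : ∀ a, ∑ p, conj (w p) * conj (J z p a) = conj (x a) := by
    intro a
    rw [← hx a]
    simp only [map_sum, map_mul]
  have hdetG : IsUnit (GG (T z)).det :=
    (Matrix.isUnit_iff_isUnit_det _).1 (posDef_GG (T z)).isUnit
  have hMG : M * GG (T z) = 1 := Matrix.nonsing_inv_mul _ hdetG
  have hΓ : ∀ b, ∑ a, Γ a * GG (T z) a b = T' b := by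
    have f00 := congrFun (congrFun hMG 0) 0
    have f01 := congrFun (congrFun hMG 0) 1
    have f10 := congrFun (congrFun hMG 1) 0
    have f11 := congrFun (congrFun hMG 1) 1
    simp only [Matrix.mul_apply, Fin.sum_univ_two, Matrix.one_apply_eq, ne_eq, zero_ne_one,
      not_false_eq_true, Matrix.one_apply_ne, one_ne_zero] at f00 f01 f10 f11
    intro b
    simp only [hΓdef, Fin.sum_univ_two]
    fin_cases b
    · simp only [Fin.zero_eta]
      linear_combination T' 0 * f00 + T' 1 * f10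
    · simp only [Fin.mk_one]
      linear_combination T' 0 * f01 + T' 1 * f11
  set Tz : Fin 2 → ℂ := fun q => ∑ i, ∑ k, L21 i k q z * v i * v k with hTz
  have hTq : ∀ q, Tz q = ∑ b, (∑ a, acc a * GG (T z) a b + T' b) * conj (J z q b) := by
    intro q
    simp only [hTz, (h.L21_L12 hz _ q).1, hacc, hT', hv', Fin.sum_univ_two]
    ring
  have h1 := inv_lower (GG z) (posDef_GG z) Tz w
  have hS2 : ∑ q, Tz q * conj (w q) =
      ∑ b, (∑ a, acc a * GG (T z) a b + T' b) * conj (x b) := by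
    simp only [hTq, ← hxc, Fin.sum_univ_two]
    ring
  have hS3 : ∑ p, ∑ q, w p * GG z p q * conj (w q) =
      ∑ a, ∑ b, x a * GG (T z) a b * conj (x b) := by
    simp only [h.compat z hz]
    exact S3_alg w (fun q => conj (w q)) x (fun q => conj (x q)) (J z)
      (fun i a => conj (J z i a)) (fun a b => GG (T z) a b) hx hxc
  have hD4 := D4_alg (fun i k j l => L22 i k j l z) (J z) (fun i a => conj (J z i a)) (J2 z)
    (fun k i a => conj (J2 z k i a)) (fun a b => GG (T z) a b) (fun a c b => L21 a c b (T z))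
    (fun a b c => L12 a b c (T z)) (fun a d b c => L22 a d b c (T z)) v (fun i => conj (v i)) v'
    (fun a => conj (v' a)) acc (fun a => conj (acc a)) (fun a => rfl)
    (fun a => by simp only [hv', map_sum, map_mul]) (fun a => rfl)
    (fun a => by simp only [hacc, map_sum, map_mul])
    (fun i k j l => h.L22_eq hz i j k l)
  have hB : ∀ a, ∑ b, ∑ c, L12 a b c (T z) * conj (v' b) * conj (v' c) = conj (T' a) := by
    intro a
    simp only [hT', map_sum, map_mul, conj_L21]
  have hBsum : (∑ a, ∑ b, ∑ c, acc a * L12 a b c (T z) * conj (v' b) * conj (v' c)) =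
      ∑ a, acc a * conj (T' a) := by
    simp only [← hB, mul_sum]
    refine sum_congr rfl fun a _ => sum_congr rfl fun b _ => sum_congr rfl fun c _ => ?_
    ring
  have hAsum : (∑ a, ∑ b, ∑ c, L21 a c b (T z) * v' a * v' c * conj (acc b)) =
      ∑ b, T' b * conj (acc b) := by
    simp only [hT', sum_mul]
    rw [sum_comm]
  rw [hBsum, hAsum] at hD4
  have e1 : (curvSum GG z v).re =
      -(∑ i, ∑ j, ∑ k, ∑ l, L22 i k j l z * v i * conj (v j) * v k * conj (v l)).re +
      (∑ p, ∑ q, Tz q * (GG z)⁻¹ q p * conj (Tz p)).re := by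
    rw [curvSum, curv_GG, add_re, neg_re]
  have e2 : (curvSum GG (T z) v') =
      -(∑ i, ∑ j, ∑ k, ∑ l, L22 i k j l (T z) * v' i * conj (v' j) * v' k * conj (v' l)) +
      (∑ p, ∑ q, T' q * M q p * conj (T' p)) := by
    rw [curvSum, curv_GG]
  have e3 : -(∑ i, ∑ j, ∑ k, ∑ l, L22 i k j l z * v i * conj (v j) * v k * conj (v l)) +
      (∑ q, Tz q * conj (w q)) + conj (∑ q, Tz q * conj (w q)) -
      (∑ p, ∑ q, w p * GG z p q * conj (w q)) = curvSum GG (T z) v' := by
    rw [e2, hD4, hS2, hS3]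
    have c0 := hΓ 0
    have c1 := hΓ 1
    have m0 : Γ 0 = ∑ q, T' q * M q 0 := rfl
    have m1 : Γ 1 = ∑ q, T' q * M q 1 := rfl
    have x0 : x 0 = acc 0 + Γ 0 := rfl
    have x1 : x 1 = acc 1 + Γ 1 := rfl
    simp only [Fin.sum_univ_two] at c0 c1 m0 m1
    simp only [Fin.sum_univ_two, map_add, map_mul, Complex.conj_conj, conj_GG, x0, x1]
    linear_combination -conj (Γ 0) * c0 - conj (Γ 1) * c1 + conj (T' 0) * m0 + conj (T' 1) * m1
  have e4 := congrArg Complex.re e3
  simp only [add_re, sub_re, neg_re, conj_re] at e4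
  rw [e1, ← e4]
  linarith

end Pool.Agent.LibH27.HSC
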