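import Pool.Agent.Lib_helper27.HSC.Defs

/-!
# Wirtinger calculus
-/

namespace Pool.Agent.LibH27.HSC

open scoped Manifold ContDiff ComplexConjugate Topology ComplexOrder
open Complex

/-- The real linear map `v ↦ ∑ a_k v_k + b_k v̄_k`. -/
noncomputable def WL (a b : C2) : C2 →L[ℝ] ℂ :=
  ∑ k, (a k • (ContinuousLinearMap.proj (R := ℝ) (φ := fun _ : Fin 2 => ℂ) k) +
    b k • ((conjCLE : ℂ →L[ℝ] ℂ).comp
      (ContinuousLinearMap.proj (R := ℝ) (φ := fun _ : Fin 2 => ℂ) k)))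

theorem WL_apply (a b v : C2) : WL a b v = ∑ k, (a k * v k + b k * conj (v k)) := by
  simp [WL]

/-- `f` is real differentiable at `z` with `∂f/∂z_k = a_k` and `∂f/∂z̄_k = b_k`. -/
def HasW (f : C2 → ℂ) (a b : C2) (z : C2) : Prop := HasFDerivAt f (WL a b) z

theorem HasW.dz {f : C2 → ℂ} {a b z : C2} (h : HasW f a b z) (k : Fin 2) : dz k f z = a k := by
  rw [HSC.dz, HasFDerivAt.fderiv h, WL_apply, WL_apply]
  fin_cases k
  · simp
    linear_combination (-1 / 2 * a 0 + 1 / 2 * b 0) * I_sq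
  · simp
    linear_combination (-1 / 2 * a 1 + 1 / 2 * b 1) * I_sq

theorem HasW.dzbar {f : C2 → ℂ} {a b z : C2} (h : HasW f a b z) (k : Fin 2) :
    dzbar k f z = b k := by
  rw [HSC.dzbar, HasFDerivAt.fderiv h, WL_apply, WL_apply]
  fin_cases k
  · simp
    linear_combination (1 / 2 * a 0 - 1 / 2 * b 0) * I_sq
  · simp
    linear_combination (1 / 2 * a 1 - 1 / 2 * b 1) * I_sq

theorem HasW.congr_ab {f : C2 → ℂ} {a b a' b' z : C2} (h : HasW f a b z) (ha : a = a')
    (hb : b = b') : HasW f a' b' z := by subst ha; subst hb; exact h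

theorem HasW.congr {f g : C2 → ℂ} {a b z : C2} (h : HasW f a b z) (hg : g =ᶠ[𝓝 z] f) :
    HasW g a b z := HasFDerivAt.congr_of_eventuallyEq h hg

theorem WL_ext {L : C2 →L[ℝ] ℂ} {a b : C2}
    (h : ∀ v, L v = ∑ k, (a k * v k + b k * conj (v k))) : L = WL a b := by
  ext v; rw [h, WL_apply]

theorem HasW.const (c z) : HasW (fun _ => c) 0 0 z := by
  have : (0 : C2 →L[ℝ] ℂ) = WL 0 0 := WL_ext (by simp)
  rw [HasW, ← this]; exact hasFDerivAt_const c z

theorem HasW.coord (i : Fin 2) (z) : HasW (fun w => w i) (Pi.single i 1) 0 z := by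
  have : ContinuousLinearMap.proj (R := ℝ) (φ := fun _ : Fin 2 => ℂ) i = WL (Pi.single i 1) 0 :=
    WL_ext (by intro v; fin_cases i <;> simp)
  rw [HasW, ← this]
  exact (ContinuousLinearMap.proj (R := ℝ) (φ := fun _ : Fin 2 => ℂ) i).hasFDerivAt

theorem HasW.conjCoord (i : Fin 2) (z) :
    HasW (fun w => conj (w i)) 0 (Pi.single i 1) z := by
  have : (conjCLE : ℂ →L[ℝ] ℂ).comp
      (ContinuousLinearMap.proj (R := ℝ) (φ := fun _ : Fin 2 => ℂ) i) = WL 0 (Pi.single i 1) :=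
    WL_ext (by intro v; fin_cases i <;> simp)
  rw [HasW, ← this]
  exact ((conjCLE : ℂ →L[ℝ] ℂ).comp
    (ContinuousLinearMap.proj (R := ℝ) (φ := fun _ : Fin 2 => ℂ) i)).hasFDerivAt

theorem HasW.add {f g : C2 → ℂ} {a b a' b' z : C2} (hf : HasW f a b z) (hg : HasW g a' b' z) :
    HasW (fun w => f w + g w) (a + a') (b + b') z := by
  have : WL a b + WL a' b' = WL (a + a') (b + b') := WL_ext (by
    intro v; simp [WL_apply]; ring)
  rw [HasW, ← this]; exact HasFDerivAt.add hf hg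

theorem HasW.neg {f : C2 → ℂ} {a b z : C2} (hf : HasW f a b z) :
    HasW (fun w => -f w) (-a) (-b) z := by
  have : -WL a b = WL (-a) (-b) := WL_ext (by
    intro v; simp [WL_apply]; ring)
  rw [HasW, ← this]; exact HasFDerivAt.neg hf

theorem HasW.sub {f g : C2 → ℂ} {a b a' b' z : C2} (hf : HasW f a b z) (hg : HasW g a' b' z) :
    HasW (fun w => f w - g w) (a - a') (b - b') z := by
  have := hf.add hg.neg
  simpa [sub_eq_add_neg] using this

theorem HasW.mul {f g : C2 → ℂ} {a b a' b' z : C2} (hf : HasW f a b z) (hg : HasW g a' b' z) :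
    HasW (fun w => f w * g w) (f z • a' + g z • a) (f z • b' + g z • b) z := by
  have : f z • WL a' b' + g z • WL a b = WL (f z • a' + g z • a) (f z • b' + g z • b) :=
    WL_ext (by intro v; simp [WL_apply]; ring)
  rw [HasW, ← this]; exact HasFDerivAt.mul hf hg

theorem HasW.const_mul {f : C2 → ℂ} {a b z : C2} (c : ℂ) (hf : HasW f a b z) :
    HasW (fun w => c * f w) (c • a) (c • b) z := by
  have := (HasW.const c z).mul hf
  simpa using this

theorem HasW.inv {f : C2 → ℂ} {a b z : C2} (hf : HasW f a b z) (h0 : f z ≠ 0) :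
    HasW (fun w => (f w)⁻¹) (-(f z ^ 2)⁻¹ • a) (-(f z ^ 2)⁻¹ • b) z := by
  have h1 : HasFDerivAt (fun x : ℂ => x⁻¹)
      ((ContinuousLinearMap.toSpanSingleton ℂ (-(f z ^ 2)⁻¹) : ℂ →L[ℂ] ℂ).restrictScalars ℝ)
      (f z) := ((hasDerivAt_inv h0).hasFDerivAt).restrictScalars ℝ
  have h2 := h1.comp z hf
  have : ((ContinuousLinearMap.toSpanSingleton ℂ (-(f z ^ 2)⁻¹) : ℂ →L[ℂ] ℂ).restrictScalars
      ℝ).comp (WL a b) = WL (-(f z ^ 2)⁻¹ • a) (-(f z ^ 2)⁻¹ • b) :=
    WL_ext (by intro v; simp [WL_apply]; ring)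
  rw [HasW, ← this]; exact h2

theorem HasW.pow {f : C2 → ℂ} {a b z : C2} (hf : HasW f a b z) (n : ℕ) :
    HasW (fun w => f w ^ n) ((n * f z ^ (n - 1)) • a) ((n * f z ^ (n - 1)) • b) z := by
  induction n with
  | zero => simpa using HasW.const 1 z
  | succ n ih =>
    have h := ih.mul hf
    have e : (fun w => f w ^ n * f w) = fun w => f w ^ (n + 1) := by
      funext w; rw [pow_succ]
    rw [e] at h
    refine h.congr_ab ?_ ?_
    · rcases Nat.eq_zero_or_pos n with h | h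
      · subst h; simp
      · obtain ⟨m, rfl⟩ : ∃ m, n = m + 1 := ⟨n - 1, by omega⟩
        ext k; simp [pow_succ]; ring
    · rcases Nat.eq_zero_or_pos n with h | h
      · subst h; simp
      · obtain ⟨m, rfl⟩ : ∃ m, n = m + 1 := ⟨n - 1, by omega⟩
        ext k; simp [pow_succ]; ring

theorem HasW.sum {ι : Type*} (s : Finset ι) {f : ι → C2 → ℂ} {a b : ι → C2} {z : C2}
    (h : ∀ i ∈ s, HasW (f i) (a i) (b i) z) :
    HasW (fun w => ∑ i ∈ s, f i w) (∑ i ∈ s, a i) (∑ i ∈ s, b i) z := by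
  classical
  induction s using Finset.induction_on with
  | empty => simpa using HasW.const 0 z
  | insert i s hi ih =>
    simp only [Finset.sum_insert hi]
    exact (h i (Finset.mem_insert_self i s)).add
      (ih fun j hj => h j (Finset.mem_insert_of_mem hj))

end Pool.Agent.LibH27.HSC
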